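import Pool.Agent.P.MP_7a6434d8_pr.QL.M1.Walk
import Pool.Agent.P.MP_7a6434d8_pr.QL.Disc
import Pool.Agent.P.MP_7a6434d8_pr.XGraphB

/-! The graph distance and its increments along the boundary. -/

namespace Pool.Agent.QL.M1

open Pool.Agent.P.MP_7a6434d8_pr Mp Finset

variable {t : Mp}

theorem dW_within (ht : ok t) (x y : V t) : Within t (dW t x y) x y :=
  Nat.sInf_mem (within_exists t ht x y)

theorem dW_le {k : ℕ} {x y : V t} (h : Within t k x y) : dW t x y ≤ k := Nat.sInf_le h

theorem within_iff (ht : ok t) {k : ℕ} {x y : V t} : Within t k x y ↔ dW t x y ≤ k :=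
  ⟨dW_le, fun h => (dW_within ht x y).mono h⟩

theorem dW_self (x : V t) : dW t x x = 0 := Nat.le_zero.1 (dW_le (Within.refl t 0 x))

theorem dW_comm (ht : ok t) (x y : V t) : dW t x y = dW t y x :=
  le_antisymm (dW_le (dW_within ht y x).symm) (dW_le (dW_within ht x y).symm)

theorem dW_triangle (ht : ok t) (x y z : V t) : dW t x z ≤ dW t x y + dW t y z :=
  dW_le ((dW_within ht x y).trans (dW_within ht y z))

theorem dW_spec (ht : ok t) (v : V t) :
    (∀ x y, adj t x y → dW t v x = dW t v y + 1 ∨ dW t v y = dW t v x + 1) ∧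
      ∀ x, x ≠ v → ∃ y, adj t x y ∧ dW t v x = dW t v y + 1 := by
  obtain ⟨d, h1, h2, h3, h4⟩ := xgraphb_dist t ht v
  have e : ∀ x, dW t v x = d x := fun x =>
    le_antisymm (dW_le (h1 x)) (h2 x _ (dW_within ht v x))
  simp only [e]
  exact ⟨h3, h4⟩

theorem dW_equiv {s : Mp} (ht : ok t) (hs : ok s) (e : V s ≃ V t)
    (he : ∀ x y, adj t (e x) (e y) ↔ adj s x y) (x y : V s) : dW t (e x) (e y) = dW s x y := by
  refine le_antisymm (dW_le ((dW_within hs x y).map e fun a b h => (he a b).2 h)) ?_
  have := (dW_within ht (e x) (e y)).map e.symm fun a b h => (he _ _).1 (by simpa using h)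
  simp only [Equiv.symm_apply_apply] at this
  exact dW_le this

/-- increments along the boundary of the distance to `v` -/
noncomputable def inc (t : Mp) (v : V t) (p : ℕ) : Bool :=
  decide (dW t v (bv t p) < dW t v (bv t (p + 1)))

theorem dW_bv (ht : ok t) (v : V t) (p : ℕ) (hp : p ≤ 2 * per t) :
    (dW t v (bv t p) : ℤ) = dW t v (bv t 0) + pos (inc t v) p := by
  induction p with
  | zero => simp
  | succ p ih =>
    rw [pos_succ, ← add_assoc, ← ih (by omega)]
    unfold inc sg
    rcases (dW_spec ht v).1 _ _ (adj_bv t ht p hp) with h | h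
    · rw [if_neg (by simp only [decide_eq_true_eq]; omega)]
      omega
    · rw [if_pos (by simp only [decide_eq_true_eq]; omega)]
      omega

theorem pos_inc_end (ht : ok t) (v : V t) : pos (inc t v) (2 * per t) = 0 := by
  have := dW_bv ht v _ le_rfl
  rw [bv_end t ht] at this
  omega

theorem valid_pos {L : ℕ} {σ : ℕ → Bool} (h : pos σ (2 * L) = 0) : Valid L (pos σ) := by
  refine ⟨by rw [h, pos_zero], fun p _ => ?_⟩
  rw [pos_succ]
  cases σ p
  · exact .inr rfl
  · exact .inl rfl

end Pool.Agent.QL.M1
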