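import Pool.Agent.P.MP_7a6434d8_pr.QL.M1.CntB
import Pool.Agent.P.MP_7a6434d8_pr.XIE
import Pool.Agent.P.MP_7a6434d8_pr.DartA

/-! Volume tails of the Boltzmann disc. -/

namespace Pool.Agent.P.MP_7a6434d8_pr

open Mp Finset
open scoped ENNReal

theorem m1_wt_eq (n : ℕ) : (12 : ℝ≥0∞)⁻¹ ^ n = ENNReal.ofReal (1 / 12 ^ n) := by
  rw [one_div, ENNReal.ofReal_inv_of_pos (by positivity), ENNReal.ofReal_pow (by norm_num),
    ENNReal.inv_pow]
  simp

/-- decomposition of the Boltzmann integral according to the number of faces -/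
theorem IE_by_size (L : ℕ) (F : Mp → ℝ≥0∞) :
    IE L F = ∑' n : ℕ, (12 : ℝ≥0∞)⁻¹ ^ n * ∑ t ∈ countaT L n, F t := by
  classical
  have h1 : ∀ t, wt L t * F t
      = ∑' n : ℕ, if t ∈ countaT L n then (12 : ℝ≥0∞)⁻¹ ^ n * F t else 0 := by
    intro t
    rw [tsum_eq_single (size t)]
    · unfold wt
      simp only [counta_mem, and_true]
      split_ifs <;> simp
    · intro n hn
      rw [if_neg]
      rw [counta_mem]
      exact fun h => hn h.2.2.symm
  unfold IE
  simp only [h1]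
  rw [ENNReal.tsum_comm]
  refine tsum_congr fun n => ?_
  rw [tsum_eq_sum (s := countaT L n) (fun t ht => if_neg ht), mul_sum]
  exact sum_congr rfl fun t ht => if_pos ht

theorem IE_size_fun (L : ℕ) (g : ℕ → ℝ) (hg : ∀ n, 0 ≤ g n) :
    IE L (fun t => ENNReal.ofReal (g (size t)))
      = ∑' n : ℕ, ENNReal.ofReal (8 ^ L * (cLm L n * g n)) := by
  rw [IE_by_size]
  refine tsum_congr fun n => ?_
  rw [sum_congr rfl (g := fun _ => ENNReal.ofReal (g n))
    (fun t ht => by rw [((counta_mem L n t).1 ht).2.2]), sum_const, ← counta_cnt_true, m1_wt_eq,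
    nsmul_eq_mul, ← ENNReal.ofReal_natCast, ← ENNReal.ofReal_mul (by positivity),
    ← ENNReal.ofReal_mul (by positivity)]
  congr 1
  unfold cLm
  field_simp

/-- telescoping bound for a tail sum -/
theorem m1_tele (u v : ℕ → ℝ) (m : ℕ) (hu : ∀ n, 0 ≤ u n) (hv : ∀ n, 0 ≤ v n)
    (h : ∀ n, m ≤ n → u (n + 1) + v (n + 1) ≤ v n) :
    ∑' n : ℕ, ENNReal.ofReal (if m < n then u n else 0) ≤ ENNReal.ofReal (v m) := by
  have key : ∀ N, ∑ n ∈ range (m + N + 1), (if m < n then u n else 0) + v (m + N) ≤ v m := by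
    intro N
    induction N with
    | zero =>
      rw [sum_eq_zero]
      · simp
      · intro n hn
        rw [if_neg]
        have := mem_range.1 hn
        omega
    | succ N ih =>
      rw [← add_assoc, sum_range_succ, if_pos (by omega)]
      have := h (m + N) (by omega)
      linarith
  refine ENNReal.tsum_le_of_sum_range_le fun N => ?_
  have h0 : ∀ n, 0 ≤ (if m < n then u n else 0) := fun n => by split_ifs; exacts [hu n, le_rfl]
  rw [← ENNReal.ofReal_sum_of_nonneg (fun n _ => h0 n)]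
  refine ENNReal.ofReal_le_ofReal ?_
  have h2 : ∑ n ∈ range N, (if m < n then u n else 0)
      ≤ ∑ n ∈ range (m + N + 1), (if m < n then u n else 0) :=
    sum_le_sum_of_subset_of_nonneg (range_subset_range.2 (by omega)) fun n _ _ => h0 n
  linarith [key N, hv (m + N)]

theorem cLm_le_pow (L n : ℕ) (hL : 1 ≤ L) :
    cLm L n * (((n : ℝ) + L + 1) ^ 2 * √((n : ℝ) + L + 1)) ≤ 3 * √(L : ℝ) := by
  have h1 := cLm_upper L n hL
  have h2 : Real.exp (-((L : ℝ) ^ 2 / (4 * (n + L + 1)))) ≤ 1 :=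
    Real.exp_le_one_iff.2 (neg_nonpos.2 (by positivity))
  have h0 := cLm_nonneg L n
  refine (pow_le_pow_iff_left₀ (by positivity) (by positivity) two_ne_zero).1 ?_
  rw [mul_pow, mul_pow, mul_pow, Real.sq_sqrt (by positivity), Real.sq_sqrt (by positivity)]
  have hL0 : (0 : ℝ) ≤ L := Nat.cast_nonneg L
  nlinarith

theorem m1_sqrt_step (x : ℝ) (hx : 0 < x) :
    1 / ((x + 1) * √(x + 1)) + 2 / √(x + 1) ≤ 2 / √x := by
  have ha : 0 < √x := Real.sqrt_pos.2 hx
  have hb : 0 < √(x + 1) := Real.sqrt_pos.2 (by linarith)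
  have h1 : √x * √x = x := Real.mul_self_sqrt hx.le
  have h2 : √(x + 1) * √(x + 1) = x + 1 := Real.mul_self_sqrt (by linarith)
  set a := √x
  set b := √(x + 1)
  rw [← h2, div_add_div _ _ (by positivity) (by positivity), div_le_div_iff₀ (by positivity) ha]
  have h3 : a ≤ b := by nlinarith
  have h4 : b * b - a * a = 1 := by linarith
  have h5 : 1 ≤ 2 * b * (b - a) := by nlinarith
  have h6 : a ≤ 2 * b * b * (b - a) := by nlinarith
  nlinarith [mul_le_mul_of_nonneg_left h6 hb.le]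

theorem m1_sqrt_step' (x : ℝ) (hx : 0 < x) :
    1 / ((x + 1) ^ 2 * √(x + 1)) + 1 / ((x + 1) * √(x + 1)) ≤ 1 / (x * √x) := by
  have ha : 0 < √x := Real.sqrt_pos.2 hx
  have hb : √x ≤ √(x + 1) := Real.sqrt_le_sqrt (by linarith)
  have h1 : 1 / ((x + 1) ^ 2 * √(x + 1)) + 1 / ((x + 1) * √(x + 1))
      = (x + 2) / (x + 1) ^ 2 * (1 / √(x + 1)) := by
    have : 0 < √(x + 1) := ha.trans_le hb
    field_simp
    ring
  have h2 : 1 / (x * √x) = 1 / x * (1 / √x) := by field_simp
  rw [h1, h2]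
  refine mul_le_mul ?_ (one_div_le_one_div_of_le ha hb) (by positivity) (by positivity)
  rw [div_le_div_iff₀ (by positivity) hx]
  nlinarith

theorem m1_Z_lower (L : ℕ) : 8 ^ L * √(L : ℝ) ≤ 3 / 2 * ((L : ℝ) + 1) ^ 3 * Z L := by
  have hL : (0 : ℝ) ≤ L := Nat.cast_nonneg L
  have h1 : √(L : ℝ) ≤ 3 / 2 * ((L : ℝ) + 1) ^ 3 * w L := by
    have hw := w_pos L
    refine (pow_le_pow_iff_left₀ (by positivity) (by positivity) two_ne_zero).1 ?_
    rw [Real.sq_sqrt hL]
    have h2 : 4 / 9 ≤ w L ^ 2 * ((L : ℝ) + 1) ^ 5 := by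
      rcases L with _ | L
      · norm_num [w_zero]
      · have := numa_lower L
        push_cast
        rw [add_assoc, one_add_one_eq_two]
        linarith
    have h3 := mul_le_mul_of_nonneg_left h2 (by positivity : (0 : ℝ) ≤ 9 / 4 * (L + 1))
    calc (L : ℝ) ≤ 9 / 4 * (L + 1) * (4 / 9) := by linarith
      _ ≤ _ := h3
      _ = _ := by ring
  rw [Z_eq_w]
  have h8 : (0 : ℝ) < 8 ^ L := by positivity
  nlinarith

/-- `P_L(size > m) ≤ 5 (L+1)^3 m^(-3/2)` -/
theorem size_gt_tail (L m : ℕ) (hm : 1 ≤ m) :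
    mass L (fun t => m < size t) ≤ 5 * ((L : ℝ) + 1) ^ 3 / ((m : ℝ) * √(m : ℝ)) * Z L := by
  classical
  have hm0 : (0 : ℝ) < m := by exact_mod_cast hm
  have hZ := Z_pos L
  rcases Nat.eq_zero_or_pos L with rfl | hL
  · rw [mass_eq_zero]
    · positivity
    · intro t ht hp
      rw [eq_pt_of_per_zero t ht hp]
      simp [size]
  have h1 := IE_size_fun L (fun n => if m < n then 1 else 0) (fun n => by split_ifs <;> norm_num)
  have h2 : IE L (fun t => ENNReal.ofReal (if m < size t then 1 else 0))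
      = ENNReal.ofReal (mass L (fun t => m < size t)) := by
    rw [← IE_ind]
    congr 1
    funext t
    split_ifs <;> simp
  have h3 := m1_tele (fun n => 8 ^ L * cLm L n) (fun n => 8 ^ L * (3 * √(L : ℝ)) / (n * √(n : ℝ))) m
    (fun n => mul_nonneg (by positivity) (cLm_nonneg L n)) (fun n => by positivity) (fun n hn => by
      have hn0 : (0 : ℝ) < n := by exact_mod_cast hm.trans hn
      have a1 := cLm_le_pow L (n + 1) hL
      have a2 := m1_sqrt_step' n hn0
      push_cast at a1 ⊢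
      have hL0 : (0 : ℝ) ≤ L := Nat.cast_nonneg L
      have a3 : ((n : ℝ) + 1) ^ 2 * √((n : ℝ) + 1) ≤ (n + 1 + L + 1) ^ 2 * √(n + 1 + L + 1) :=
        mul_le_mul (pow_le_pow_left₀ (by positivity) (by linarith) 2)
          (Real.sqrt_le_sqrt (by linarith)) (by positivity) (by positivity)
      have a4 : cLm L (n + 1) ≤ 3 * √(L : ℝ) * (1 / ((n + 1) ^ 2 * √((n : ℝ) + 1))) := by
        rw [mul_one_div, le_div_iff₀ (by positivity)]
        exact (mul_le_mul_of_nonneg_left a3 (cLm_nonneg _ _)).trans a1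
      have a5 := mul_le_mul_of_nonneg_left a2 (by positivity : (0 : ℝ) ≤ 3 * √(L : ℝ))
      have a6 : cLm L (n + 1) + 3 * √(L : ℝ) / ((n + 1) * √((n : ℝ) + 1))
          ≤ 3 * √(L : ℝ) / (n * √(n : ℝ)) := by
        rw [mul_add, mul_one_div _ (_ * √(n : ℝ)), mul_one_div _ ((_ + 1) * _)] at a5
        linarith
      have a7 := mul_le_mul_of_nonneg_left a6 (by positivity : (0 : ℝ) ≤ 8 ^ L)
      rw [mul_div_assoc ((8 : ℝ) ^ L), mul_div_assoc ((8 : ℝ) ^ L)]
      linarith)
  have h4 : ENNReal.ofReal (mass L (fun t => m < size t))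
      ≤ ENNReal.ofReal (8 ^ L * (3 * √(L : ℝ)) / (m * √(m : ℝ))) := by
    rw [← h2, h1]
    refine le_trans (le_of_eq (tsum_congr fun n => ?_)) h3
    split_ifs <;> simp
  refine ((ENNReal.ofReal_le_ofReal_iff (by positivity)).1 h4).trans ?_
  rw [div_mul_eq_mul_div]
  refine div_le_div_of_nonneg_right ?_ (by positivity)
  have h5 := m1_Z_lower L
  have h6 : 0 ≤ ((L : ℝ) + 1) ^ 3 * Z L := by positivity
  nlinarith

/-- `E_L[|V|; size > m] ≤ 9 (L+1)^3 m^(-1/2)` -/
theorem card_gt_tail (L m : ℕ) (hm : 1 ≤ m) :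
    IE L (fun t => if m < size t then (Fintype.card (V t) : ℝ≥0∞) else 0)
      ≤ ENNReal.ofReal (9 * ((L : ℝ) + 1) ^ 3 / √(m : ℝ) * Z L) := by
  have hm0 : (0 : ℝ) < m := by exact_mod_cast hm
  have hZ := Z_pos L
  rcases Nat.eq_zero_or_pos L with rfl | hL
  · rw [IE_zero, if_neg (by simp [size])]
    exact zero_le
  have hL0 : (0 : ℝ) ≤ L := Nat.cast_nonneg L
  have h1 := IE_size_fun L (fun n => if m < n then (n : ℝ) + L + 1 else 0)
    (fun n => by split_ifs <;> positivity)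
  have h3 := m1_tele (fun n => 8 ^ L * (cLm L n * (n + L + 1)))
    (fun n => 8 ^ L * (3 * √(L : ℝ)) * (2 / √((n : ℝ) + L + 1))) m
    (fun n => mul_nonneg (by positivity) (mul_nonneg (cLm_nonneg L n) (by positivity)))
    (fun n => by positivity) (fun n hn => by
      have a1 := cLm_le_pow L (n + 1) hL
      have a2 := m1_sqrt_step ((n : ℝ) + L + 1) (by positivity)
      push_cast at a1 ⊢
      have e : (n : ℝ) + 1 + L + 1 = n + L + 1 + 1 := by ring
      rw [e] at a1 ⊢
      have a4 : cLm L (n + 1) * (n + L + 1 + 1)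
          ≤ 3 * √(L : ℝ) * (1 / ((n + L + 1 + 1) * √((n : ℝ) + L + 1 + 1))) := by
        rw [mul_one_div, le_div_iff₀ (by positivity)]
        refine le_trans (le_of_eq (by ring)) a1
      have a5 := mul_le_mul_of_nonneg_left a2 (by positivity : (0 : ℝ) ≤ 3 * √(L : ℝ))
      have a7 := mul_le_mul_of_nonneg_left (show cLm L (n + 1) * (n + L + 1 + 1)
        + 3 * √(L : ℝ) * (2 / √((n : ℝ) + L + 1 + 1)) ≤ 3 * √(L : ℝ) * (2 / √((n : ℝ) + L + 1)) by
          linarith) (by positivity : (0 : ℝ) ≤ 8 ^ L)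
      linarith)
  calc _ ≤ IE L (fun t => ENNReal.ofReal (if m < size t then (size t : ℝ) + L + 1 else 0)) := by
        refine IE_mono fun t ht hp => le_of_eq ?_
        split_ifs
        · rw [card_V t ht, hp, ← ENNReal.ofReal_natCast]
          push_cast
          rfl
        · simp
    _ ≤ ENNReal.ofReal (8 ^ L * (3 * √(L : ℝ)) * (2 / √((m : ℝ) + L + 1))) := by
        rw [h1]
        refine le_trans (le_of_eq (tsum_congr fun n => ?_)) h3
        split_ifs <;> simp
    _ ≤ _ := by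
        refine ENNReal.ofReal_le_ofReal ?_
        have a1 : 2 / √((m : ℝ) + L + 1) ≤ 2 / √(m : ℝ) :=
          div_le_div_of_nonneg_left (by norm_num) (Real.sqrt_pos.2 hm0)
            (Real.sqrt_le_sqrt (by linarith))
        have h5 := m1_Z_lower L
        calc _ ≤ 8 ^ L * (3 * √(L : ℝ)) * (2 / √(m : ℝ)) :=
              mul_le_mul_of_nonneg_left a1 (by positivity)
          _ = 6 * (8 ^ L * √(L : ℝ)) / √(m : ℝ) := by ring
          _ ≤ 6 * (3 / 2 * ((L : ℝ) + 1) ^ 3 * Z L) / √(m : ℝ) :=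
              div_le_div_of_nonneg_right (by linarith) (by positivity)
          _ = _ := by ring

end Pool.Agent.P.MP_7a6434d8_pr
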