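import Pool.Agent.P.MP_7a6434d8_pr.QL.M1.ChainMap
import Pool.Agent.P.MP_7a6434d8_pr.QL.M1.CntC
import Pool.Agent.P.MP_7a6434d8_pr.QL.ND.Defs

/-! Modulus of continuity and injectivity of the boundary of the Boltzmann disc. -/

namespace Pool.Agent.QL.M1

open Pool.Agent.P.MP_7a6434d8_pr Mp Finset
open scoped ENNReal

/-- modulus of continuity of the boundary, Boltzmann law -/
def E1u : Prop :=
  ∀ ε η : ℝ, 0 < ε → 0 < η → ∃ θ : ℝ, 0 < θ ∧ ∀ L : ℕ,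
    mass L (fun t => ∃ p p', p ≤ p' ∧ p' ≤ 2 * L ∧ (p' : ℝ) - p ≤ θ * L ∧
      ε * √(L : ℝ) < dW t (bv t p) (bv t p')) ≤ η * Z L

/-- injectivity of the boundary, Boltzmann law -/
def E2g : Prop :=
  ∀ θ η : ℝ, 0 < θ → 0 < η → ∃ ε : ℝ, 0 < ε ∧ ∃ L0 : ℕ, ∀ L : ℕ, L0 ≤ L →
    mass L (fun t => ∃ p p', p ≤ p' ∧ p' ≤ 2 * L ∧ θ * L ≤ (p' : ℝ) - p ∧
      (p' : ℝ) - p ≤ (2 - θ) * L ∧ (dW t (bv t p) (bv t p') : ℝ) ≤ ε * √(L : ℝ)) ≤ η * Z L

theorem mod_win {L k' : ℕ} (x k N : ℕ) (hk : k' ≤ L) {b : ℝ} (hb : 0 < b) :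
    mass L (fun t => ∃ i, i ≤ N ∧ ∃ q, q ≤ k' ∧ x + i * k + q ≤ 2 * L ∧
      b ≤ (dW t (bv t (x + i * k)) (bv t (x + i * k + q)) : ℝ))
      ≤ ((N : ℝ) + 1) * (12 * (4 + 183 * k') ^ 6 / b ^ 12) * Z L := by
  refine (mass_le_sum (range (N + 1)) (fun i t => ∃ q, q ≤ k' ∧ x + i * k + q ≤ 2 * L ∧
    b ≤ (dW t (bv t (x + i * k)) (bv t (x + i * k + q)) : ℝ)) fun t _ _ h => ?_).trans
      ((sum_le_sum fun i _ => max_tail (x + i * k) hk hb).trans (le_of_eq ?_))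
  · obtain ⟨i, hi, h⟩ := h
    exact ⟨i, mem_range.2 (Nat.lt_succ_of_le hi), h⟩
  · rw [sum_const, card_range, nsmul_eq_mul]
    push_cast
    ring

theorem e1u : E1u := by
  intro ε η hε hη
  set C : ℝ := 3 * 12 * 370 ^ 6 * 2 ^ 12 / ε ^ 12 with hC
  have hC0 : 0 < C := by positivity
  refine ⟨min (1 / 2) (η / C), by positivity, fun L => ?_⟩
  set θ : ℝ := min (1 / 2) (η / C) with hθ
  have hθ0 : 0 < θ := by positivity
  have hθ1 : θ ≤ 1 / 2 := min_le_left _ _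
  have hθ2 : θ ≤ η / C := min_le_right _ _
  have hZ := Z_pos L
  have hL0 : (0 : ℝ) ≤ L := Nat.cast_nonneg L
  set k := ⌊θ * L⌋₊ with hk
  have hkle : (k : ℝ) ≤ θ * L := Nat.floor_le (by positivity)
  have hpk : ∀ p p' : ℕ, p ≤ p' → (p' : ℝ) - p ≤ θ * L → p' ≤ p + k := fun p p' h1 h2 => by
    have : p' - p ≤ k := Nat.le_floor (by rw [Nat.cast_sub h1]; exact h2)
    omega
  rcases Nat.eq_zero_or_pos k with h0 | h0
  · rw [mass_eq_zero]
    · positivity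
    · rintro t _ _ ⟨p, p', h1, -, h3, h4⟩
      have := hpk p p' h1 h3
      rw [show p' = p by omega, dW_self] at h4
      have : 0 ≤ ε * √(L : ℝ) := by positivity
      norm_num at h4
      linarith
  have hk1 : (1 : ℝ) ≤ k := by exact_mod_cast h0
  have hkL : (2 * k : ℝ) ≤ L := by nlinarith
  have hL1 : (0 : ℝ) < L := by linarith
  have hb : 0 < ε * √(L : ℝ) / 2 := by positivity
  refine (mass_mono fun t ht hL h => ?_).trans ((mod_win (k' := 2 * k) 0 k (2 * L / k)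
    (by exact_mod_cast hkL) hb).trans (mul_le_mul_of_nonneg_right ?_ hZ.le))
  · obtain ⟨p, p', h1, h2, h3, h4⟩ := h
    have h5 := hpk p p' h1 h3
    have h6 := Nat.div_add_mod' p k
    have h7 := Nat.mod_lt p h0
    have h8 := dW_triangle ht (bv t p) (bv t (p / k * k)) (bv t p')
    rw [dW_comm ht (bv t p) (bv t (p / k * k))] at h8
    have h9 : (dW t (bv t p) (bv t p') : ℝ) ≤ dW t (bv t (p / k * k)) (bv t p)
        + dW t (bv t (p / k * k)) (bv t p') := by exact_mod_cast h8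
    refine ⟨p / k, Nat.div_le_div_right (by omega), ?_⟩
    rw [zero_add]
    by_cases hc : ε * √(L : ℝ) / 2 ≤ dW t (bv t (p / k * k)) (bv t p)
    · exact ⟨p % k, by omega, by omega, by rwa [h6]⟩
    · refine ⟨p' - p / k * k, by omega, by omega, ?_⟩
      rw [show p / k * k + (p' - p / k * k) = p' by omega]
      linarith
  · have a1 : ((2 * L / k : ℕ) : ℝ) + 1 ≤ 3 * L / k := by
      have : ((2 * L / k : ℕ) : ℝ) ≤ 2 * L / k := by
        have := Nat.cast_div_le (α := ℝ) (m := 2 * L) (n := k)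
        push_cast at this
        exact this
      have h2 : (1 : ℝ) ≤ L / k := by rw [le_div_iff₀ (by linarith)]; linarith
      have h3 : (3 : ℝ) * L / k = 2 * L / k + L / k := by ring
      linarith
    have a2 : (ε * √(L : ℝ) / 2) ^ 12 = ε ^ 12 * L ^ 6 / 2 ^ 12 := by
      rw [div_pow, mul_pow, show √(L : ℝ) ^ 12 = (√(L : ℝ) ^ 2) ^ 6 by ring, Real.sq_sqrt hL0]
    have a3 : (4 + 183 * ((2 * k : ℕ) : ℝ)) ^ 6 ≤ (370 * k) ^ 6 := by
      push_cast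
      exact pow_le_pow_left₀ (by positivity) (by linarith) 6
    have a4 : (k : ℝ) / L ≤ θ := by rw [div_le_iff₀ hL1]; exact hkle
    have a5 : ((k : ℝ) / L) ^ 5 ≤ θ := (pow_le_of_le_one (by positivity) (by linarith)
      (by norm_num)).trans a4
    calc _ ≤ 3 * L / k * (12 * (370 * k) ^ 6 / (ε * √(L : ℝ) / 2) ^ 12) := by gcongr
      _ = C * ((k : ℝ) / L) ^ 5 := by
          rw [a2, hC]
          field_simp
      _ ≤ C * (η / C) := mul_le_mul_of_nonneg_left (a5.trans hθ2) hC0.le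
      _ = η := by field_simp

theorem near_win {L k a : ℕ} (x N ρ b : ℕ) (hk : 0 < k) (hkL : k ≤ L) (hka : 2 * k ≤ a) (hb : 0 < b) :
    mass L (fun t => ∃ p p', x ≤ p ∧ p + a ≤ p' ∧ p' ≤ x + N * k ∧ p' ≤ 2 * L ∧
      p' + a ≤ p + 2 * L ∧ dW t (bv t p) (bv t p') ≤ ρ)
      ≤ (((N : ℝ) + 1) * (12 * (4 + 183 * k) ^ 6 / (b : ℝ) ^ 12) + ((N : ℝ) + 1) ^ 2 *
        (96 * (((ρ + 2 * b : ℕ) : ℝ) + 1) ^ 5 / ((((a - k : ℕ) : ℝ) + 1) ^ 2
          * √(((a - k : ℕ) : ℝ) + 1)))) * Z L := by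
  have hZ := Z_pos L
  have hb' : (0 : ℝ) < b := by exact_mod_cast hb
  rw [add_mul]
  refine (mass_le_add (χ := fun t => ∃ ij ∈ range (N + 1) ×ˢ range (N + 1),
    (x + ij.1 * k + (a - k) ≤ x + ij.2 * k ∧ x + ij.2 * k ≤ 2 * L ∧
      x + ij.2 * k + (a - k) ≤ x + ij.1 * k + 2 * L) ∧
      dW t (bv t (x + ij.1 * k)) (bv t (x + ij.2 * k)) ≤ ρ + 2 * b) fun t ht hL h => ?_).trans
    (add_le_add (mod_win x k N hkL hb') ?_)
  · obtain ⟨p, p', h1, h2, h3, h4, h5, h6⟩ := h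
    have e1 := Nat.div_add_mod' (p - x) k
    have e2 := Nat.mod_lt (p - x) hk
    have e3 := Nat.div_add_mod' (p' - x) k
    have e4 := Nat.mod_lt (p' - x) hk
    have e5 : (p - x) / k ≤ N := Nat.div_le_of_le_mul (by rw [mul_comm]; omega)
    have e6 : (p' - x) / k ≤ N := Nat.div_le_of_le_mul (by rw [mul_comm]; omega)
    generalize (p - x) / k = i at e1 e5
    generalize (p' - x) / k = j at e3 e6
    generalize (p - x) % k = q at e1 e2
    generalize (p' - x) % k = q' at e3 e4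
    by_cases c1 : b ≤ dW t (bv t (x + i * k)) (bv t p)
    · exact .inl ⟨i, e5, q, e2.le, by omega, by
        rw [show x + i * k + q = p by omega]; exact_mod_cast c1⟩
    by_cases c2 : b ≤ dW t (bv t (x + j * k)) (bv t p')
    · exact .inl ⟨j, e6, q', e4.le, by omega, by
        rw [show x + j * k + q' = p' by omega]; exact_mod_cast c2⟩
    refine .inr ⟨(i, j), mem_product.2 ⟨mem_range.2 (by omega), mem_range.2 (by omega)⟩,
      ⟨by dsimp only; omega, by dsimp only; omega, by dsimp only; omega⟩, ?_⟩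
    have t1 := dW_triangle ht (bv t (x + i * k)) (bv t p) (bv t (x + j * k))
    have t2 := dW_triangle ht (bv t p) (bv t p') (bv t (x + j * k))
    rw [dW_comm ht (bv t p')] at t2
    dsimp only
    omega
  · refine (mass_le_sum _ _ fun t _ _ h => h).trans ((sum_le_card_nsmul _ _
      (96 * (((ρ + 2 * b : ℕ) : ℝ) + 1) ^ 5 / ((((a - k : ℕ) : ℝ) + 1) ^ 2
        * √(((a - k : ℕ) : ℝ) + 1)) * Z L) fun ij _ => ?_).trans (le_of_eq ?_))
    · by_cases hc : x + ij.1 * k + (a - k) ≤ x + ij.2 * k ∧ x + ij.2 * k ≤ 2 * L ∧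
          x + ij.2 * k + (a - k) ≤ x + ij.1 * k + 2 * L
      · obtain ⟨s, hs⟩ : ∃ s, x + ij.2 * k = x + ij.1 * k + s :=
          ⟨x + ij.2 * k - (x + ij.1 * k), by omega⟩
        rw [hs] at hc ⊢
        exact (mass_mono fun t _ _ h => h.2).trans
          (small_ball _ hc.2.1 (by omega) (by omega))
      · rw [mass_eq_zero fun t _ _ h => hc h.1]
        positivity
    · rw [card_product, card_range, nsmul_eq_mul]
      push_cast
      ring

theorem e2gen (η : ℝ) (hη : 0 < η) (K : ℕ) (hK : 1 ≤ K) : ∃ r : ℝ, 0 < r ∧ ∃ a0 : ℕ, ∀ a, a0 ≤ a →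
    ∀ L x : ℕ, a ≤ L → mass L (fun t => ∃ p p', x ≤ p ∧ p + a ≤ p' ∧ p' ≤ x + K * a ∧ p' ≤ 2 * L ∧
      p' + a ≤ p + 2 * L ∧ (dW t (bv t p) (bv t p') : ℝ) ≤ r * √(a : ℝ)) ≤ η * Z L := by
  have hK1 : (1 : ℝ) ≤ K := by exact_mod_cast hK
  set C : ℝ := 4 * K * (12 * 187 ^ 6) + (4 * K) ^ 2 * (96 * 4 ^ 5 * 8) with hC
  have hC0 : 0 < C := by positivity
  obtain ⟨u, hu0, hu1, hu2⟩ : ∃ u : ℝ, 0 < u ∧ u ≤ 1 / 2 ∧ u ≤ η / C :=
    ⟨min (1 / 2) (η / C), by positivity, min_le_left _ _, min_le_right _ _⟩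
  have hup : ∀ n : ℕ, n ≠ 0 → u ^ n ≤ u := fun n hn => pow_le_of_le_one hu0.le (by linarith) hn
  refine ⟨u ^ 20, by positivity, ⌈max (1 / u ^ 49) (9 / u ^ 40)⌉₊, fun a ha L x haL => ?_⟩
  have ha' := Nat.ceil_le.1 ha
  have ha1 : 1 ≤ u ^ 49 * a := by
    have := (le_max_left _ _).trans ha'
    rwa [div_le_iff₀ (by positivity), mul_comm] at this
  have ha0 : (0 : ℝ) < a := by
    by_contra h
    have : u ^ 49 * a ≤ 0 := mul_nonpos_of_nonneg_of_nonpos (by positivity) (not_lt.1 h)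
    linarith
  have hs : √(a : ℝ) ^ 2 = a := Real.sq_sqrt ha0.le
  have hs0 : 0 < √(a : ℝ) := Real.sqrt_pos.2 ha0
  have ha2 : 3 ≤ u ^ 20 * √(a : ℝ) := by
    have := (le_max_right _ _).trans ha'
    rw [div_le_iff₀ (by positivity)] at this
    refine (pow_le_pow_iff_left₀ (by norm_num) (by positivity) two_ne_zero).1 ?_
    rw [mul_pow, hs]
    linarith
  set k := ⌊u ^ 49 * a⌋₊ with hk
  have hk1 : (k : ℝ) ≤ u ^ 49 * a := Nat.floor_le (by positivity)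
  have hk0 : 0 < k := Nat.floor_pos.2 ha1
  have hk2 : (1 : ℝ) ≤ k := by exact_mod_cast hk0
  have hk3 : u ^ 49 * a ≤ 2 * k := by
    have := Nat.lt_floor_add_one (u ^ 49 * a)
    linarith
  have hk4 : (2 * k : ℝ) ≤ a := by nlinarith [hup 49 (by norm_num)]
  have hk5 : 2 * k ≤ a := by exact_mod_cast hk4
  set b := ⌈u ^ 20 * √(a : ℝ)⌉₊ with hb
  have hb1 : u ^ 20 * √(a : ℝ) ≤ b := Nat.le_ceil _
  have hb2 : (b : ℝ) ≤ u ^ 20 * √(a : ℝ) + 1 := (Nat.ceil_lt_add_one (by positivity)).le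
  have hb0 : 0 < b := Nat.ceil_pos.2 (by positivity)
  set ρ := ⌊u ^ 20 * √(a : ℝ)⌋₊ with hρ
  have hρ1 : (ρ : ℝ) ≤ u ^ 20 * √(a : ℝ) := Nat.floor_le (by positivity)
  set N := K * a / k + 1 with hN
  have hN1 : K * a ≤ N * k := by
    have := Nat.lt_div_mul_add (a := K * a) hk0
    rw [hN, add_mul, one_mul]
    omega
  have hN2 : (N : ℝ) + 1 ≤ 4 * K / u ^ 49 := by
    have h1 := Nat.cast_div_le (α := ℝ) (m := K * a) (n := k)
    have h2 : ((K * a : ℕ) : ℝ) / k ≤ 2 * K / u ^ 49 := by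
      rw [div_le_div_iff₀ (by linarith) (by positivity)]
      push_cast
      nlinarith
    have h3 : (2 : ℝ) ≤ 2 * K / u ^ 49 := by
      rw [le_div_iff₀ (by positivity)]
      nlinarith [hup 49 (by norm_num)]
    have h4 : (4 : ℝ) * K / u ^ 49 = 2 * K / u ^ 49 + 2 * K / u ^ 49 := by ring
    rw [hN, Nat.cast_add, Nat.cast_one]
    linarith
  refine (mass_mono fun t _ _ h => ?_).trans ((near_win x N ρ b hk0 (by omega) hk5 hb0).trans
    (mul_le_mul_of_nonneg_right ?_ (Z_pos L).le))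
  · obtain ⟨p, p', h1, h2, h3, h4, h5, h6⟩ := h
    exact ⟨p, p', h1, h2, by omega, h4, h5, Nat.le_floor h6⟩
  · have c1 : (4 + 183 * (k : ℝ)) ^ 6 ≤ (187 * (u ^ 49 * a)) ^ 6 :=
      pow_le_pow_left₀ (by positivity) (by linarith) 6
    have c2 : ((ρ + 2 * b : ℕ) : ℝ) + 1 ≤ 4 * (u ^ 20 * √(a : ℝ)) := by
      push_cast
      linarith
    have c3 : (a : ℝ) / 2 ≤ ((a - k : ℕ) : ℝ) + 1 := by
      rw [Nat.cast_sub (by omega)]
      linarith
    have c4 : √(a : ℝ) / 2 ≤ √(((a - k : ℕ) : ℝ) + 1) := by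
      refine Real.le_sqrt_of_sq_le ?_
      rw [div_pow, hs]
      linarith
    have c5 : (a : ℝ) ^ 6 = √(a : ℝ) ^ 12 := by rw [← hs, Real.sqrt_sq hs0.le]; ring
    have c6 : (a : ℝ) ^ 2 = √(a : ℝ) ^ 4 := by rw [← hs, Real.sqrt_sq hs0.le]; ring
    calc _ ≤ 4 * K / u ^ 49 * (12 * (187 * (u ^ 49 * a)) ^ 6 / (u ^ 20 * √(a : ℝ)) ^ 12)
          + (4 * K / u ^ 49) ^ 2 * (96 * (4 * (u ^ 20 * √(a : ℝ))) ^ 5
            / (((a : ℝ) / 2) ^ 2 * (√(a : ℝ) / 2))) := by gcongr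
      _ = 4 * K * (12 * 187 ^ 6) * u ^ 5 + (4 * K) ^ 2 * (96 * 4 ^ 5 * 8) * u ^ 2 := by
          simp only [mul_pow, div_pow, c5, c6]
          field_simp
          ring
      _ ≤ 4 * K * (12 * 187 ^ 6) * u + (4 * K) ^ 2 * (96 * 4 ^ 5 * 8) * u := by
          gcongr
          · exact hup 5 (by norm_num)
          · exact hup 2 (by norm_num)
      _ = C * u := by rw [hC]; ring
      _ ≤ C * (η / C) := mul_le_mul_of_nonneg_left hu2 hC0.le
      _ = η := by field_simp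

theorem e2u : ND.E2u := by
  intro η hη K hK
  obtain ⟨r, hr, a0, h⟩ := e2gen η hη K hK
  refine ⟨r, hr, a0, fun a ha L x hL => ?_⟩
  have h1 : a ≤ K * a := Nat.le_mul_of_pos_left a hK
  rw [mul_assoc] at hL
  refine (mass_mono fun t ht _ h => ?_).trans (h a ha L x (by omega))
  obtain ⟨p, p', h2, h3, h4, h5, h6⟩ := h
  refine ⟨p, p', h2, h3, h4, h5, by omega, ?_⟩
  exact le_trans (by exact_mod_cast dW_le h6) (Nat.floor_le (by positivity))

theorem e2g : E2g := by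
  intro θ η hθ hη
  have hK : 1 ≤ ⌈2 / θ⌉₊ := Nat.ceil_pos.2 (by positivity)
  obtain ⟨r, hr, a0, h⟩ := e2gen η hη _ hK
  refine ⟨r * √θ, by positivity, ⌈(a0 : ℝ) / θ⌉₊, fun L hL => ?_⟩
  have hL0 : (0 : ℝ) ≤ L := Nat.cast_nonneg L
  set a := ⌈θ * L⌉₊ with ha
  have a1 : θ * L ≤ a := Nat.le_ceil _
  have a2 : a0 ≤ a := by
    have := Nat.ceil_le.1 hL
    rw [div_le_iff₀ hθ] at this
    exact_mod_cast (by linarith : (a0 : ℝ) ≤ a)
  have key : ∀ p p' : ℕ, p ≤ p' → p' ≤ 2 * L → θ * L ≤ (p' : ℝ) - p →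
      (p' : ℝ) - p ≤ (2 - θ) * L → p + a ≤ p' ∧ p' + a ≤ p + 2 * L := fun p p' h1 h2 h3 h4 => by
    have b1 : a ≤ p' - p := Nat.ceil_le.2 (by rwa [Nat.cast_sub h1])
    have b2 : a ≤ p + 2 * L - p' := Nat.ceil_le.2 (by
      rw [Nat.cast_sub (by omega)]
      push_cast
      linarith)
    omega
  by_cases haL : a ≤ L
  · refine (mass_mono fun t ht _ h => ?_).trans (h a a2 L 0 haL)
    obtain ⟨p, p', h1, h2, h3, h4, h5⟩ := h
    obtain ⟨b1, b2⟩ := key p p' h1 h2 h3 h4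
    refine ⟨p, p', Nat.zero_le _, b1, ?_, h2, b2, h5.trans ?_⟩
    · have c1 : 2 / θ ≤ ⌈2 / θ⌉₊ := Nat.le_ceil _
      have c2 : (2 * L : ℝ) ≤ ⌈2 / θ⌉₊ * a := by
        calc (2 * L : ℝ) = 2 / θ * (θ * L) := by field_simp
          _ ≤ _ := by gcongr
      have c3 : 2 * L ≤ ⌈2 / θ⌉₊ * a := by exact_mod_cast c2
      omega
    · rw [mul_assoc, ← Real.sqrt_mul hθ.le]
      gcongr
  · rw [mass_eq_zero]
    · have := Z_pos L
      positivity
    · rintro t _ _ ⟨p, p', h1, h2, h3, h4, -⟩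
      have := key p p' h1 h2 h3 h4
      omega

theorem tailV : ND.TailV := ⟨9, by norm_num, card_gt_tail⟩

theorem cntBd : ND.CntBd := by
  have e : ∀ L : ℕ, (((L : ℝ) + 1) ^ 4 * √((L : ℝ) + 1)) ^ 2 = ((L : ℝ) + 1) ^ 9 := fun L => by
    rw [mul_pow, Real.sq_sqrt (by positivity)]; ring
  have e2 : ∀ L m : ℕ, (cnt L m (fun _ => True) : ℝ) = cLm L m * (12 ^ m * 8 ^ L) := fun L m => by
    unfold cLm
    field_simp
  refine ⟨⟨30000, fun L m hL => ?_⟩, fun B hB => ?_⟩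
  · have h1 : cLm L m * (((L : ℝ) + 1) ^ 4 * √((L : ℝ) + 1)) ≤ 30000 := by
      have := cLm_nonneg L m
      refine (pow_le_pow_iff_left₀ (by positivity) (by norm_num) two_ne_zero).1 ?_
      rw [mul_pow, e]
      exact cLm_le L m hL
    rw [e2, le_div_iff₀ (by positivity)]
    have := mul_le_mul_of_nonneg_right h1 (by positivity : (0 : ℝ) ≤ 12 ^ m * 8 ^ L)
    linarith
  · refine ⟨√(Real.exp (-(2 * B)) / (100 * ((B : ℝ) + 2) ^ 5)), by positivity, 1,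
      fun L m hL h1 h2 => ?_⟩
    have h3 := cLm_ge B (by exact_mod_cast hB) L m hL (by exact_mod_cast h1) (by exact_mod_cast h2)
    have h4 : √(Real.exp (-(2 * B)) / (100 * ((B : ℝ) + 2) ^ 5))
        ≤ cLm L m * (((L : ℝ) + 1) ^ 4 * √((L : ℝ) + 1)) := by
      have := cLm_nonneg L m
      refine Real.sqrt_le_iff.2 ⟨by positivity, h3.trans ?_⟩
      rw [mul_pow, e]
      gcongr
      linarith
    rw [e2, div_le_iff₀ (by positivity)]
    have := mul_le_mul_of_nonneg_right h4 (by positivity : (0 : ℝ) ≤ 12 ^ m * 8 ^ L)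
    linarith

end Pool.Agent.QL.M1
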