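import Pool.Agent.P.MP_7a6434d8_pr.QL.M1.Greedy

/-! Concentration of the greedy count and the maximal inequality. -/

namespace Pool.Agent.QL.M1

open Finset Function

open Classical in
/-- `Φ n σ = if ∃ q ≤ n, a ≤ |pos σ q| then a ^ 2 else (pos σ n) ^ 2` has `EW n (Φ n) ≤ n`
(`EW_step`, `pos_update`), then `EW_markov`. -/
theorem max_ineq (k : ℕ) {a : ℝ} (ha : 0 < a) :
    EW k (fun σ => if ∃ q, q ≤ k ∧ a ≤ |(pos σ q : ℝ)| then 1 else 0) ≤ k / a ^ 2 := by
  have key : ∀ n, EW n (fun σ => if ∃ q, q ≤ n ∧ a ≤ |(pos σ q : ℝ)| then a ^ 2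
      else (pos σ n : ℝ) ^ 2) ≤ n := fun n => by
    induction n with
    | zero => simp [EW, ha.not_ge]
    | succ n ih =>
      refine (EW_step (G := fun σ => (if ∃ q, q ≤ n ∧ a ≤ |(pos σ q : ℝ)| then a ^ 2
        else (pos σ n : ℝ) ^ 2) + 1) fun σ => ?_).trans ?_
      · by_cases h : ∃ q, q ≤ n ∧ a ≤ |(pos σ q : ℝ)|
        · have h1 : ∀ b, ∃ q, q ≤ n + 1 ∧ a ≤ |(pos (update σ n b) q : ℝ)| := fun b =>
            h.imp fun q hq => ⟨hq.1.trans n.le_succ, by rw [pos_update σ b hq.1]; exact hq.2⟩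
          rw [if_pos h, if_pos (h1 _), if_pos (h1 _)]
          linarith
        · have h1 : ∀ b, (if ∃ q, q ≤ n + 1 ∧ a ≤ |(pos (update σ n b) q : ℝ)| then a ^ 2
              else (pos (update σ n b) (n + 1) : ℝ) ^ 2) ≤ ((pos σ n : ℝ) + sg b) ^ 2 := fun b => by
            rw [← Int.cast_add, ← pos_update_succ]
            split_ifs with h2
            · obtain ⟨q, hq, h3⟩ := h2
              rcases Nat.le_succ_iff.1 hq with h4 | rfl
              · exact (h ⟨q, h4, by rwa [pos_update σ b h4] at h3⟩).elim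
              · rw [← sq_abs (pos _ _ : ℝ)]
                exact pow_le_pow_left₀ ha.le h3 2
            · exact le_rfl
          have h2 := h1 true
          have h3 := h1 false
          rw [sg_true] at h2
          rw [sg_false] at h3
          rw [if_neg h]
          push_cast at h2 h3
          linarith
      · rw [EW_add, EW_const]
        push_cast
        linarith
  refine (EW_markov k (by positivity) (fun σ => ?_) fun σ h => ?_).trans
    (div_le_div_of_nonneg_right (key k) (by positivity))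
  · split_ifs <;> positivity
  · rw [if_pos h]

/-- expected time to the next renewal -/
noncomputable def gpsi (h : ℕ) (s : ℕ × ℕ × ℕ) : ℝ :=
  ((s.2.1 : ℝ) + 1) * ((s.2.2 : ℝ) + 1 - s.2.1) + ((h : ℝ) * (h + 1) - (s.2.2 + 1) * (s.2.2 + 2)) / 2

/-- the martingale -/
noncomputable def gM (h : ℕ) (σ : ℕ → Bool) (n : ℕ) : ℝ :=
  ((gs h σ n).1 : ℝ) * (h * (h + 1) / 2) - n + (h * (h + 1) / 2 - gpsi h (gs h σ n))

theorem conc_step {h : ℕ} (s : ℕ × ℕ × ℕ) (h1 : s.2.1 ≤ s.2.2) (b : Bool) :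
    ((gstep h s b).1 : ℝ) * (h * (h + 1) / 2) - gpsi h (gstep h s b) =
      s.1 * (h * (h + 1) / 2) - gpsi h s + 1 + sg b * (2 * s.2.1 - s.2.2) := by
  obtain ⟨N, x, w⟩ := s
  unfold gstep
  cases b
  · rcases x with _ | x
    · by_cases e : w + 1 = h
      · subst e
        simp [gpsi]
        ring
      · simp [gpsi, e]
        ring
    · simp [gpsi]
      ring
  · by_cases e' : x = w
    · subst e'
      by_cases e : x + 1 = h
      · subst e
        simp [gpsi]
        ring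
      · simp [gpsi, e]
        ring
    · simp [gpsi, e']
      ring

theorem conc_succ {h : ℕ} (hh : 1 ≤ h) (σ : ℕ → Bool) (n : ℕ) (b : Bool) :
    gM h (update σ n b) (n + 1) =
      gM h σ n + sg b * (2 * ((gs h σ n).2.1 : ℝ) - (gs h σ n).2.2) := by
  have h1 := conc_step (h := h) _ (gs_inv hh σ n).1 b
  have h2 : gs h (update σ n b) (n + 1) = gstep h (gs h σ n) b := by
    rw [gs, update_self, (gs_dep h n).update le_rfl σ b]
  rw [gM, gM, h2]
  push_cast
  linarith

/-- `gM` has mean zero increments bounded by `h + 1` -/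
theorem gM_sq {h : ℕ} (hh : 1 ≤ h) (n : ℕ) :
    EW n (fun σ => gM h σ n ^ 2) ≤ n * ((h : ℝ) + 1) ^ 2 := by
  induction n with
  | zero =>
    have : gM h (fun _ => false) 0 = 0 := by
      simp only [gM, gs, gpsi]
      push_cast
      ring
    simp [EW, this]
  | succ n ih =>
    refine (EW_step (G := fun σ => gM h σ n ^ 2 + ((h : ℝ) + 1) ^ 2) fun σ => ?_).trans ?_
    · obtain ⟨h1, h2⟩ := gs_inv hh σ n
      rw [conc_succ hh, conc_succ hh, sg_true, sg_false]
      have h3 : ((gs h σ n).2.1 : ℝ) ≤ (gs h σ n).2.2 := Nat.cast_le.2 h1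
      have h4 : ((gs h σ n).2.2 : ℝ) < h := Nat.cast_lt.2 h2
      have h5 : (0 : ℝ) ≤ (gs h σ n).2.1 := Nat.cast_nonneg _
      have h6 : (2 * ((gs h σ n).2.1 : ℝ) - (gs h σ n).2.2) ^ 2 ≤ ((h : ℝ) + 1) ^ 2 :=
        sq_le_sq' (by linarith) (by linarith)
      push_cast
      linarith
    · rw [EW_add, EW_const]
      push_cast
      linarith

open Classical in
/-- `0 ≤ gpsi ≤ 2 h ^ 2`, `EW_markov` -/
theorem gs_conc {h : ℕ} (hh : 1 ≤ h) (k : ℕ) {a : ℝ} (ha : 0 < a) :
    EW k (fun σ => if a + 2 * (h : ℝ) ^ 2 < |((gs h σ k).1 : ℝ) * (h * (h + 1) / 2) - k|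
      then 1 else 0) ≤ 4 * k * (h : ℝ) ^ 2 / a ^ 2 := by
  have h0 : (1 : ℝ) ≤ h := Nat.one_le_cast.2 hh
  refine (EW_markov k (F := fun σ => gM h σ k ^ 2) (c := a ^ 2) (by positivity)
    (fun σ => sq_nonneg _) fun σ hσ => ?_).trans (div_le_div_of_nonneg_right
      ((gM_sq hh k).trans ?_) (by positivity))
  · obtain ⟨h1, h2⟩ := gs_inv hh σ k
    rw [← sq_abs (gM h σ k)]
    refine pow_le_pow_left₀ ha.le ?_ 2
    have h3 : |h * (h + 1) / 2 - gpsi h (gs h σ k)| ≤ 2 * (h : ℝ) ^ 2 := by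
      have h3 : ((gs h σ k).2.1 : ℝ) ≤ (gs h σ k).2.2 := Nat.cast_le.2 h1
      have h4 : ((gs h σ k).2.2 : ℝ) + 1 ≤ h := by exact_mod_cast h2
      have h5 : (0 : ℝ) ≤ (gs h σ k).2.1 := Nat.cast_nonneg _
      rw [gpsi]
      generalize ((gs h σ k).2.1 : ℝ) = x at *
      generalize ((gs h σ k).2.2 : ℝ) = w at *
      have h6 : (x + 1) * (w + 1 - x) ≤ h * h := mul_le_mul (by linarith) (by linarith)
        (by linarith) (by linarith)
      have h7 : (w + 1) * (w + 2) ≤ h * (h + 1) := mul_le_mul h4 (by linarith)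
        (by linarith) (by linarith)
      have h8 : 0 ≤ (x + 1) * (w + 1 - x) := mul_nonneg (by linarith) (by linarith)
      have h9 : 0 ≤ (w + 1) * (w + 2) := mul_nonneg (by linarith) (by linarith)
      rw [abs_le]
      constructor <;> nlinarith
    have h4 := abs_sub (gM h σ k) (h * (h + 1) / 2 - gpsi h (gs h σ k))
    rw [gM, add_sub_cancel_right, ← gM] at h4
    linarith
  · have : ((h : ℝ) + 1) ^ 2 ≤ 4 * h ^ 2 := by nlinarith
    linarith [mul_le_mul_of_nonneg_left this (Nat.cast_nonneg (α := ℝ) k)]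

end Pool.Agent.QL.M1
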