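import Pool.Agent.P.MP_7a6434d8_pr.QL.M1.PLab
import Pool.Agent.P.MP_7a6434d8_pr.QL.M1.Inc
import Pool.Agent.P.MP_7a6434d8_pr.QL.M1.Conc

/-! The boundary labels seen from a uniform vertex form a bridge; quadratic variation. -/

namespace Pool.Agent.QL.M1

open Pool.Agent.P.MP_7a6434d8_pr Mp Finset MeasureTheory
open scoped ENNReal

/-- one coordinate of `smpl` is uniform -/
theorem lintegral_smpl {X : Type} [Fintype X] [Nonempty X] [MeasurableSpace X]
    [DiscreteMeasurableSpace X] (g : X → ℝ≥0∞) (i : ℕ) :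
    ∫⁻ s, g (s i) ∂smpl X = (∑ x, g x) / Fintype.card X := by
  unfold smpl
  have h1 := (measurePreserving_eval_infinitePi
    (fun _ : ℕ => (ProbabilityTheory.uniformOn Set.univ : Measure X)) i).lintegral_comp
    (f := g) Measurable.of_discrete
  refine h1.trans ?_
  rw [lintegral_fintype, div_eq_mul_inv, sum_mul]
  refine sum_congr rfl fun x _ => ?_
  rw [ProbabilityTheory.uniformOn_univ, Measure.count_singleton, one_div]

theorem qv_mono {L m : ℕ} {G G' : (t : Mp) → (ℕ → V t) → ℝ≥0∞}
    (h : ∀ t, ok t → per t = L → ∀ s, G t s ≤ G' t s) : AVS L m G ≤ AVS L m G' := by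
  refine ENNReal.div_le_div_right (sum_le_sum fun t ht => lintegral_mono fun s => ?_) _
  have := (counta_mem L m t).1 ht
  exact h t this.1 this.2.1 s

theorem qv_add (L m i : ℕ) (g g' : (t : Mp) → V t → ℝ≥0∞) :
    AVS L m (fun t s => g t (s i) + g' t (s i))
      = AVS L m (fun t s => g t (s i)) + AVS L m (fun t s => g' t (s i)) := by
  unfold AVS AV
  rw [← ENNReal.add_div, ← sum_add_distrib]
  congr 1
  refine sum_congr rfl fun t _ => lintegral_add_left ?_ _
  exact (Measurable.of_discrete (f := g t)).comp (measurable_pi_apply i)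

open Classical in
/-- number of pointed discs whose boundary increments satisfy `E` -/
noncomputable def qvN (L m : ℕ) (E : (ℕ → Bool) → Prop) : ℕ :=
  ∑ t ∈ countaT L m, (univ.filter fun v : V t => E (inc t v)).card

theorem qvN_mono (L m : ℕ) {E E1 : (ℕ → Bool) → Prop} (h : ∀ σ, E σ → E1 σ) :
    qvN L m E ≤ qvN L m E1 := by
  classical
  refine sum_le_sum fun t _ => card_le_card fun v hv => ?_
  simp only [mem_filter, mem_univ, true_and] at hv ⊢
  exact h _ hv

theorem qvN_union (L m : ℕ) {E E1 E2 : (ℕ → Bool) → Prop} (h : ∀ σ, E σ → E1 σ ∨ E2 σ) :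
    qvN L m E ≤ qvN L m E1 + qvN L m E2 := by
  classical
  unfold qvN
  rw [← sum_add_distrib]
  refine sum_le_sum fun t _ => le_trans (card_le_card fun v hv => ?_) (card_union_le _ _)
  simp only [mem_union, mem_filter, mem_univ, true_and] at hv ⊢
  exact h _ hv

theorem qv_labV {t : Mp} (ht : ok t) (v : V t) {τ : ℕ → Bool}
    (h : ∀ i, i < 2 * per t → inc t v i = τ i) : LabV t (pos τ) v := by
  refine ⟨fun x => (dW t v x : ℤ) - dW t v (bv t 0), fun p hp => ?_, fun x y hxy => ?_,
    fun x hx => ?_⟩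
  · have h1 := dW_bv ht v p hp
    have h2 : pos (inc t v) p = pos τ p := pos_congr fun i hi => h i (by omega)
    simp only
    omega
  · have := (dW_spec ht v).1 x y hxy
    simp only
    omega
  · obtain ⟨y, h1, h2⟩ := (dW_spec ht v).2 x hx
    refine ⟨y, h1, ?_⟩
    simp only
    omega

open Classical in
theorem qvN_le (L m : ℕ) (E : (ℕ → Bool) → Prop) (hE : Dep (2 * L) E) :
    (qvN L m E : ℝ) ≤ 2 ^ (2 * L) * (PowerSeries.coeff m (countR ^ L) *
      EW (2 * L) (fun σ => (if E σ then 1 else 0) * if pos σ (2 * L) = 0 then 1 else 0)) := by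
  rw [← EW_mul]
  refine EW_cover (fun E => (qvN L m E : ℝ)) (fun _ _ _ h => by exact_mod_cast qvN_union L m h)
    (fun _ _ h => by exact_mod_cast qvN_mono L m h) E (2 * L) _ fun τ => ?_
  by_cases h : E τ ∧ pos τ (2 * L) = 0
  · rw [if_pos h.1, if_pos h.2, mul_one, mul_one]
    refine le_trans ?_ (NL_bound L m (pos τ) (valid_pos h.2))
    refine Nat.cast_le.2 (sum_le_sum fun t ht => card_le_card fun v hv => ?_)
    obtain ⟨h1, h2, -⟩ := (counta_mem L m t).1 ht
    simp only [mem_filter, mem_univ, true_and] at hv ⊢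
    exact qv_labV h1 v (by rw [h2]; exact hv.2)
  · have h0 : qvN L m (fun σ => E σ ∧ ∀ i, i < 2 * L → σ i = τ i) = 0 := by
      refine sum_eq_zero fun t ht => card_eq_zero.2 (eq_empty_of_forall_notMem fun v hv => h ?_)
      simp only [mem_filter, mem_univ, true_and] at hv
      obtain ⟨h1, h2, -⟩ := (counta_mem L m t).1 ht
      refine ⟨hE _ _ hv.2 ▸ hv.1, ?_⟩
      rw [← pos_congr hv.2, ← h2]
      exact pos_inc_end h1 v
    have h1 : ((if E τ then 1 else 0) * if pos τ (2 * L) = 0 then 1 else 0 : ℝ) = 0 := by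
      split_ifs with h2 h3
      · exact absurd ⟨h2, h3⟩ h
      all_goals simp
    simp only [h0, h1, mul_zero, Nat.cast_zero, le_refl]

open Classical in
/-- `EW_cover` for `μ E = ∑ t ∈ countaT L m, #{v : E (inc t v)}`. On a cylinder given by `τ` the
vertex `v` satisfies `LabV t (pos τ) v` (`dW_spec`, `dW_bv`, `pos_congr`) and `pos τ (2 L) = 0`, so
`NL_bound` applies. Then `card_V`, `cnt_pointed`, `counta_cnt_true`. -/
theorem AVS_bridge (L m i : ℕ) (hL : 1 ≤ L) (E : (ℕ → Bool) → Prop) (hE : Dep (2 * L) E) :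
    AVS L m (fun t s => if E (inc t (s i)) then 1 else 0) ≤ ENNReal.ofReal
      (EW (2 * L) (fun σ => (if E σ then 1 else 0) * if pos σ (2 * L) = 0 then 1 else 0) / m1a L) := by
  have h1 : AVS L m (fun t s => if E (inc t (s i)) then 1 else 0)
      = (qvN L m E : ℝ≥0∞) / ((m + L + 1 : ℕ) : ℝ≥0∞) / (countaT L m).card := by
    unfold AVS AV qvN
    congr 1
    rw [Nat.cast_sum, div_eq_mul_inv, sum_mul]
    refine sum_congr rfl fun t ht => ?_
    obtain ⟨h1, h2, h3⟩ := (counta_mem L m t).1 ht
    refine (lintegral_smpl (fun v => if E (inc t v) then 1 else 0) i).trans ?_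
    rw [card_V t h1, h2, h3, sum_boole, div_eq_mul_inv]
  have h0 : 0 ≤ EW (2 * L)
      (fun σ => (if E σ then 1 else 0) * if pos σ (2 * L) = 0 then (1 : ℝ) else 0) :=
    EW_nonneg _ fun σ => by split_ifs <;> norm_num
  have h2 := qvN_le L m E hE
  have h3 := cnt_pointed L m hL
  rw [counta_cnt_true] at h3
  rw [h1]
  refine ENNReal.div_le_of_le_mul (ENNReal.div_le_of_le_mul ?_)
  have ha := m1a_pos L
  rw [← ENNReal.ofReal_natCast, ← ENNReal.ofReal_natCast, ← ENNReal.ofReal_natCast,
    ← ENNReal.ofReal_mul (by positivity), ← ENNReal.ofReal_mul (by positivity)]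
  refine ENNReal.ofReal_le_ofReal (h2.trans (le_of_eq ?_))
  have hc : (0 : ℝ) < Nat.centralBinom L := by exact_mod_cast Nat.centralBinom_pos L
  push_cast
  rw [mul_assoc, h3, m1a, pow_mul, show (2 : ℝ) ^ 2 = 4 by norm_num]
  field_simp

open Classical in
/-- `AVS_bridge` and `EW_bridge` -/
theorem AVS_window (L m i p k : ℕ) (hL : 1 ≤ L) (hk : k ≤ L) (hp : p + k ≤ 2 * L)
    (E : (ℕ → Bool) → Prop) (hE : Dep k E) :
    AVS L m (fun t s => if E (shift p (inc t (s i))) then 1 else 0)
      ≤ ENNReal.ofReal (2 * EW k (fun σ => if E σ then 1 else 0)) := by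
  have h1 := AVS_bridge L m i hL (fun σ => E (shift p σ)) fun σ τ h =>
    hE _ _ fun j hj => h (p + j) (by omega)
  have h2 := EW_bridge (G := fun σ => if E σ then (1 : ℝ) else 0) (L := L) (p := p)
    (fun σ τ h => by simp only [hE σ τ h]) (fun σ => by split_ifs <;> norm_num) hk hp
  refine h1.trans (ENNReal.ofReal_le_ofReal ?_)
  rw [div_le_iff₀ (m1a_pos L)]
  linarith

/-- First part: `NR_eq` with `σ = shift p (inc t (s 0))` (`dW_bv`, `pos_add`), `AVS_window`,
`gs_conc`. Second part: one of the windows `[0, L]`, `[L, 2 L]` has `|pos| ≥ y / 4`; `max_ineq`. -/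
theorem qv : QVStmt := by
  classical
  refine ⟨64, by norm_num, fun L m hL => ⟨fun h p p' η hh hp hp' hp2 hη _ => ?_, fun i y hy => ?_⟩⟩
  · obtain ⟨k, rfl⟩ := Nat.exists_eq_add_of_le hp
    have hL0 : (0 : ℝ) < L := by exact_mod_cast hL
    have h1 := AVS_window L m 0 p k hL (by omega) hp'
      (fun σ => η * L + 2 * (h : ℝ) ^ 2 < |((gs h σ k).1 : ℝ) * (h * (h + 1) / 2) - k|)
      fun σ τ e => by
        have := gs_dep h k σ τ e
        simp only at this
        simp only [this]
    have h2 := gs_conc hh k (mul_pos hη hL0)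
    refine le_trans (qv_mono fun t ht hper s => ?_) (h1.trans (ENNReal.ofReal_le_ofReal ?_))
    · rw [NR_eq hh (shift p (inc t (s 0))) _ p k fun q hq => by
        rw [dW_bv ht _ (p + q) (by omega), dW_bv ht _ p (by omega), pos_add, add_assoc]]
      push_cast
      rw [add_sub_cancel_left]
      split_ifs with h3 h4
      · exact le_rfl
      · exact absurd (lt_of_le_of_lt (by nlinarith [sq_nonneg (h : ℝ)]) h3) h4
      all_goals exact zero_le
    · have hk : (k : ℝ) ≤ L := by exact_mod_cast (by omega : k ≤ L)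
      have h3 : 2 * (4 * k * (h : ℝ) ^ 2 / (η * L) ^ 2) ≤ 64 * (h : ℝ) ^ 2 / (η ^ 2 * L) := by
        rw [mul_div_assoc', div_le_div_iff₀ (by positivity) (by positivity)]
        have h4 : (0 : ℝ) ≤ (h : ℝ) ^ 2 * (η ^ 2 * L) := by positivity
        have h5 := mul_le_mul_of_nonneg_left hk h4
        have h6 := mul_nonneg h4 hL0.le
        nlinarith
      refine le_trans ?_ h3
      convert mul_le_mul_of_nonneg_left h2 zero_le_two
  · have hy0 : (0 : ℝ) < y := by exact_mod_cast hy
    have hd : Dep L fun σ => ∃ q, q ≤ L ∧ (y : ℝ) / 4 ≤ |(pos σ q : ℝ)| := fun σ τ e => by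
      refine propext (exists_congr fun q => and_congr_right fun hq => ?_)
      rw [pos_congr (σ := σ) (τ := τ) fun j hj => e j (by omega)]
    have h1 := AVS_window L m i 0 L hL le_rfl (by omega) _ hd
    have h2 := AVS_window L m i L L hL le_rfl (by omega) _ hd
    have h3 := max_ineq L (a := (y : ℝ) / 4) (by positivity)
    have h4 := qv_add L m i
      (fun t v => if ∃ q, q ≤ L ∧ (y : ℝ) / 4 ≤ |(pos (shift 0 (inc t v)) q : ℝ)| then 1 else 0)
      (fun t v => if ∃ q, q ≤ L ∧ (y : ℝ) / 4 ≤ |(pos (shift L (inc t v)) q : ℝ)| then 1 else 0)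
    have h5 : ENNReal.ofReal (2 * EW L (fun σ =>
        if ∃ q, q ≤ L ∧ (y : ℝ) / 4 ≤ |(pos σ q : ℝ)| then 1 else 0)) ≤
        ENNReal.ofReal (32 * L / y ^ 2) := by
      refine ENNReal.ofReal_le_ofReal (le_trans ?_ (le_of_eq (a := 2 * (L / ((y : ℝ) / 4) ^ 2)) ?_))
      · convert mul_le_mul_of_nonneg_left h3 zero_le_two
      · field_simp
        norm_num
    refine le_trans (qv_mono fun t ht hper s => ?_) (h4.le.trans ?_)
    · by_cases h6 : ∃ p p', p ≤ 2 * L ∧ p' ≤ 2 * L ∧
          dW t (s i) (bv t p) + y ≤ dW t (s i) (bv t p')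
      · rw [if_pos h6]
        by_cases h7 : ∃ q, q ≤ L ∧ (y : ℝ) / 4 ≤ |(pos (shift 0 (inc t (s i))) q : ℝ)|
        · rw [if_pos h7]
          exact le_self_add
        by_cases h8 : ∃ q, q ≤ L ∧ (y : ℝ) / 4 ≤ |(pos (shift L (inc t (s i))) q : ℝ)|
        · rw [if_pos h8]
          exact le_add_self
        exfalso
        have e0 : shift 0 (inc t (s i)) = inc t (s i) := funext fun j => by simp [shift]
        rw [e0] at h7
        push Not at h7 h8
        have key : ∀ x, x ≤ 2 * L → |(pos (inc t (s i)) x : ℝ)| < y / 2 := by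
          intro x hx
          rcases le_total x L with h9 | h9
          · have := h7 x h9
            linarith
          · obtain ⟨q, rfl⟩ := Nat.exists_eq_add_of_le h9
            rw [pos_add]
            push_cast
            have := h7 L le_rfl
            have := h8 q (by omega)
            have := abs_add_le (pos (inc t (s i)) L : ℝ) (pos (shift L (inc t (s i))) q : ℝ)
            linarith
        obtain ⟨p, p', hp, hp', h9⟩ := h6
        have e1 := dW_bv ht (s i) p (by omega)
        have e2 := dW_bv ht (s i) p' (by omega)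
        have e3 : pos (inc t (s i)) p + y ≤ pos (inc t (s i)) p' := by omega
        have e4 : (pos (inc t (s i)) p : ℝ) + y ≤ pos (inc t (s i)) p' := by exact_mod_cast e3
        have e5 := abs_lt.1 (key p hp)
        have e6 := abs_lt.1 (key p' hp')
        linarith [e5.1, e6.2]
      · rw [if_neg h6]
        exact zero_le
    · have h6 : ENNReal.ofReal (64 * L / y ^ 2)
          = ENNReal.ofReal (32 * L / y ^ 2) + ENNReal.ofReal (32 * L / y ^ 2) := by
        rw [← ENNReal.ofReal_add (by positivity) (by positivity)]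
        congr 1
        ring
      rw [h6]
      refine add_le_add (le_trans ?_ h5) (le_trans ?_ h5)
      · convert! h1
      · convert! h2

end Pool.Agent.QL.M1
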