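import Pool.Agent.P.MP_7a6434d8_pr.QL.M1.CntA

/-! Gaussian bounds for binomial coefficients and for the number of quadrangulations. -/

namespace Pool.Agent.P.MP_7a6434d8_pr

open Mp Finset

/-- probability that simple random walk is at `0` at time `2 n` -/
noncomputable def m1a (n : ℕ) : ℝ := (Nat.centralBinom n : ℝ) / 4 ^ n

/-- probability that simple random walk is at `k` at time `2 m + k` -/
noncomputable def m1q (m k : ℕ) : ℝ := ((2 * m + k).choose m : ℝ) / 2 ^ (2 * m + k)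

/-- normalised number of quadrangulations with half-perimeter `L` and `m` inner faces -/
noncomputable def cLm (L m : ℕ) : ℝ := (cnt L m (fun _ => True) : ℝ) / (12 ^ m * 8 ^ L)

theorem m1a_pos (n : ℕ) : 0 < m1a n := by
  have : (0 : ℝ) < Nat.centralBinom n := by exact_mod_cast Nat.centralBinom_pos n
  unfold m1a
  positivity

theorem m1a_succ (n : ℕ) : m1a (n + 1) = m1a n * ((2 * n + 1) / (2 * n + 2)) := by
  have h3 : ((n : ℝ) + 1) * (Nat.centralBinom (n + 1) : ℝ)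
      = 2 * (2 * n + 1) * (Nat.centralBinom n : ℝ) := by
    exact_mod_cast Nat.succ_mul_centralBinom_succ n
  unfold m1a
  rw [pow_succ]
  field_simp
  linear_combination 2 * h3

theorem m1a_upper (n : ℕ) : m1a n ^ 2 * (2 * n + 1) ≤ 1 := by
  induction n with
  | zero => simp [m1a]
  | succ n ih =>
    rw [m1a_succ]
    refine le_trans ?_ ih
    have h0 : (0 : ℝ) ≤ n := Nat.cast_nonneg n
    have h1 : ((2 * n + 1 : ℝ) / (2 * n + 2)) ^ 2 * (2 * (n + 1) + 1) ≤ 2 * n + 1 := by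
      rw [div_pow, div_mul_eq_mul_div, div_le_iff₀ (by positivity)]
      nlinarith
    have h2 := mul_le_mul_of_nonneg_left h1 (sq_nonneg (m1a n))
    push_cast
    calc _ = m1a n ^ 2 * (((2 * n + 1 : ℝ) / (2 * n + 2)) ^ 2 * (2 * (n + 1) + 1)) := by ring
      _ ≤ _ := h2

theorem m1a_lower (n : ℕ) : 1 ≤ m1a n ^ 2 * (4 * n + 1) := by
  induction n with
  | zero => simp [m1a]
  | succ n ih =>
    rw [m1a_succ]
    refine le_trans ih ?_
    have h0 : (0 : ℝ) ≤ n := Nat.cast_nonneg n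
    have h1 : (4 * n + 1 : ℝ) ≤ ((2 * n + 1 : ℝ) / (2 * n + 2)) ^ 2 * (4 * (n + 1) + 1) := by
      rw [div_pow, div_mul_eq_mul_div, le_div_iff₀ (by positivity)]
      nlinarith
    have h2 := mul_le_mul_of_nonneg_left h1 (sq_nonneg (m1a n))
    push_cast
    calc _ ≤ _ := h2
      _ = _ := by ring

theorem m1q_nonneg (m k : ℕ) : 0 ≤ m1q m k := by unfold m1q; positivity

theorem m1q_zero (m : ℕ) : m1q m 0 = m1a m := by
  unfold m1q m1a
  rw [Nat.centralBinom_eq_two_mul_choose, add_zero, pow_mul]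
  norm_num

theorem m1q_one (m : ℕ) : m1q m 1 = m1a (m + 1) := by
  unfold m1q m1a
  rw [Nat.centralBinom_eq_two_mul_choose]
  have e1 : 2 * (m + 1) = (2 * m + 1) + 1 := by ring
  have h1 : (2 * m + 1).choose (m + 1) = (2 * m + 1).choose m := by
    rw [← Nat.choose_symm_of_eq_add]
    ring
  rw [e1, Nat.choose_succ_succ', h1]
  have e2 : (4 : ℝ) ^ (m + 1) = 2 ^ (2 * m + 1) * 2 := by
    rw [← pow_succ, ← e1, pow_mul]; norm_num
  rw [e2]
  push_cast
  field_simp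
  ring

theorem m1q_step (m k : ℕ) : m1q m (k + 2) = m1q (m + 1) k * ((m + 1) / (m + k + 2)) := by
  unfold m1q
  have e1 : 2 * m + (k + 2) = 2 * (m + 1) + k := by ring
  rw [e1]
  set N := 2 * (m + 1) + k with hN
  have h2 : (N.choose (m + 1) : ℝ) * ((m : ℝ) + 1) = (N.choose m : ℝ) * ((m : ℝ) + k + 2) := by
    have := Nat.choose_succ_right_eq N m
    have e3 : N - m = m + k + 2 := by omega
    rw [e3] at this
    exact_mod_cast this
  field_simp
  linear_combination -h2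

theorem m1q_upper (k : ℕ) : ∀ m : ℕ, m1q m k ^ 2 * (2 * m + k + 1)
    ≤ Real.exp ((1 - (k : ℝ) ^ 2) / (2 * (2 * m + k + 1))) := by
  induction k using Nat.twoStepInduction with
  | zero =>
    intro m
    rw [m1q_zero]
    have h1 := m1a_upper m
    have h2 : (1 : ℝ) ≤ Real.exp ((1 - ((0 : ℕ) : ℝ) ^ 2) / (2 * (2 * m + (0 : ℕ) + 1))) :=
      Real.one_le_exp (by simp; positivity)
    refine le_trans ?_ h2
    simpa using h1
  | one =>
    intro m
    rw [m1q_one]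
    have h1 := m1a_upper (m + 1)
    push_cast at h1 ⊢
    have h2 := sq_nonneg (m1a (m + 1))
    simp only [one_pow, sub_self, zero_div, Real.exp_zero]
    nlinarith
  | more k ih _ =>
    intro m
    have h1 := ih (m + 1)
    have hm : (0 : ℝ) ≤ m := Nat.cast_nonneg m
    have hk : (0 : ℝ) ≤ k := Nat.cast_nonneg k
    rw [m1q_step]
    push_cast at h1 ⊢
    have h2 : ((m : ℝ) + 1) / (m + k + 2) ≤ Real.exp (-((k + 1) / (2 * m + k + 3))) := by
      refine le_trans ?_ (Real.add_one_le_exp _)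
      have h3 : ((k : ℝ) + 1) / (2 * m + k + 3) ≤ (k + 1) / (m + k + 2) :=
        div_le_div_of_nonneg_left (by positivity) (by positivity) (by linarith)
      have h4 : ((m : ℝ) + 1) / (m + k + 2) = -((k + 1) / (m + k + 2)) + 1 := by
        field_simp
        ring
      linarith
    have h5 : (((m : ℝ) + 1) / (m + k + 2)) ^ 2 ≤ Real.exp (-((k + 1) / (2 * m + k + 3))) ^ 2 :=
      pow_le_pow_left₀ (by positivity) h2 2
    have h6 := mul_le_mul h1 h5 (by positivity) (Real.exp_pos _).le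
    rw [← Real.exp_nat_mul, ← Real.exp_add] at h6
    refine le_trans (le_of_eq (by ring)) (h6.trans (le_of_eq ?_))
    congr 1
    push_cast
    field_simp
    ring

theorem m1q_lower (k : ℕ) : ∀ m : ℕ, Real.exp (-((k : ℝ) ^ 2 / (2 * (m + 1))))
    ≤ m1q m k ^ 2 * (2 * (2 * m + k) + 3) := by
  induction k using Nat.twoStepInduction with
  | zero =>
    intro m
    rw [m1q_zero]
    have h1 := m1a_lower m
    have h2 := sq_nonneg (m1a m)
    simp only [Nat.cast_zero, ne_eq, OfNat.ofNat_ne_zero, not_false_eq_true, zero_pow, zero_div,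
      neg_zero, Real.exp_zero, add_zero]
    nlinarith
  | one =>
    intro m
    rw [m1q_one]
    have h1 := m1a_lower (m + 1)
    push_cast at h1 ⊢
    have h2 : Real.exp (-((1 : ℝ) ^ 2 / (2 * (m + 1)))) ≤ 1 :=
      Real.exp_le_one_iff.2 (neg_nonpos.2 (by positivity))
    nlinarith
  | more k ih _ =>
    intro m
    have h1 := ih (m + 1)
    have hm : (0 : ℝ) ≤ m := Nat.cast_nonneg m
    have hk : (0 : ℝ) ≤ k := Nat.cast_nonneg k
    rw [m1q_step]
    push_cast at h1 ⊢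
    have h2 : Real.exp (-((k + 1) / (m + 1))) ≤ ((m : ℝ) + 1) / (m + k + 2) := by
      rw [Real.exp_neg, inv_eq_one_div, div_le_div_iff₀ (Real.exp_pos _) (by positivity)]
      have h3 := Real.add_one_le_exp (((k : ℝ) + 1) / (m + 1))
      have h4 : ((m : ℝ) + 1) * ((k + 1) / (m + 1) + 1) = m + k + 2 := by
        field_simp
        ring
      nlinarith
    have h5 : Real.exp (-((k + 1) / (m + 1))) ^ 2 ≤ (((m : ℝ) + 1) / (m + k + 2)) ^ 2 :=
      pow_le_pow_left₀ (Real.exp_pos _).le h2 2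
    have h6 := mul_le_mul h1 h5 (by positivity) (by positivity)
    rw [← Real.exp_nat_mul, ← Real.exp_add] at h6
    refine le_trans ?_ (h6.trans (le_of_eq (by ring)))
    refine Real.exp_le_exp.2 ?_
    have h7 : (k : ℝ) ^ 2 / (2 * (m + 1 + 1)) ≤ k ^ 2 / (2 * (m + 1)) :=
      div_le_div_of_nonneg_left (by positivity) (by positivity) (by linarith)
    have h8 : ((k : ℝ) + 2) ^ 2 / (2 * (m + 1)) = k ^ 2 / (2 * (m + 1)) + 2 * ((k + 1) / (m + 1)) := by
      field_simp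
      ring
    push_cast
    linarith

theorem cLm_nonneg (L m : ℕ) : 0 ≤ cLm L m := by unfold cLm; positivity

theorem cLm_exact (L m : ℕ) : (2 * m + L : ℝ) * (2 * m + L + 1) * cLm L m
    = 2 * L * m1a L * m1q m (L + 1) := by
  have h := cnt_exact L m
  unfold cLm m1a m1q
  push_cast at h
  have e1 : (12 : ℝ) ^ m = 3 ^ m * (2 ^ m) ^ 2 := by
    rw [← pow_mul, mul_comm m 2, pow_mul, ← mul_pow]; norm_num
  have e2 : (8 : ℝ) ^ L = 4 ^ L * 2 ^ L := by rw [← mul_pow]; norm_num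
  have e3 : (2 : ℝ) ^ (2 * m + (L + 1)) = (2 ^ m) ^ 2 * 2 ^ L * 2 := by ring
  rw [e1, e2, e3, ← add_assoc]
  field_simp
  linear_combination h

/-- Gaussian upper bound -/
theorem cLm_upper (L m : ℕ) (hL : 1 ≤ L) : cLm L m ^ 2 * ((m : ℝ) + L + 1) ^ 5
    ≤ 8 * L * Real.exp (-((L : ℝ) ^ 2 / (4 * (m + L + 1)))) := by
  have hL1 : (1 : ℝ) ≤ L := by exact_mod_cast hL
  have hm : (0 : ℝ) ≤ m := Nat.cast_nonneg m
  have h1 := m1q_upper (L + 1) m
  have h2 := m1a_upper L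
  have h3 := cLm_exact L m
  push_cast at h1
  have h4 : Real.exp ((1 - ((L : ℝ) + 1) ^ 2) / (2 * (2 * m + (L + 1) + 1)))
      ≤ Real.exp (-((L : ℝ) ^ 2 / (4 * (m + L + 1)))) := by
    refine Real.exp_le_exp.2 ?_
    rw [← neg_div, div_le_div_iff₀ (by positivity) (by positivity)]
    nlinarith [mul_nonneg hm (sq_nonneg (L : ℝ)), mul_nonneg hm (by linarith : (0 : ℝ) ≤ L),
      pow_nonneg (by linarith : (0 : ℝ) ≤ L) 3]
  set E := Real.exp (-((L : ℝ) ^ 2 / (4 * (m + L + 1))))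
  have hE : 0 < E := Real.exp_pos _
  set c := cLm L m
  set a := m1a L
  set q := m1q m (L + 1)
  have h5 : q ^ 2 * (m + L + 1) ≤ E := by nlinarith [sq_nonneg q]
  have h6 : a ^ 2 * (2 * L) ≤ 1 := by nlinarith [sq_nonneg a]
  have h7 : ((m : ℝ) + L + 1) ^ 2 ≤ 2 * ((2 * m + L) * (2 * m + L + 1)) := by nlinarith
  have h8 : (((m : ℝ) + L + 1) ^ 2) ^ 2 ≤ (2 * ((2 * m + L) * (2 * m + L + 1))) ^ 2 :=
    pow_le_pow_left₀ (by positivity) h7 2
  calc c ^ 2 * ((m : ℝ) + L + 1) ^ 5 = c ^ 2 * (m + L + 1) * (((m : ℝ) + L + 1) ^ 2) ^ 2 := by ring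
    _ ≤ c ^ 2 * (m + L + 1) * (2 * ((2 * m + L) * (2 * m + L + 1))) ^ 2 :=
        mul_le_mul_of_nonneg_left h8 (by positivity)
    _ = 4 * ((2 * m + L) * (2 * m + L + 1) * c) ^ 2 * (m + L + 1) := by ring
    _ = 8 * L * ((a ^ 2 * (2 * L)) * (q ^ 2 * (m + L + 1))) := by rw [h3]; ring
    _ ≤ 8 * L * (1 * E) :=
        mul_le_mul_of_nonneg_left (mul_le_mul h6 h5 (by positivity) (by norm_num)) (by positivity)
    _ = _ := by ring

/-- Gaussian lower bound -/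
theorem cLm_lower (L m : ℕ) (hL : 1 ≤ L) : L / 100 * Real.exp (-(((L : ℝ) + 1) ^ 2 / (2 * (m + 1))))
    ≤ cLm L m ^ 2 * ((m : ℝ) + L + 1) ^ 5 := by
  have hL1 : (1 : ℝ) ≤ L := by exact_mod_cast hL
  have hm : (0 : ℝ) ≤ m := Nat.cast_nonneg m
  have h1 := m1q_lower (L + 1) m
  have h2 := m1a_lower L
  have h3 := cLm_exact L m
  push_cast at h1
  set E := Real.exp (-(((L : ℝ) + 1) ^ 2 / (2 * (m + 1))))
  have hE : 0 < E := Real.exp_pos _
  set c := cLm L m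
  set a := m1a L
  set q := m1q m (L + 1)
  have h5 : E ≤ q ^ 2 * (5 * (m + L + 1)) := by nlinarith [sq_nonneg q]
  have h6 : 1 ≤ a ^ 2 * (5 * L) := by nlinarith [sq_nonneg a]
  have h7 : ((2 * m + L : ℝ) * (2 * m + L + 1)) ≤ 4 * ((m : ℝ) + L + 1) ^ 2 := by nlinarith
  have h8 : ((2 * m + L : ℝ) * (2 * m + L + 1)) ^ 2 ≤ (4 * ((m : ℝ) + L + 1) ^ 2) ^ 2 :=
    pow_le_pow_left₀ (by positivity) h7 2
  calc L / 100 * E = L / 100 * (1 * E) := by ring
    _ ≤ L / 100 * ((a ^ 2 * (5 * L)) * (q ^ 2 * (5 * (m + L + 1)))) :=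
        mul_le_mul_of_nonneg_left (mul_le_mul h6 h5 hE.le (by positivity)) (by positivity)
    _ = (2 * L * a * q) ^ 2 * (m + L + 1) / 16 := by ring
    _ = c ^ 2 * (m + L + 1) / 16 * ((2 * m + L : ℝ) * (2 * m + L + 1)) ^ 2 := by rw [← h3]; ring
    _ ≤ c ^ 2 * (m + L + 1) / 16 * (4 * ((m : ℝ) + L + 1) ^ 2) ^ 2 :=
        mul_le_mul_of_nonneg_left h8 (by positivity)
    _ = _ := by ring

/-- uniform upper bound `c(L,m) ≤ C (L+1)^(-9/2)` -/
theorem cLm_le (L m : ℕ) (hL : 1 ≤ L) : cLm L m ^ 2 * ((L : ℝ) + 1) ^ 9 ≤ 30000 ^ 2 := by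
  have hL1 : (1 : ℝ) ≤ L := by exact_mod_cast hL
  have hm : (0 : ℝ) ≤ m := Nat.cast_nonneg m
  have h1 := cLm_upper L m hL
  set M : ℝ := m + L + 1 with hM
  have hM0 : 0 < M := by positivity
  have h2 := Real.pow_div_factorial_le_exp ((L : ℝ) ^ 2 / (4 * M)) (by positivity) 5
  have h3 : ((Nat.factorial 5 : ℕ) : ℝ) = 120 := by norm_num [Nat.factorial]
  rw [h3] at h2
  have h4 : Real.exp (-((L : ℝ) ^ 2 / (4 * M))) * L ^ 10 ≤ 120 * 4 ^ 5 * M ^ 5 := by
    rw [Real.exp_neg, inv_mul_le_iff₀ (Real.exp_pos _)]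
    have h5 := mul_le_mul_of_nonneg_right h2 (by positivity : (0 : ℝ) ≤ 120 * 4 ^ 5 * M ^ 5)
    refine le_trans (le_of_eq ?_) h5
    field_simp
  have h6 : cLm L m ^ 2 * (L : ℝ) ^ 9 ≤ 8 * (120 * 4 ^ 5) := by
    refine le_of_mul_le_mul_right ?_ (pow_pos hM0 5)
    calc cLm L m ^ 2 * (L : ℝ) ^ 9 * M ^ 5 = (cLm L m ^ 2 * M ^ 5) * (L : ℝ) ^ 9 := by ring
      _ ≤ (8 * L * Real.exp (-((L : ℝ) ^ 2 / (4 * M)))) * (L : ℝ) ^ 9 :=
          mul_le_mul_of_nonneg_right h1 (by positivity)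
      _ = 8 * (Real.exp (-((L : ℝ) ^ 2 / (4 * M))) * L ^ 10) := by ring
      _ ≤ 8 * (120 * 4 ^ 5 * M ^ 5) := by linarith
      _ = _ := by ring
  have h7 : ((L : ℝ) + 1) ^ 9 ≤ (2 * L) ^ 9 := pow_le_pow_left₀ (by positivity) (by linarith) 9
  calc cLm L m ^ 2 * ((L : ℝ) + 1) ^ 9 ≤ cLm L m ^ 2 * (2 * L) ^ 9 :=
        mul_le_mul_of_nonneg_left h7 (sq_nonneg _)
    _ = 2 ^ 9 * (cLm L m ^ 2 * (L : ℝ) ^ 9) := by ring
    _ ≤ _ := by linarith

/-- lower bound `c(L,m) ≥ c_B L^(-9/2)` in the bulk -/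
theorem cLm_ge (B : ℝ) (hB : 1 ≤ B) (L m : ℕ) (hL : 1 ≤ L) (h1 : (L : ℝ) ^ 2 ≤ B * m)
    (h2 : (m : ℝ) ≤ B * L ^ 2) :
    Real.exp (-(2 * B)) / (100 * (B + 2) ^ 5) ≤ cLm L m ^ 2 * (L : ℝ) ^ 9 := by
  have hL1 : (1 : ℝ) ≤ L := by exact_mod_cast hL
  have hm : (0 : ℝ) ≤ m := Nat.cast_nonneg m
  have h3 := cLm_lower L m hL
  have h4 : Real.exp (-(2 * B)) ≤ Real.exp (-(((L : ℝ) + 1) ^ 2 / (2 * (m + 1)))) := by
    refine Real.exp_le_exp.2 (neg_le_neg ?_)
    rw [div_le_iff₀ (by positivity)]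
    nlinarith
  have h5 : (m : ℝ) + L + 1 ≤ (B + 2) * L ^ 2 := by nlinarith
  have h6 : ((m : ℝ) + L + 1) ^ 5 ≤ ((B + 2) * L ^ 2) ^ 5 := pow_le_pow_left₀ (by positivity) h5 5
  have h7 := mul_le_mul_of_nonneg_left h6 (sq_nonneg (cLm L m))
  have h8 := mul_le_mul_of_nonneg_left h4 (by positivity : (0 : ℝ) ≤ L / 100)
  rw [div_le_iff₀ (by positivity)]
  refine le_of_mul_le_mul_left ?_ (by positivity : (0 : ℝ) < L / 100)
  refine (h8.trans (h3.trans h7)).trans (le_of_eq ?_)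
  ring

end Pool.Agent.P.MP_7a6434d8_pr
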