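import Pool.Agent.P.MP_7a6434d8_pr.QL.M1.Walk

/-! The Markov chain of the boundary distances: a discrete Bessel process of dimension five. -/

namespace Pool.Agent.QL.M1

open Finset Function

noncomputable def up (y : ℤ) : ℝ := if 0 ≤ y then ((y : ℝ) + 4) / (2 * (y + 2)) else 0

noncomputable def dn (y : ℤ) : ℝ := if 0 ≤ y then (y : ℝ) / (2 * (y + 2)) else 0

/-- density of the chain with respect to simple random walk -/
noncomputable def DD (σ : ℕ → Bool) (n : ℕ) : ℝ :=
  ∏ i ∈ range n, 2 * (if σ i then up (pos σ i) else dn (pos σ i))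

/-- probability of being at `0` after `n` steps, from `y` -/
noncomputable def rr : ℕ → ℤ → ℝ
  | 0, y => if y = 0 then 1 else 0
  | n + 1, y => up y * rr n (y + 1) + dn y * rr n (y - 1)

/-- reversible measure -/
noncomputable def piw (y : ℤ) : ℝ := ((y : ℝ) + 1) * (y + 2) ^ 2 * (y + 3) / 12

theorem up_nonneg (y : ℤ) : 0 ≤ up y := by
  unfold up
  split_ifs with h
  · have : (0 : ℝ) ≤ y := by exact_mod_cast h
    positivity
  · exact le_rfl

theorem dn_nonneg (y : ℤ) : 0 ≤ dn y := by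
  unfold dn
  split_ifs with h
  · have : (0 : ℝ) ≤ y := by exact_mod_cast h
    positivity
  · exact le_rfl

theorem up_add_dn (y : ℤ) : up y + dn y ≤ 1 := by
  unfold up dn
  split_ifs with h
  · have : (0 : ℝ) ≤ y := by exact_mod_cast h
    refine le_of_eq ?_
    field_simp
    ring
  · norm_num

theorem DD_nonneg (σ : ℕ → Bool) (n : ℕ) : 0 ≤ DD σ n :=
  prod_nonneg fun i _ => mul_nonneg (by norm_num) (by
    split_ifs
    · exact up_nonneg _
    · exact dn_nonneg _)

theorem DD_dep (n : ℕ) : Dep n (fun σ => DD σ n) := fun σ τ h =>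
  prod_congr rfl fun i hi => by
    have hi' := mem_range.1 hi
    rw [h i hi', pos_congr fun j hj => h j (hj.trans hi')]

theorem DD_succ (σ : ℕ → Bool) (n : ℕ) :
    DD σ (n + 1) = DD σ n * (2 * (if σ n then up (pos σ n) else dn (pos σ n))) :=
  prod_range_succ _ _

theorem DD_true (σ : ℕ → Bool) (n : ℕ) :
    DD (update σ n true) (n + 1) = DD σ n * (2 * up (pos σ n)) := by
  rw [DD_succ, update_self, pos_update σ _ le_rfl, (DD_dep n).update le_rfl, if_pos rfl]

theorem DD_false (σ : ℕ → Bool) (n : ℕ) :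
    DD (update σ n false) (n + 1) = DD σ n * (2 * dn (pos σ n)) := by
  rw [DD_succ, update_self, pos_update σ _ le_rfl, (DD_dep n).update le_rfl, if_neg (by simp)]

theorem rr_nonneg (n : ℕ) : ∀ y, 0 ≤ rr n y := by
  induction n with
  | zero => intro y; unfold rr; split_ifs <;> norm_num
  | succ n ih =>
    exact fun y => add_nonneg (mul_nonneg (up_nonneg y) (ih _)) (mul_nonneg (dn_nonneg y) (ih _))

theorem rr_neg (n : ℕ) {y : ℤ} (h : y < 0) : rr n y = 0 := by
  cases n with
  | zero => exact if_neg h.ne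
  | succ n => simp [rr, up, dn, not_le.2 h]

theorem pw_balance (n : ℕ) : ∀ z : ℤ,
    ((n : ℝ) + 1 - z) * pw n (z - 1) = ((n : ℝ) + 1 + z) * pw n (z + 1) := by
  induction n with
  | zero =>
    intro z
    rw [pw_zero, pw_zero]
    split_ifs with h1 h2 h2
    · omega
    · rw [show z = 1 by omega]; norm_num
    · rw [show z = -1 by omega]; norm_num
    · simp
  | succ n ih =>
    intro z
    have h1 := ih (z - 1)
    have h2 := ih (z + 1)
    rw [pw_succ, pw_succ]
    rw [sub_add_cancel] at h1 ⊢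
    rw [add_sub_cancel_right] at h2 ⊢
    push_cast at h1 h2 ⊢
    linear_combination h1 / 2 + h2 / 2

theorem rr_eq (n : ℕ) : ∀ y : ℤ, 0 ≤ y →
    rr n y * (((n : ℝ) + 1) * (n + 2)) = 8 * pw (n + 2) (y + 2) := by
  induction n with
  | zero =>
    intro y hy
    simp only [rr, zero_add, pw_succ, pw_zero]
    split_ifs <;> first | omega | norm_num
  | succ n ih =>
    intro y hy
    have hy' : (0 : ℝ) ≤ y := by exact_mod_cast hy
    have h1 := ih (y + 1) (by omega)
    have h3 := pw_balance (n + 2) (y + 2)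
    have h4 := pw_succ (n + 2) (y + 2)
    have h2 : dn y * (rr n (y - 1) * (((n : ℝ) + 1) * (n + 2))) = dn y * (8 * pw (n + 2) (y + 2 - 1)) := by
      rcases hy.eq_or_lt with rfl | hy0
      · simp [dn]
      · rw [ih (y - 1) (by omega), show y - 1 + 2 = y + 2 - 1 by ring]
    rw [show y + 1 + 2 = y + 2 + 1 by ring] at h1
    have hn : (0 : ℝ) < n + 1 := by positivity
    refine mul_left_cancel₀ hn.ne' ?_
    rw [rr, show n + 1 + 2 = n + 2 + 1 by ring, h4]
    push_cast at h3 ⊢
    have e : (up y * rr n (y + 1) + dn y * rr n (y - 1)) * (((n : ℝ) + 1) * (n + 2))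
        = up y * (8 * pw (n + 2) (y + 2 + 1)) + dn y * (8 * pw (n + 2) (y + 2 - 1)) := by
      rw [← h1, ← h2]; ring
    have e2 : ((n : ℝ) + 3) * (up y * (8 * pw (n + 2) (y + 2 + 1)) + dn y * (8 * pw (n + 2) (y + 2 - 1)))
        = (n + 1) * (8 * ((pw (n + 2) (y + 2 - 1) + pw (n + 2) (y + 2 + 1)) / 2)) := by
      unfold up dn
      rw [if_pos hy, if_pos hy]
      field_simp
      linear_combination (-2 : ℝ) * h3
    linear_combination ((n : ℝ) + 3) * e + e2

theorem rr_le (n : ℕ) (y : ℤ) : rr n y ^ 2 * ((n : ℝ) + 1) ^ 5 ≤ 64 := by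
  rcases lt_or_ge y 0 with h | h
  · rw [rr_neg n h]; norm_num
  have h1 := rr_eq n y h
  have h2 := pw_le (n + 2) (y + 2)
  have hn : (0 : ℝ) ≤ n := Nat.cast_nonneg n
  push_cast at h2
  have h3 : ((n : ℝ) + 1) ^ 5 ≤ (((n : ℝ) + 1) * (n + 2)) ^ 2 * (n + 2 + 1) := by
    have : ((n : ℝ) + 1) ^ 5 = ((n + 1) * (n + 1)) ^ 2 * (n + 1) := by ring
    rw [this]
    gcongr <;> linarith
  calc _ ≤ rr n y ^ 2 * ((((n : ℝ) + 1) * (n + 2)) ^ 2 * (n + 2 + 1)) :=
        mul_le_mul_of_nonneg_left h3 (sq_nonneg _)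
    _ = 64 * (pw (n + 2) (y + 2) ^ 2 * (n + 2 + 1)) := by
        rw [← mul_assoc, ← mul_pow, h1]; ring
    _ ≤ _ := by linarith

/-- backward equation -/
theorem EW_back {s : ℕ} {G : (ℕ → Bool) → ℝ} (hG : Dep s G) (j : ℕ) : ∀ i : ℕ,
    EW (s + j) (fun σ => G σ * DD σ (s + j) * rr i (pos σ (s + j)))
      = EW s (fun σ => G σ * DD σ s * rr (i + j) (pos σ s)) := by
  induction j with
  | zero => exact fun _ => rfl
  | succ j ih =>
    intro i
    rw [show i + (j + 1) = i + 1 + j by ring, ← ih (i + 1), ← add_assoc]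
    refine EW_step_eq fun σ => ?_
    rw [hG.update (Nat.le_add_right s j), hG.update (Nat.le_add_right s j), DD_true, DD_false,
      pos_update_succ, pos_update_succ, rr]
    simp only [sg_true, sg_false, ← sub_eq_add_neg]
    ring

theorem piw_up (y : ℤ) : dn (y + 1) * piw (y + 1) = piw y * up y := by
  unfold up dn piw
  by_cases h : 0 ≤ y
  · have : (0 : ℝ) ≤ y := by exact_mod_cast h
    rw [if_pos h, if_pos (by omega)]
    push_cast
    field_simp
    ring
  · rw [if_neg h]
    split_ifs with h2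
    · rw [show y = -1 by omega]; norm_num
    · simp

theorem piw_dn (y : ℤ) : up (y - 1) * piw (y - 1) = piw y * dn y := by
  have := piw_up (y - 1)
  rw [sub_add_cancel] at this
  linarith

/-- forward equation and reversibility -/
theorem EW_fwd (s : ℕ) : ∀ y : ℤ,
    EW s (fun σ => (if pos σ s = y then 1 else 0) * DD σ s) = piw y * rr s y := by
  induction s with
  | zero =>
    intro y
    simp only [EW, DD, pos_zero, range_zero, prod_empty, rr, mul_one]
    split_ifs with h1 h2 h2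
    · rw [h2]; norm_num [piw]
    · omega
    · omega
    · simp
  | succ s ih =>
    intro y
    have h : EW (s + 1) (fun σ => (if pos σ (s + 1) = y then 1 else 0) * DD σ (s + 1))
        = EW s (fun σ => up (y - 1) * ((if pos σ s = y - 1 then 1 else 0) * DD σ s)
          + dn (y + 1) * ((if pos σ s = y + 1 then 1 else 0) * DD σ s)) := by
      refine EW_step_eq fun σ => ?_
      rw [DD_true, DD_false, pos_update_succ, pos_update_succ]
      simp only [sg_true, sg_false]
      by_cases h1 : pos σ s = y - 1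
      · rw [if_pos (by omega), if_neg (by omega), if_pos h1, if_neg (by omega), h1]
        ring
      · by_cases h2 : pos σ s = y + 1
        · rw [if_neg (by omega), if_pos (by omega), if_neg h1, if_pos h2, h2]
          ring
        · rw [if_neg (by omega), if_neg (by omega), if_neg h1, if_neg h2]
          ring
    rw [h, EW_add, EW_mul, EW_mul, ih, ih, ← mul_assoc, ← mul_assoc, piw_up, piw_dn, rr]
    ring

theorem chain_poly (z B : ℝ) (hz : 0 < z) (hB : 1 ≤ B) (h : z ^ 2 ≤ B) :
    (z + 2) / (2 * z) * (B + 2 * z) ^ 6 + (z - 2) / (2 * z) * (B - 2 * z) ^ 6 ≤ (B + 182) ^ 6 := by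
  have e : (z + 2) / (2 * z) * (B + 2 * z) ^ 6 + (z - 2) / (2 * z) * (B - 2 * z) ^ 6
      = B ^ 6 + 24 * B ^ 5 + z ^ 2 * (60 * B ^ 4 + 320 * B ^ 3) + (z ^ 2) ^ 2 * (240 * B ^ 2 + 384 * B)
        + 64 * (z ^ 2) ^ 3 := by
    field_simp
    ring
  have h0 : 0 ≤ B := by linarith
  have h1 : z ^ 2 * (60 * B ^ 4 + 320 * B ^ 3) ≤ B * (60 * B ^ 4 + 320 * B ^ 3) := by gcongr
  have h2 : (z ^ 2) ^ 2 * (240 * B ^ 2 + 384 * B) ≤ B ^ 2 * (240 * B ^ 2 + 384 * B) := by gcongr
  have h3 : (z ^ 2) ^ 3 ≤ B ^ 3 := by gcongr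
  have h4 : B ^ 4 ≤ B ^ 5 := pow_le_pow_right₀ hB (by norm_num)
  have h5 : B ^ 3 ≤ B ^ 5 := pow_le_pow_right₀ hB (by norm_num)
  have h6 : (B + 182) ^ 6 = B ^ 6 + 1092 * B ^ 5 + (15 * 182 ^ 2 * B ^ 4 + 20 * 182 ^ 3 * B ^ 3
      + 15 * 182 ^ 4 * B ^ 2 + 6 * 182 ^ 5 * B + 182 ^ 6) := by ring
  have h7 : 0 ≤ 15 * 182 ^ 2 * B ^ 4 + 20 * 182 ^ 3 * B ^ 3 + 15 * 182 ^ 4 * B ^ 2
      + 6 * 182 ^ 5 * B + 182 ^ 6 := by positivity
  rw [e, h6]
  nlinarith

theorem chain_step (y : ℤ) (a : ℝ) (ha : 0 ≤ a) :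
    up y * (((y : ℝ) + 1 + 2) ^ 2 + a) ^ 6 + dn y * (((y : ℝ) - 1 + 2) ^ 2 + a) ^ 6
      ≤ (((y : ℝ) + 2) ^ 2 + (a + 183)) ^ 6 := by
  unfold up dn
  split_ifs with h
  · have hy : (0 : ℝ) ≤ y := by exact_mod_cast h
    have := chain_poly (y + 2) (((y : ℝ) + 2) ^ 2 + a + 1) (by linarith) (by nlinarith) (by linarith)
    refine le_trans (le_of_eq ?_) (this.trans (le_of_eq ?_)) <;> ring
  · simp only [zero_mul, add_zero]
    positivity

open Classical in
/-- maximal inequality for the chain -/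
theorem chain_max (k : ℕ) {b : ℝ} (hb : 0 < b) :
    EW k (fun σ => (if ∃ q, q ≤ k ∧ b ≤ (pos σ q : ℝ) then 1 else 0) * DD σ k)
      ≤ (4 + 183 * k) ^ 6 / b ^ 12 := by
  have key : ∀ (m : ℕ) (a : ℝ), 0 ≤ a → EW m (fun σ => DD σ m *
      if ∃ q, q ≤ m ∧ b ≤ (pos σ q : ℝ) then b ^ 12 else (((pos σ m : ℝ) + 2) ^ 2 + a) ^ 6)
      ≤ (4 + (a + 183 * m)) ^ 6 := by
    intro m
    induction m with
    | zero =>
      intro a _
      simp only [EW, DD, range_zero, prod_empty, one_mul, pos_zero]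
      rw [if_neg]
      · norm_num
      · rintro ⟨q, hq, h⟩
        rw [Nat.le_zero.1 hq, pos_zero] at h
        norm_num at h
        linarith
    | succ m ih =>
      intro a ha
      refine (EW_step fun σ => ?_).trans ((ih (a + 183) (by linarith)).trans (le_of_eq ?_))
      · rw [DD_true, DD_false]
        have hD := DD_nonneg σ m
        have hu := up_nonneg (pos σ m)
        have hd := dn_nonneg (pos σ m)
        by_cases h : ∃ q, q ≤ m ∧ b ≤ (pos σ q : ℝ)
        · have h' : ∀ c, ∃ q, q ≤ m + 1 ∧ b ≤ (pos (update σ m c) q : ℝ) := fun c => by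
            obtain ⟨q, hq, h⟩ := h
            exact ⟨q, by omega, by rwa [pos_update σ c hq]⟩
          rw [if_pos h, if_pos (h' true), if_pos (h' false)]
          have := mul_le_mul_of_nonneg_left (up_add_dn (pos σ m))
            (by positivity : 0 ≤ DD σ m * b ^ 12)
          nlinarith
        · have h' : ∀ c, (if ∃ q, q ≤ m + 1 ∧ b ≤ (pos (update σ m c) q : ℝ) then b ^ 12 else
              (((pos (update σ m c) (m + 1) : ℝ) + 2) ^ 2 + a) ^ 6)
              ≤ (((pos (update σ m c) (m + 1) : ℝ) + 2) ^ 2 + a) ^ 6 := fun c => by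
            split_ifs with h1
            · obtain ⟨q, hq, h1⟩ := h1
              rcases Nat.lt_succ_iff_lt_or_eq.1 (Nat.lt_succ_of_le hq) with h2 | rfl
              · exact absurd ⟨q, by omega, by rwa [pos_update σ c (by omega)] at h1⟩ h
              · rw [show b ^ 12 = (b ^ 2) ^ 6 by ring]
                refine pow_le_pow_left₀ (by positivity) ?_ 6
                nlinarith
            · exact le_rfl
          have h1 := h' true
          have h2 := h' false
          rw [if_neg h]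
          have h3 := mul_le_mul_of_nonneg_left (chain_step (pos σ m) a ha) hD
          have h4 := mul_le_mul_of_nonneg_left h1 (mul_nonneg hD hu)
          have h5 := mul_le_mul_of_nonneg_left h2 (mul_nonneg hD hd)
          simp only [pos_update_succ, sg_true, sg_false] at h4 h5 ⊢
          push_cast at h4 h5 ⊢
          rw [← sub_eq_add_neg] at h5 ⊢
          linarith
      · push_cast
        ring
  rw [le_div_iff₀ (by positivity), mul_comm, ← EW_mul]
  refine le_trans (EW_mono k fun σ => ?_) ((key k 0 le_rfl).trans (le_of_eq (by ring)))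
  have hD := DD_nonneg σ k
  split_ifs
  · exact le_of_eq (by ring)
  · simp only [zero_mul, mul_zero]
    positivity

end Pool.Agent.QL.M1
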