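import Pool.Agent.P.MP_7a6434d8_pr.QL.M1.Chain
import Pool.Agent.P.MP_7a6434d8_pr.QL.M1.Inc
import Pool.Agent.P.MP_7a6434d8_pr.XLab
import Pool.Agent.P.MP_7a6434d8_pr.XProd

/-! Distances between boundary vertices of the Boltzmann disc. -/

namespace Pool.Agent.QL.M1

open Pool.Agent.P.MP_7a6434d8_pr Mp Finset
open scoped ENNReal

/-- the critical two-point function -/
noncomputable def RR (j : ℤ) : ℝ := 2 * j * (j + 3) / ((j + 1) * (j + 2))

theorem RR_nonneg {j : ℤ} (h : 0 ≤ j) : 0 ≤ RR j := by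
  have : (0 : ℝ) ≤ j := by exact_mod_cast h
  unfold RR
  positivity

theorem RR_rec {i : ℤ} (h : 0 ≤ i) :
    1 + 1 / 12 * (RR (i + 2) * RR (i + 1) + RR (i + 1) * RR (i + 1) + RR i * RR (i + 1))
      = RR (i + 1) := by
  have : (0 : ℝ) ≤ i := by exact_mod_cast h
  unfold RR
  push_cast
  field_simp
  ring

theorem lab_mass (L : ℕ) (l : ℕ → ℤ) (hl : Valid L l) (hB : ∀ p, p ≤ 2 * L → 0 ≤ l p) :
    mass L (fun t => Lab t l Set.univ (Set.Ici 0)) ≤ dprod RR L l := by
  classical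
  have hn : ∀ L (l : ℕ → ℤ), (∀ p, p < 2 * L → 0 ≤ l p) → 0 ≤ dprod RR L l := fun L l h =>
    (dprod_le (R' := RR) L l fun p hp => ⟨RR_nonneg (h p hp), le_rfl⟩).1
  have h1 := lab_bound 1 zero_le_one Set.univ (Set.Ici 0) (dprod RR)
    (fun L l _ h => hn L l fun p hp => h p hp.le)
    (fun L l k h1 h2 => (dprod_rot _ L l k h1 h2).le) (fun l _ _ => by simp [dprod])
    (fun L l _ hB h1 h2 => by
      obtain ⟨e1, e2, e3⟩ := dprod_ins RR L l h1
      have hP := hn L (fun p => l (p + 2)) fun p hp => hB (p + 2) (by omega)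
      have b0 : 0 ≤ l 0 := hB 0 (Nat.zero_le _)
      have c0 := RR_nonneg b0
      have c1 := RR_nonneg (j := l 0 + 1) (by omega)
      have c2 := RR_nonneg (j := l 0 + 2) (by omega)
      have key := congrArg (· * dprod RR L (fun p => l (p + 2))) (RR_rec b0)
      rw [e1, e2, e3, dprod_shift RR L l h1 h2]
      generalize dprod RR L (fun p => l (p + 2)) = P at hP key ⊢
      refine le_trans ?_ key.le
      rw [add_mul, one_mul, mul_assoc]
      refine add_le_add le_rfl (mul_le_mul_of_nonneg_left ?_ (by positivity))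
      rw [add_mul, add_mul, mul_assoc, mul_assoc, mul_assoc]
      refine add_le_add (add_le_add ?_ le_rfl) ?_
      · split_ifs
        · exact le_rfl
        · positivity
      · split_ifs
        · exact le_rfl
        · positivity) L l hl hB
  simp only [ENNReal.ofReal_one, one_pow] at h1
  rw [IE_ind] at h1
  exact (ENNReal.ofReal_le_ofReal_iff (hn L l fun p hp => hB p hp.le)).1 h1

theorem prod_RR (τ : ℕ → Bool) (n : ℕ) (h : ∀ p, p ≤ n → 0 ≤ pos τ p) :
    (∏ p ∈ range n, if pos τ (p + 1) < pos τ p then RR (pos τ p) else 1)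
        * (((pos τ n : ℝ) + 2) * (pos τ n + 3) / 6)
      = (∏ p ∈ range n, if pos τ (p + 1) < pos τ p then (2 : ℝ) else 1) * DD τ n := by
  induction n with
  | zero => norm_num [DD]
  | succ n ih =>
    have h0 := h n (by omega)
    have h1 : (0 : ℝ) ≤ pos τ n := by exact_mod_cast h0
    have ih' := ih fun p hp => h p (by omega)
    rw [prod_range_succ, prod_range_succ, DD_succ, pos_succ]
    generalize (∏ p ∈ range n, if pos τ (p + 1) < pos τ p then RR (pos τ p) else 1) = A at ih' ⊢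
    generalize (∏ p ∈ range n, if pos τ (p + 1) < pos τ p then (2 : ℝ) else 1) = B at ih' ⊢
    cases τ n
    · simp only [sg_false, Bool.false_eq_true, if_false]
      rw [if_pos (by omega), if_pos (by omega), dn, if_pos h0, RR]
      push_cast
      have e : B * 2 * (DD τ n * (2 * ((pos τ n : ℝ) / (2 * (pos τ n + 2)))))
          = (B * DD τ n) * (2 * (pos τ n : ℝ) / (pos τ n + 2)) := by
        field_simp
      rw [e, ← ih']
      field_simp
      ring
    · simp only [sg_true, if_true]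
      rw [if_neg (by omega), if_neg (by omega), up, if_pos h0]
      push_cast
      have e : B * 1 * (DD τ n * (2 * (((pos τ n : ℝ) + 4) / (2 * (pos τ n + 2)))))
          = (B * DD τ n) * (((pos τ n : ℝ) + 4) / (pos τ n + 2)) := by
        field_simp
      rw [e, ← ih']
      field_simp
      ring

theorem dprod_RR {L : ℕ} {τ : ℕ → Bool} (h0 : pos τ (2 * L) = 0) (h : ∀ p, p ≤ 2 * L → 0 ≤ pos τ p) :
    dprod RR L (pos τ) = 2 ^ L * DD τ (2 * L) := by
  have h1 := prod_RR τ (2 * L) h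
  have h2 := dprod_const 2 L (pos τ) (valid_pos h0)
  unfold dprod at h2 ⊢
  rw [h2, h0] at h1
  rw [← h1]
  norm_num

theorem dW_pos {t : Mp} (ht : ok t) {p : ℕ} (hp : p ≤ 2 * per t) :
    (dW t (bv t 0) (bv t p) : ℤ) = pos (inc t (bv t 0)) p := by
  rw [dW_bv ht _ p hp, dW_self]
  simp

open Classical in
/-- the distances to the root vertex along the boundary are dominated by the chain bridge -/
theorem mass_chain (L : ℕ) (E : (ℕ → Bool) → Prop) (hE : Dep (2 * L) E) :
    mass L (fun t => E (inc t (bv t 0))) ≤ 8 ^ L * EW (2 * L)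
      (fun σ => (if E σ then 1 else 0) * DD σ (2 * L) * rr 0 (pos σ (2 * L))) := by
  have h := EW_cover (fun F => mass L (fun t => F (inc t (bv t 0))))
    (fun _ _ _ h => mass_le_add fun t _ _ h1 => h _ h1) (fun _ _ h => mass_mono fun t _ _ h1 => h _ h1)
    E (2 * L) (fun σ => 2 ^ L * ((if E σ then 1 else 0) * DD σ (2 * L) * rr 0 (pos σ (2 * L))))
    fun τ => by
      by_cases hex : ∃ t, ok t ∧ per t = L ∧ E (inc t (bv t 0)) ∧
          ∀ i, i < 2 * L → inc t (bv t 0) i = τ i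
      · have hp : ∀ t, ok t → per t = L → (∀ i, i < 2 * L → inc t (bv t 0) i = τ i) →
            ∀ p, p ≤ 2 * L → (dW t (bv t 0) (bv t p) : ℤ) = pos τ p := fun t ht hL hi p hp => by
          rw [dW_pos ht (hL ▸ hp)]
          exact pos_congr fun i h => hi i (h.trans_le hp)
        obtain ⟨t0, ht0, hL0, hE0, hi0⟩ := hex
        have h0 : pos τ (2 * L) = 0 := by
          rw [← pos_congr hi0, ← hL0, pos_inc_end ht0]
        have h1 : ∀ p, p ≤ 2 * L → 0 ≤ pos τ p := fun p h => by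
          rw [← hp t0 ht0 hL0 hi0 p h]
          exact Int.natCast_nonneg _
        have h2 : E τ := hE _ _ hi0 ▸ hE0
        rw [if_pos h2, h0, rr, if_pos rfl, one_mul, mul_one, ← dprod_RR h0 h1]
        refine (mass_mono fun t ht hL h => ?_).trans (lab_mass L _ (valid_pos h0) h1)
        obtain ⟨a1, a2⟩ := dW_spec ht (bv t 0)
        refine ⟨fun x => (dW t (bv t 0) x : ℤ), bv t 0, fun p h' => hp t ht hL h.2 p (hL ▸ h'),
          fun x y hxy => ?_, fun x hx => ?_, Set.mem_univ _, fun x => Int.natCast_nonneg _⟩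
        · have := a1 x y hxy
          dsimp only
          omega
        · obtain ⟨y, hy, hd⟩ := a2 x hx
          refine ⟨y, hy, ?_⟩
          dsimp only
          omega
      · rw [mass_eq_zero fun t ht hL h => hex ⟨t, ht, hL, h⟩]
        refine mul_nonneg (by positivity) (mul_nonneg (mul_nonneg ?_ (DD_nonneg _ _)) (rr_nonneg _ _))
        split_ifs <;> norm_num
  rw [EW_mul, ← mul_assoc, pow_mul, ← mul_pow] at h
  norm_num at h ⊢
  exact h

theorem rr_le' {g n : ℕ} (h : g ≤ n) (y : ℤ) :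
    rr n y * (((g : ℝ) + 1) ^ 2 * √((g : ℝ) + 1)) ≤ 8 := by
  have h0 := rr_nonneg n y
  refine (pow_le_pow_iff_left₀ (by positivity) (by norm_num) two_ne_zero).1 ?_
  rw [mul_pow, mul_pow, Real.sq_sqrt (by positivity)]
  have h1 : ((g : ℝ) + 1) ^ 5 ≤ ((n : ℝ) + 1) ^ 5 :=
    pow_le_pow_left₀ (by positivity) (by exact_mod_cast Nat.succ_le_succ h) 5
  have h2 := rr_le n y
  have h3 := mul_le_mul_of_nonneg_left h1 (sq_nonneg (rr n y))
  nlinarith

theorem rr_Z {L n : ℕ} (h : L ≤ n) (y : ℤ) : 8 ^ L * rr n y ≤ 12 * Z L := by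
  have h1 := rr_le' h y
  have h2 : 2 / 3 ≤ w L * (((L : ℝ) + 1) ^ 2 * √((L : ℝ) + 1)) := by
    have hw := w_pos L
    refine (pow_le_pow_iff_left₀ (by norm_num) (by positivity) two_ne_zero).1 ?_
    rw [mul_pow, mul_pow, Real.sq_sqrt (by positivity)]
    rcases L with _ | L
    · norm_num [w_zero]
    · have := numa_lower L
      push_cast
      rw [add_assoc, one_add_one_eq_two]
      nlinarith
  have h3 : rr n y ≤ 12 * w L :=
    le_of_mul_le_mul_right (by linarith) (by positivity : 0 < ((L : ℝ) + 1) ^ 2 * √((L : ℝ) + 1))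
  rw [Z_eq_w]
  have h8 : (0 : ℝ) < 8 ^ L := by positivity
  nlinarith

theorem piw_le {y r : ℕ} (h : y ≤ r) : piw y ≤ ((r : ℝ) + 1) ^ 4 := by
  have h1 : (y : ℝ) ≤ r := by exact_mod_cast h
  have h0 : (0 : ℝ) ≤ y := Nat.cast_nonneg y
  unfold piw
  push_cast
  calc _ ≤ ((r : ℝ) + 1) * (2 * (r + 1)) ^ 2 * (3 * (r + 1)) / 12 := by gcongr <;> linarith
    _ = _ := by ring

theorem small0 {L s g : ℕ} (r : ℕ) (h1 : g ≤ s) (h2 : s + g ≤ 2 * L) :
    mass L (fun t => dW t (bv t 0) (bv t s) ≤ r)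
      ≤ 96 * ((r : ℝ) + 1) ^ 5 / (((g : ℝ) + 1) ^ 2 * √((g : ℝ) + 1)) * Z L := by
  classical
  obtain ⟨j, hj⟩ : ∃ j, 2 * L = s + j := ⟨2 * L - s, by omega⟩
  have hZ := Z_pos L
  have key : ∀ y ∈ range (r + 1), mass L (fun t => dW t (bv t 0) (bv t s) = y)
      ≤ 96 * ((r : ℝ) + 1) ^ 4 / (((g : ℝ) + 1) ^ 2 * √((g : ℝ) + 1)) * Z L := by
    intro y hy
    have hD : Dep s (fun σ => pos σ s = y) := fun σ τ h => by simp only [pos_congr h]
    have hG : Dep s (fun σ => if pos σ s = y then (1 : ℝ) else 0) := fun σ τ h => by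
      simp only [pos_congr h]
    have a1 := mass_chain L (fun σ => pos σ s = y) (hD.mono (by omega))
    have a2 := EW_back hG j 0
    rw [← hj] at a2
    have a3 : EW s (fun σ => (if pos σ s = y then (1 : ℝ) else 0) * DD σ s * rr (0 + j) (pos σ s))
        = rr j y * (piw y * rr s y) := by
      rw [← EW_fwd, ← EW_mul]
      refine EW_congr s fun σ => ?_
      split_ifs with h
      · rw [h, zero_add]; ring
      · ring
    have a4 : mass L (fun t => dW t (bv t 0) (bv t s) = y) ≤ 8 ^ L * (rr j y * (piw y * rr s y)) := by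
      rw [← a3, ← a2]
      refine (mass_mono fun t ht hL h => ?_).trans (a1.trans (le_of_eq (by congr!)))
      rw [← dW_pos ht (by omega), h]
    have a5 : 8 ^ L * (rr j y * rr s y) * (((g : ℝ) + 1) ^ 2 * √((g : ℝ) + 1)) ≤ 96 * Z L := by
      rcases le_total L j with h | h
      · have := mul_le_mul (rr_Z h y) (rr_le' h1 y) (mul_nonneg (rr_nonneg _ _) (by positivity))
          (by positivity)
        linarith
      · have := mul_le_mul (rr_Z (show L ≤ s by omega) y) (rr_le' (show g ≤ j by omega) y)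
          (mul_nonneg (rr_nonneg _ _) (by positivity)) (by positivity)
        linarith
    have a6 := piw_le (Nat.lt_succ_iff.1 (mem_range.1 hy))
    have a7 := mul_le_mul a6 a5 (mul_nonneg (mul_nonneg (by positivity)
      (mul_nonneg (rr_nonneg _ _) (rr_nonneg _ _))) (by positivity)) (by positivity)
    refine a4.trans ?_
    rw [div_mul_eq_mul_div, le_div_iff₀ (by positivity)]
    linarith
  refine (mass_le_sum (range (r + 1)) (fun y t => dW t (bv t 0) (bv t s) = y)
    fun t _ _ h => ⟨_, mem_range.2 (Nat.lt_succ_of_le h), rfl⟩).trans ((sum_le_sum key).trans ?_)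
  rw [sum_const, card_range, nsmul_eq_mul]
  push_cast
  exact le_of_eq (by ring)

theorem max0 {L k : ℕ} (hk : k ≤ L) {b : ℝ} (hb : 0 < b) :
    mass L (fun t => ∃ q, q ≤ k ∧ b ≤ (dW t (bv t 0) (bv t q) : ℝ))
      ≤ 12 * (4 + 183 * k) ^ 6 / b ^ 12 * Z L := by
  classical
  obtain ⟨j, hj⟩ : ∃ j, 2 * L = k + j := ⟨2 * L - k, by omega⟩
  have hD : Dep k (fun σ => ∃ q, q ≤ k ∧ b ≤ (pos σ q : ℝ)) := fun σ τ h =>
    propext (exists_congr fun q => and_congr_right fun hq => by
      rw [pos_congr fun i hi => h i (hi.trans_le hq)])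
  have hG : Dep k (fun σ => if ∃ q, q ≤ k ∧ b ≤ (pos σ q : ℝ) then (1 : ℝ) else 0) := fun σ τ h => by
    simp only [hD σ τ h]
  have a1 := mass_chain L _ (hD.mono (show k ≤ 2 * L by omega))
  have a2 := EW_back hG j 0
  rw [← hj] at a2
  have a3 : 8 ^ L * EW k (fun σ => (if ∃ q, q ≤ k ∧ b ≤ (pos σ q : ℝ) then (1 : ℝ) else 0) * DD σ k
      * rr (0 + j) (pos σ k)) ≤ 12 * Z L * EW k
        (fun σ => (if ∃ q, q ≤ k ∧ b ≤ (pos σ q : ℝ) then 1 else 0) * DD σ k) := by
    rw [← EW_mul, ← EW_mul]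
    refine EW_mono k fun σ => ?_
    have h1 := rr_Z (show L ≤ 0 + j by omega) (pos σ k)
    have h2 := DD_nonneg σ k
    split_ifs
    · nlinarith
    · simp
  have a4 := mul_le_mul_of_nonneg_left (chain_max k hb) (by have := Z_pos L; positivity : 0 ≤ 12 * Z L)
  rw [← a2] at a3
  refine (mass_mono fun t ht hL h => ?_).trans (a1.trans ((le_of_eq (by congr!)).trans
    (a3.trans (a4.trans (le_of_eq (by ring))))))
  obtain ⟨q, hq, h⟩ := h
  refine ⟨q, hq, ?_⟩
  rw [← dW_pos ht (by omega)]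
  exact_mod_cast h

theorem dW_rot {t : Mp} (ht : ok t) {p q : ℕ} (h : p + q ≤ 2 * per t) :
    dW (rotN p t) (bv (rotN p t) 0) (bv (rotN p t) q) = dW t (bv t p) (bv t (p + q)) := by
  obtain ⟨e, he, hbv⟩ := rotN_shift p t ht
  have hm : ∀ x, x ≤ 2 * per t → bv t (x % (2 * per t)) = bv t x := fun x hx => by
    rcases hx.lt_or_eq with h1 | rfl
    · rw [Nat.mod_eq_of_lt h1]
    · rw [Nat.mod_self, bv_end t ht]
  rw [← dW_equiv ht (rotN_ok p t ht) e (equiv_adj ht (rotN_ok p t ht) e he), hbv 0 (Nat.zero_le _),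
    hbv q (by omega), zero_add, add_comm q p, hm p (by omega), hm _ h]

/-- two boundary points at cyclic distance at least `g` are rarely close -/
theorem small_ball {L p s g : ℕ} (r : ℕ) (hp : p + s ≤ 2 * L) (h1 : g ≤ s) (h2 : s + g ≤ 2 * L) :
    mass L (fun t => dW t (bv t p) (bv t (p + s)) ≤ r)
      ≤ 96 * ((r : ℝ) + 1) ^ 5 / (((g : ℝ) + 1) ^ 2 * √((g : ℝ) + 1)) * Z L := by
  refine le_trans ?_ (small0 r h1 h2)
  rw [← mass_rot L p (fun t => dW t (bv t 0) (bv t s) ≤ r)]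
  refine mass_mono fun t ht hL h => ?_
  rwa [dW_rot ht (hL ▸ hp)]

/-- a boundary arc of length `k` rarely reaches far from its first point -/
theorem max_tail {L k : ℕ} (p : ℕ) (hk : k ≤ L) {b : ℝ} (hb : 0 < b) :
    mass L (fun t => ∃ q, q ≤ k ∧ p + q ≤ 2 * L ∧ b ≤ (dW t (bv t p) (bv t (p + q)) : ℝ))
      ≤ 12 * (4 + 183 * k) ^ 6 / b ^ 12 * Z L := by
  refine le_trans ?_ (max0 hk hb)
  rw [← mass_rot L p (fun t => ∃ q, q ≤ k ∧ b ≤ (dW t (bv t 0) (bv t q) : ℝ))]
  refine mass_mono fun t ht hL h => ?_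
  obtain ⟨q, h1, h2, h3⟩ := h
  exact ⟨q, h1, by rwa [dW_rot ht (hL ▸ h2)]⟩

end Pool.Agent.QL.M1
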