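import Pool.Agent.P.MP_7a6434d8_pr.Count

/-! The exact number of quadrangulations with a general boundary. -/

namespace Pool.Agent.P.MP_7a6434d8_pr

open Mp Finset

theorem m1_R_succ (k : ℕ) :
    countR ^ (k + 1) = countR ^ k + PowerSeries.C (3 : ℝ) * (PowerSeries.X * countR ^ (k + 2)) := by
  have e3 : PowerSeries.C (3 : ℝ) = (3 : PowerSeries ℝ) := rfl
  rw [e3]
  linear_combination countR ^ k * count_hR

theorem m1_coeff_zero (k : ℕ) : PowerSeries.coeff 0 (countR ^ k) = 1 := by
  induction k with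
  | zero => simp
  | succ k ih =>
    rw [m1_R_succ, map_add, ih, PowerSeries.coeff_C_mul]
    simp

theorem m1_coeff_succ (k n : ℕ) : PowerSeries.coeff (n + 1) (countR ^ (k + 1))
    = PowerSeries.coeff (n + 1) (countR ^ k) + 3 * PowerSeries.coeff n (countR ^ (k + 2)) := by
  rw [m1_R_succ, map_add, PowerSeries.coeff_C_mul, PowerSeries.coeff_succ_X_mul]

/-- ballot numbers -/
theorem m1_ballot (n : ℕ) : ∀ k : ℕ, ((2 * n + k : ℕ) : ℝ) * PowerSeries.coeff n (countR ^ k)
    = 3 ^ n * k * ((2 * n + k).choose n : ℝ) := by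
  induction n with
  | zero => intro k; simp [m1_coeff_zero]
  | succ n ihn =>
    intro k
    induction k with
    | zero => simp [PowerSeries.coeff_one]
    | succ k ihk =>
      have h1 := ihn (k + 2)
      rw [m1_coeff_succ]
      have e1 : 2 * n + (k + 2) = 2 * (n + 1) + k := by ring
      rw [e1] at h1
      set N := 2 * (n + 1) + k with hN
      have e2 : 2 * (n + 1) + (k + 1) = N + 1 := by omega
      rw [e2, Nat.choose_succ_succ']
      have h2 : (N.choose (n + 1) : ℝ) * ((n : ℝ) + 1) = (N.choose n : ℝ) * ((n : ℝ) + k + 2) := by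
        have := Nat.choose_succ_right_eq N n
        have e3 : N - n = n + k + 2 := by omega
        rw [e3] at this
        exact_mod_cast this
      have hNr : (N : ℝ) = 2 * n + k + 2 := by rw [hN]; push_cast; ring
      have hN0 : (N : ℝ) ≠ 0 := by rw [hNr]; positivity
      apply mul_left_cancel₀ hN0
      push_cast at h1 ihk ⊢
      rw [hNr] at h1 ihk ⊢
      linear_combination (2 * n + k + 3 : ℝ) * ihk + 3 * (2 * n + k + 3 : ℝ) * h1
        - 2 * 3 ^ (n + 1) * h2

/-- the exact count -/
theorem cnt_exact (L m : ℕ) :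
    ((2 * m + L : ℕ) : ℝ) * ((2 * m + L + 1 : ℕ) : ℝ) * (cnt L m (fun _ => True) : ℝ)
      = (Nat.centralBinom L : ℝ) * 3 ^ m * L * ((2 * m + L + 1).choose m : ℝ) := by
  rw [← count_coeff_W (2 * m + L + 1) L m (by omega)]
  have hW : countW L = PowerSeries.C (catalan L : ℝ) * countR ^ L
      - PowerSeries.C ((catalan (L + 1) : ℝ) - catalan L) * (PowerSeries.X * countR ^ (L + 2)) := by
    have e1 : ∀ n : ℕ, PowerSeries.C (n : ℝ) = (n : PowerSeries ℝ) := fun n => map_natCast _ n
    rw [map_sub, e1, e1]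
    unfold countW
    ring
  have hc := count_catalan_succ L
  have hb : ((L : ℝ) + 1) * (catalan L : ℝ) = (Nat.centralBinom L : ℝ) := by
    exact_mod_cast succ_mul_catalan_eq_centralBinom L
  rw [hW, map_sub, PowerSeries.coeff_C_mul, PowerSeries.coeff_C_mul, ← hb]
  rcases m with _ | m
  · simp [m1_coeff_zero]
    ring
  · rw [PowerSeries.coeff_succ_X_mul]
    have h1 := m1_ballot (m + 1) L
    have h2 := m1_ballot m (L + 2)
    have e1 : 2 * m + (L + 2) = 2 * (m + 1) + L := by ring
    rw [e1] at h2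
    set N := 2 * (m + 1) + L with hN
    rw [Nat.choose_succ_succ']
    have h3 : (N.choose (m + 1) : ℝ) * ((m : ℝ) + 1) = (N.choose m : ℝ) * ((m : ℝ) + L + 2) := by
      have := Nat.choose_succ_right_eq N m
      have e3 : N - m = m + L + 2 := by omega
      rw [e3] at this
      exact_mod_cast this
    have hNr : (N : ℝ) = 2 * m + L + 2 := by rw [hN]; push_cast; ring
    have hL2 : ((L : ℝ) + 2) ≠ 0 := by positivity
    apply mul_left_cancel₀ hL2
    push_cast at h1 h2 ⊢
    rw [hNr] at h1 h2 ⊢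
    have hd : ((L : ℝ) + 2) * ((catalan (L + 1) : ℝ) - catalan L) = 3 * L * catalan L := by
      linear_combination hc
    set A := PowerSeries.coeff (m + 1) (countR ^ L)
    set B := PowerSeries.coeff m (countR ^ (L + 2))
    set c : ℝ := (catalan L : ℝ)
    set d : ℝ := (catalan (L + 1) : ℝ)
    linear_combination ((L : ℝ) + 2) * (2 * m + L + 3) * c * h1
      - (2 * m + L + 2 : ℝ) * (2 * m + L + 3) * B * hd - 3 * L * c * (2 * m + L + 3 : ℝ) * h2
      + 2 * ((L : ℝ) + 2) * c * L * 3 ^ (m + 1) * h3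

end Pool.Agent.P.MP_7a6434d8_pr
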