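import Pool.Agent.P.MP_7a6434d8_pr.QL.M1.Walk
import Pool.Agent.P.MP_7a6434d8_pr.QL.Disc

/-! The greedy count of intervals of range `h`. -/

namespace Pool.Agent.QL.M1

open Finset Function

/-- one step of the greedy procedure; the state is (renewals, height above the minimum since the
last renewal, range since the last renewal) -/
def gstep (h : ℕ) (s : ℕ × ℕ × ℕ) (b : Bool) : ℕ × ℕ × ℕ :=
  if (b = true ∧ s.2.1 = s.2.2) ∨ (b = false ∧ s.2.1 = 0) then
    (if s.2.2 + 1 = h then (s.1 + 1, 0, 0) else (s.1, if b then s.2.1 + 1 else 0, s.2.2 + 1))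
  else (s.1, if b then s.2.1 + 1 else s.2.1 - 1, s.2.2)

/-- the state after `n` steps -/
def gs (h : ℕ) (σ : ℕ → Bool) : ℕ → ℕ × ℕ × ℕ
  | 0 => (0, 0, 0)
  | n + 1 => gstep h (gs h σ n) (σ n)

theorem gs_dep (h n : ℕ) : Dep n (fun σ => gs h σ n) := by
  induction n with
  | zero => exact fun _ _ _ => rfl
  | succ n ih =>
    intro σ τ e
    have h1 : gs h σ n = gs h τ n := ih σ τ fun i hi => e i (by omega)
    simp only [gs, h1, e n (by omega)]

theorem gs_inv {h : ℕ} (hh : 1 ≤ h) (σ : ℕ → Bool) (n : ℕ) :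
    (gs h σ n).2.1 ≤ (gs h σ n).2.2 ∧ (gs h σ n).2.2 < h := by
  induction n with
  | zero => exact ⟨le_rfl, hh⟩
  | succ n ih =>
    rw [gs]
    generalize gs h σ n = s at ih
    generalize σ n = b
    obtain ⟨N, x, w⟩ := s
    cases b <;> simp only [gstep] at ih ⊢ <;> split_ifs <;> simp_all <;> omega

/-- admissible sequences -/
def GreedyAdm (l : ℕ → ℕ) (h p N : ℕ) (s : ℕ → ℕ) : Prop :=
  Monotone s ∧ p ≤ s 0 ∧ ∀ i < N, ∃ x y, s i ≤ x ∧
    x ≤ s (i + 1) ∧ s i ≤ y ∧ y ≤ s (i + 1) ∧ l x + h ≤ l y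

/-- the invariant at time `t`, with `τ` the time of the last renewal -/
structure GreedyInv (l : ℕ → ℕ) (h p t N x w τ : ℕ) : Prop where
  le : τ ≤ t
  lt : w < h
  bd : ∀ q, τ ≤ q → q ≤ t → l t ≤ l q + x ∧ l q + x ≤ l t + w
  lo : ∃ q, τ ≤ q ∧ q ≤ t ∧ l q + x = l t
  hi : ∃ q, τ ≤ q ∧ q ≤ t ∧ l q + x = l t + w
  ex : ∃ s, GreedyAdm l h p N s ∧ s N ≤ τ
  all : ∀ s, GreedyAdm l h p N s → τ ≤ s N

section

variable {l : ℕ → ℕ} {h p t N x w τ : ℕ}

theorem GreedyAdm.mono {s : ℕ → ℕ} {M : ℕ} (H : GreedyAdm l h p N s) (hM : M ≤ N) :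
    GreedyAdm l h p M s := ⟨H.1, H.2.1, fun i hi => H.2.2 i (hi.trans_le hM)⟩

theorem GreedyInv.late (H : GreedyInv l h p t N x w τ) {s : ℕ → ℕ}
    (hs : GreedyAdm l h p (N + 1) s) : t + 1 ≤ s (N + 1) := by
  by_contra hn
  obtain ⟨a, b, h1, h2, h3, h4, h5⟩ := hs.2.2 N (Nat.lt_succ_self N)
  have h6 := H.all s (hs.mono N.le_succ)
  have h7 := H.bd a (by omega) (by omega)
  have h8 := H.bd b (by omega) (by omega)
  have h9 := H.lt
  omega

theorem GreedyInv.renew (H : GreedyInv l h p t N x w τ) (hh : 1 ≤ h) {a b : ℕ} (ha : τ ≤ a)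
    (ha' : a ≤ t + 1) (hb : τ ≤ b) (hb' : b ≤ t + 1) (hab : l a + h ≤ l b) :
    GreedyInv l h p (t + 1) (N + 1) 0 0 (t + 1) := by
  refine ⟨le_rfl, hh, fun q h1 h2 => ?_, ⟨t + 1, le_rfl, le_rfl, rfl⟩,
    ⟨t + 1, le_rfl, le_rfl, rfl⟩, ?_, fun s hs => H.late hs⟩
  · rw [le_antisymm h2 h1]
    exact ⟨le_rfl, le_rfl⟩
  · obtain ⟨s, ⟨h1, h2, h3⟩, h4⟩ := H.ex
    have h5 := H.le
    refine ⟨fun i => if i ≤ N then s i else t + 1, ⟨fun i j hij => ?_, by simpa using h2,
      fun i hi => ?_⟩, by simp⟩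
    · by_cases hj : j ≤ N
      · simp only [if_pos hj, if_pos (hij.trans hj)]
        exact h1 hij
      · simp only [if_neg hj]
        split_ifs with hi
        · have := h1 hi
          omega
        · exact le_rfl
    · rcases Nat.lt_succ_iff_lt_or_eq.1 hi with hi | rfl
      · simp only [if_pos hi.le, if_pos (Nat.succ_le_of_lt hi)]
        exact h3 i hi
      · simp only [if_pos le_rfl, if_neg (Nat.not_succ_le_self i)]
        exact ⟨a, b, by omega, ha', by omega, hb', hab⟩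

theorem GreedyInv.keep (H : GreedyInv l h p t N x w τ) {x' w' : ℕ} (hw : w' < h)
    (h1 : ∀ v, l t ≤ v + x → v + x ≤ l t + w → l (t + 1) ≤ v + x' ∧ v + x' ≤ l (t + 1) + w')
    (h2 : x' ≤ w') (h3 : x' = 0 ∨ l t + x' = l (t + 1) + x)
    (h4 : x' = w' ∨ l t + w + x' = l (t + 1) + w' + x) :
    GreedyInv l h p (t + 1) N x' w' τ := by
  have h5 := H.le
  refine ⟨by omega, hw, fun q hq hq' => ?_, ?_, ?_, H.ex, H.all⟩
  · rcases Nat.le_succ_iff.1 hq' with h6 | rfl
    · exact h1 _ (H.bd q hq h6).1 (H.bd q hq h6).2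
    · simp only [Nat.succ_eq_add_one]
      omega
  · rcases h3 with h3 | h3
    · exact ⟨t + 1, by omega, le_rfl, by omega⟩
    · obtain ⟨q, h6, h7, h8⟩ := H.lo
      exact ⟨q, h6, by omega, by omega⟩
  · rcases h4 with h4 | h4
    · exact ⟨t + 1, by omega, le_rfl, by omega⟩
    · obtain ⟨q, h6, h7, h8⟩ := H.hi
      exact ⟨q, h6, by omega, by omega⟩

theorem GreedyInv.step (H : GreedyInv l h p t N x w τ) (hh : 1 ≤ h) (b : Bool)
    (e : (l (t + 1) : ℤ) = l t + sg b) : ∃ τ', GreedyInv l h p (t + 1) (gstep h (N, x, w) b).1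
      (gstep h (N, x, w) b).2.1 (gstep h (N, x, w) b).2.2 τ' := by
  have h1 := H.le
  have h2 := H.lt
  have h3 := H.bd t h1 le_rfl
  obtain ⟨a, a1, a2, a3⟩ := H.lo
  obtain ⟨c, c1, c2, c3⟩ := H.hi
  cases b
  · simp only [sg, Bool.false_eq_true, if_false] at e
    simp only [gstep, Bool.false_eq_true, false_and, true_and, false_or, if_false]
    split_ifs with h4 h5
    · exact ⟨_, H.renew hh (a := t + 1) (b := c) (by omega) le_rfl c1 (by omega) (by omega)⟩
    · exact ⟨τ, H.keep (x' := 0) (w' := w + 1) (by omega) (by omega) (by omega) (by omega)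
        (by omega)⟩
    · exact ⟨τ, H.keep (x' := x - 1) (w' := w) (by omega) (by omega) (by omega) (by omega)
        (by omega)⟩
  · simp only [sg, if_true] at e
    simp only [gstep, Bool.true_eq_false, false_and, true_and, or_false, if_true]
    split_ifs with h4 h5
    · exact ⟨_, H.renew hh (a := a) (b := t + 1) a1 (by omega) (by omega) le_rfl (by omega)⟩
    · exact ⟨τ, H.keep (x' := x + 1) (w' := w + 1) (by omega) (by omega) (by omega) (by omega)
        (by omega)⟩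
    · exact ⟨τ, H.keep (x' := x + 1) (w' := w) (by omega) (by omega) (by omega) (by omega)
        (by omega)⟩

end

/-- Invariant at time `n`, with `τ ≤ n` the time of the last renewal: the values `pos σ q`,
`τ ≤ q ≤ n`, fill `[pos σ n - x, pos σ n - x + w]`; there is an admissible sequence of length `N`
that ends at `p + τ`; every admissible sequence of length `N` ends at or after `p + τ` and no
admissible sequence of length `N + 1` ends before `p + n + 1`. -/
theorem NR_eq {h : ℕ} (hh : 1 ≤ h) (σ : ℕ → Bool) (l : ℕ → ℕ) (p k : ℕ)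
    (hl : ∀ q, q ≤ k → (l (p + q) : ℤ) = l p + pos σ q) : NR l h p (p + k) = (gs h σ k).1 := by
  have key : ∀ n ≤ k, ∃ τ, GreedyInv l h p (p + n) (gs h σ n).1 (gs h σ n).2.1 (gs h σ n).2.2 τ := by
    intro n
    induction n with
    | zero =>
      refine fun _ => ⟨p, le_rfl, hh, fun q h1 h2 => ?_, ⟨p, le_rfl, le_rfl, rfl⟩,
        ⟨p, le_rfl, le_rfl, rfl⟩, ⟨fun _ => p, ⟨monotone_const, le_rfl, fun i hi => ?_⟩, le_rfl⟩,
        fun s hs => hs.2.1⟩
      · rw [le_antisymm h2 h1]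
        exact ⟨le_rfl, le_rfl⟩
      · exact absurd hi (Nat.not_lt_zero i)
    | succ n ih =>
      intro hn
      obtain ⟨τ, H⟩ := ih (by omega)
      refine H.step hh (σ n) ?_
      rw [add_assoc, hl _ hn, hl n (by omega), pos, pos, sum_range_succ, add_assoc]
  obtain ⟨τ, H⟩ := key k le_rfl
  refine IsGreatest.csSup_eq ⟨?_, ?_⟩
  · obtain ⟨s, ⟨h1, h2, h3⟩, h4⟩ := H.ex
    exact ⟨s, h1, h2, h4.trans H.le, h3⟩
  · rintro M ⟨s, h1, h2, h3, h4⟩
    by_contra hn
    have h5 := H.late (GreedyAdm.mono ⟨h1, h2, h4⟩ (not_le.1 hn))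
    have h6 := h1 (Nat.succ_le_of_lt (not_le.1 hn))
    simp only [Nat.succ_eq_add_one] at h6
    omega

end Pool.Agent.QL.M1
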