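import Pool.Agent.P.MP_7a6434d8_pr.QL.M1.CntB

/-! Lipschitz bounds for the normalised number of discs. -/

namespace Pool.Agent.QL.M1

open Pool.Agent.P.MP_7a6434d8_pr Finset

theorem lip_q_L (m k : ℕ) :
    m1q m (k + 1) * (2 * ((m : ℝ) + k + 1)) = m1q m k * (2 * m + k + 1) := by
  unfold m1q
  have h := Nat.choose_mul_succ_eq (2 * m + k) m
  have e : 2 * m + k + 1 - m = m + k + 1 := by omega
  rw [e] at h
  have h' : (((2 * m + k).choose m : ℕ) : ℝ) * (2 * m + k + 1)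
      = (((2 * m + k + 1).choose m : ℕ) : ℝ) * (m + k + 1) := by exact_mod_cast h
  rw [← add_assoc, pow_succ]
  field_simp
  linear_combination -h'

theorem lip_q_m (m k : ℕ) :
    m1q (m + 1) k * (4 * ((m : ℝ) + 1) * (m + k + 1))
      = m1q m k * ((2 * m + k + 1) * (2 * m + k + 2)) := by
  have h1 := m1q_step m k
  have h2 := lip_q_L m k
  have h3 := lip_q_L m (k + 1)
  push_cast at h3
  have hp : (0 : ℝ) < m + k + 2 := by positivity
  have h4 : m1q m (k + 2) * ((m : ℝ) + k + 2) = m1q (m + 1) k * (m + 1) := by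
    rw [h1]; field_simp
  linear_combination (2 * (m : ℝ) + k + 2) * h2 + 2 * ((m : ℝ) + k + 1) * h3
    - 4 * ((m : ℝ) + k + 1) * h4

/-- from `cLm_exact`, `m1q_step` or `Nat.choose` identities -/
theorem cLm_ratio_m (L m : ℕ) (hL : 1 ≤ L) :
    cLm L (m + 1) * (4 * (m + 1) * (m + L + 2)) = cLm L m * ((2 * m + L) * (2 * m + L + 1)) := by
  have h0 := cLm_exact L m
  have h1 := cLm_exact L (m + 1)
  have h2 := lip_q_m m (L + 1)
  push_cast at h1 h2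
  have hp : (2 * (m : ℝ) + L + 2) * (2 * m + L + 3) ≠ 0 := by positivity
  refine mul_left_cancel₀ hp ?_
  linear_combination (4 * ((m : ℝ) + 1) * (m + L + 2)) * h1 + 2 * L * m1a L * h2
    - (2 * (m : ℝ) + L + 2) * (2 * m + L + 3) * h0

theorem cLm_ratio_L (L m : ℕ) (hL : 1 ≤ L) :
    cLm (L + 1) m * (4 * L * (m + L + 2)) = cLm L m * ((2 * L + 1) * (2 * m + L)) := by
  have h0 := cLm_exact L m
  have h1 := cLm_exact (L + 1) m
  have h2 := lip_q_L m (L + 1)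
  have h3 : m1a (L + 1) * (2 * ((L : ℝ) + 1)) = m1a L * (2 * L + 1) := by
    rw [m1a_succ]; field_simp
  push_cast at h1 h2
  have hp : (2 * (m : ℝ) + L + 1) * (2 * m + L + 2) ≠ 0 := by positivity
  refine mul_left_cancel₀ hp ?_
  linear_combination (4 * (L : ℝ) * (m + L + 2)) * h1
    + (4 * (L : ℝ) * (m + L + 2)) * m1q m (L + 1 + 1) * h3
    + 2 * L * (2 * L + 1) * m1a L * h2 - (2 * (m : ℝ) + L + 2) * (2 * L + 1) * h0

theorem lip_root (i : ℕ) : ∃ C : ℝ, 0 < C ∧ ∀ L m : ℕ, 1 ≤ L →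
    cLm L m * ((L : ℝ) ^ (2 * i + 4) * √(L : ℝ)) ≤ C * ((m : ℝ) + L + 1) ^ i := by
  set K : ℝ := ((Nat.factorial (2 * i + 5) : ℕ) : ℝ) * 4 ^ (2 * i + 5) with hK
  have hK0 : 0 < K := by
    have : (0 : ℝ) < ((Nat.factorial (2 * i + 5) : ℕ) : ℝ) := by
      exact_mod_cast Nat.factorial_pos _
    positivity
  refine ⟨√(8 * K), Real.sqrt_pos.2 (by positivity), fun L m hL => ?_⟩
  have hL1 : (1 : ℝ) ≤ L := by exact_mod_cast hL
  have h1 := cLm_upper L m hL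
  set M : ℝ := m + L + 1 with hM
  have hM0 : 0 < M := by positivity
  have h2 := Real.pow_div_factorial_le_exp ((L : ℝ) ^ 2 / (4 * M)) (by positivity) (2 * i + 5)
  have h4 : Real.exp (-((L : ℝ) ^ 2 / (4 * M))) * ((L : ℝ) ^ 2) ^ (2 * i + 5)
      ≤ K * M ^ (2 * i + 5) := by
    rw [Real.exp_neg, inv_mul_le_iff₀ (Real.exp_pos _)]
    have h5 := mul_le_mul_of_nonneg_right h2 (by positivity : (0 : ℝ) ≤ K * M ^ (2 * i + 5))
    refine le_trans (le_of_eq ?_) h5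
    have : (0 : ℝ) < ((Nat.factorial (2 * i + 5) : ℕ) : ℝ) := by
      exact_mod_cast Nat.factorial_pos _
    rw [hK, div_pow, mul_pow]
    field_simp
  have h6 : cLm L m ^ 2 * (L : ℝ) ^ (4 * i + 9) ≤ 8 * K * M ^ (2 * i) := by
    refine le_of_mul_le_mul_right ?_ (pow_pos hM0 5)
    calc cLm L m ^ 2 * (L : ℝ) ^ (4 * i + 9) * M ^ 5
        = (cLm L m ^ 2 * M ^ 5) * (L : ℝ) ^ (4 * i + 9) := by ring
      _ ≤ (8 * L * Real.exp (-((L : ℝ) ^ 2 / (4 * M)))) * (L : ℝ) ^ (4 * i + 9) :=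
          mul_le_mul_of_nonneg_right h1 (by positivity)
      _ = 8 * (Real.exp (-((L : ℝ) ^ 2 / (4 * M))) * ((L : ℝ) ^ 2) ^ (2 * i + 5)) := by ring
      _ ≤ 8 * (K * M ^ (2 * i + 5)) := by linarith
      _ = _ := by ring
  refine abs_le_of_sq_le_sq' ?_ (by positivity) |>.2
  rw [mul_pow, mul_pow, mul_pow, Real.sq_sqrt (by positivity), Real.sq_sqrt (by positivity)]
  calc _ = cLm L m ^ 2 * (L : ℝ) ^ (4 * i + 9) := by ring
    _ ≤ _ := h6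
    _ = _ := by ring

/-- `c(L,m+1) - c(L,m) = c(L,m+1) (L² - 10 m - 3 L - 8) / ((2m+L)(2m+L+1))`; bound `c(L,m+1)` by
`cLm_upper` and `exp (-x) ≤ k! / x ^ k` with `k = 9` and `k = 7` (as in `cLm_le`). -/
theorem cLm_step_m : ∃ C : ℝ, 0 < C ∧ ∀ L m : ℕ, 1 ≤ L →
    |cLm L (m + 1) - cLm L m| * ((L : ℝ) ^ 6 * √(L : ℝ)) ≤ C := by
  obtain ⟨C1, hC1, h1⟩ := lip_root 1
  obtain ⟨C2, hC2, h2⟩ := lip_root 2
  refine ⟨5 * C2 + 50 * C1, by positivity, fun L m hL => ?_⟩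
  have hL1 : (1 : ℝ) ≤ L := by exact_mod_cast hL
  have hm : (0 : ℝ) ≤ m := Nat.cast_nonneg m
  have a1 := h1 L (m + 1) hL
  have a2 := h2 L (m + 1) hL
  have a3 := cLm_ratio_m L m hL
  have a0 := cLm_nonneg L (m + 1)
  push_cast at a1 a2
  set c := cLm L (m + 1)
  set M : ℝ := m + 1 + L + 1 with hM
  have hM0 : 0 < M := by positivity
  set P : ℝ := (2 * m + L) * (2 * m + L + 1) with hP
  have hP0 : 0 < P := by positivity
  have hPM : M ^ 2 ≤ 5 * P := by rw [hM, hP]; nlinarith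
  have b1 : (c - cLm L m) * P = c * ((L : ℝ) ^ 2 - 10 * m - 3 * L - 8) := by
    rw [hP]; linear_combination a3
  have b2 : |c - cLm L m| * P ≤ c * ((L : ℝ) ^ 2 + 10 * M) := by
    rw [← abs_of_pos hP0, ← abs_mul, b1, abs_mul, abs_of_nonneg a0]
    refine mul_le_mul_of_nonneg_left (abs_le.2 ⟨?_, ?_⟩) a0
    · rw [hM]; nlinarith
    · rw [hM]; nlinarith
  have hs : 0 ≤ (L : ℝ) ^ 6 * √(L : ℝ) := by positivity
  refine le_of_mul_le_mul_right ?_ (pow_pos hM0 2)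
  calc |c - cLm L m| * ((L : ℝ) ^ 6 * √(L : ℝ)) * M ^ 2
      ≤ |c - cLm L m| * ((L : ℝ) ^ 6 * √(L : ℝ)) * (5 * P) :=
        mul_le_mul_of_nonneg_left hPM (by positivity)
    _ = 5 * (|c - cLm L m| * P) * ((L : ℝ) ^ 6 * √(L : ℝ)) := by ring
    _ ≤ 5 * (c * ((L : ℝ) ^ 2 + 10 * M)) * ((L : ℝ) ^ 6 * √(L : ℝ)) := by gcongr
    _ = 5 * (c * ((L : ℝ) ^ 8 * √(L : ℝ))) + 50 * M * (c * ((L : ℝ) ^ 6 * √(L : ℝ))) := by ring
    _ ≤ 5 * (C2 * M ^ 2) + 50 * M * (C1 * M ^ 1) := by gcongr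
    _ = _ := by ring

/-- `c(L+1,m) - c(L,m) = c(L,m) (2m - 2L² - 7L) / (4 L (m+L+2))`; `k = 5` and `k = 7` -/
theorem cLm_step_L : ∃ C : ℝ, 0 < C ∧ ∀ L m : ℕ, 1 ≤ L →
    |cLm (L + 1) m - cLm L m| * ((L : ℝ) ^ 5 * √(L : ℝ)) ≤ C := by
  obtain ⟨C0, hC0, h0⟩ := lip_root 0
  obtain ⟨C1, hC1, h1⟩ := lip_root 1
  refine ⟨C1 + 2 * C0, by positivity, fun L m hL => ?_⟩
  have hL1 : (1 : ℝ) ≤ L := by exact_mod_cast hL
  have hm : (0 : ℝ) ≤ m := Nat.cast_nonneg m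
  have a1 := h0 L m hL
  have a2 := h1 L m hL
  have a3 := cLm_ratio_L L m hL
  have a0 := cLm_nonneg L m
  set c := cLm L m
  set M : ℝ := m + L + 1 with hM
  have hM0 : 0 < M := by positivity
  set P : ℝ := 4 * L * (m + L + 2) with hP
  have hP0 : 0 < P := by positivity
  have hPM : 4 * L * M ≤ P := by rw [hM, hP]; nlinarith
  have b1 : (cLm (L + 1) m - c) * P = c * (2 * m - 2 * (L : ℝ) ^ 2 - 7 * L) := by
    rw [hP]; linear_combination a3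
  have b2 : |cLm (L + 1) m - c| * P ≤ c * (4 * (L : ℝ) ^ 2 + 8 * M) := by
    rw [← abs_of_pos hP0, ← abs_mul, b1, abs_mul, abs_of_nonneg a0]
    refine mul_le_mul_of_nonneg_left (abs_le.2 ⟨?_, ?_⟩) a0
    · rw [hM]; nlinarith
    · rw [hM]; nlinarith
  refine le_of_mul_le_mul_right ?_ (by positivity : (0 : ℝ) < 4 * M)
  calc |cLm (L + 1) m - c| * ((L : ℝ) ^ 5 * √(L : ℝ)) * (4 * M)
      = |cLm (L + 1) m - c| * (4 * L * M) * ((L : ℝ) ^ 4 * √(L : ℝ)) := by ring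
    _ ≤ |cLm (L + 1) m - c| * P * ((L : ℝ) ^ 4 * √(L : ℝ)) := by gcongr
    _ ≤ (c * (4 * (L : ℝ) ^ 2 + 8 * M)) * ((L : ℝ) ^ 4 * √(L : ℝ)) := by gcongr
    _ = 4 * (c * ((L : ℝ) ^ 6 * √(L : ℝ))) + 8 * M * (c * ((L : ℝ) ^ 4 * √(L : ℝ))) := by ring
    _ ≤ 4 * (C1 * M ^ 1) + 8 * M * (C0 * M ^ 0) := by gcongr
    _ = _ := by ring

theorem lip_tele (f : ℕ → ℝ) (w C : ℝ) (hw : 0 ≤ w) (h : ∀ i, |f (i + 1) - f i| * w ≤ C)
    (n : ℕ) : |f 0 - f n| * w ≤ C * n := by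
  induction n with
  | zero => simp
  | succ n ih =>
    have h1 : |f 0 - f (n + 1)| ≤ |f 0 - f n| + |f (n + 1) - f n| := by
      rw [abs_sub_comm (f (n + 1))]; exact abs_sub_le _ _ _
    have h2 := mul_le_mul_of_nonneg_right h1 hw
    have h3 := h n
    push_cast
    linarith

/-- telescoping -/
theorem cLm_lip : ∃ C : ℝ, 0 < C ∧ ∀ j y A D : ℕ, 1 ≤ j →
    |cLm j y - cLm (j + A) (y + D)| * ((j : ℝ) ^ 4 * √(j : ℝ)) ≤ C * (A / j + D / (j : ℝ) ^ 2) := by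
  obtain ⟨C1, hC1, h1⟩ := cLm_step_m
  obtain ⟨C2, hC2, h2⟩ := cLm_step_L
  refine ⟨C1 + C2, by positivity, fun j y A D hj => ?_⟩
  have hj1 : (1 : ℝ) ≤ j := by exact_mod_cast hj
  have a1 := lip_tele (fun i => cLm j (y + i)) ((j : ℝ) ^ 6 * √(j : ℝ)) C1 (by positivity)
    (fun i => h1 j (y + i) hj) D
  have a2 := lip_tele (fun i => cLm (j + i) (y + D)) ((j : ℝ) ^ 5 * √(j : ℝ)) C2 (by positivity)
    (fun i => by
      refine le_trans ?_ (h2 (j + i) (y + D) (by omega))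
      have hle : (j : ℝ) ≤ ((j + i : ℕ) : ℝ) := by exact_mod_cast Nat.le_add_right j i
      rw [← add_assoc]
      gcongr) A
  simp only [add_zero] at a1 a2
  have a3 : |cLm j y - cLm (j + A) (y + D)|
      ≤ |cLm j y - cLm j (y + D)| + |cLm j (y + D) - cLm (j + A) (y + D)| := abs_sub_le _ _ _
  have b1 : |cLm j y - cLm j (y + D)| * ((j : ℝ) ^ 4 * √(j : ℝ)) ≤ C1 * (D / (j : ℝ) ^ 2) := by
    rw [← mul_div_assoc, le_div_iff₀ (by positivity)]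
    refine le_trans (le_of_eq ?_) a1
    ring
  have b2 : |cLm j (y + D) - cLm (j + A) (y + D)| * ((j : ℝ) ^ 4 * √(j : ℝ)) ≤ C2 * (A / j) := by
    rw [← mul_div_assoc, le_div_iff₀ (by positivity)]
    refine le_trans (le_of_eq ?_) a2
    ring
  have b3 := mul_le_mul_of_nonneg_right a3 (by positivity : 0 ≤ (j : ℝ) ^ 4 * √(j : ℝ))
  have p1 : 0 ≤ C1 * (A / j) := by positivity
  have p2 : 0 ≤ C2 * (D / (j : ℝ) ^ 2) := by positivity
  linarith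

end Pool.Agent.QL.M1
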