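import Pool.Agent.P.MP_7a6434d8_pr.QL.M1.CntC
import Pool.Agent.P.MP_7a6434d8_pr.XLab
import Pool.Agent.P.MP_7a6434d8_pr.ZCtxA

/-! Pointed discs with prescribed boundary labels. -/

namespace Pool.Agent.QL.M1

open Pool.Agent.P.MP_7a6434d8_pr Mp Finset
open scoped ENNReal

/-- a distance-like labelling with boundary labels `l` and unique local minimum `v` -/
def LabV (t : Mp) (l : ℕ → ℤ) (v : V t) : Prop :=
  ∃ f : V t → ℤ, (∀ p, p ≤ 2 * per t → f (bv t p) = l p) ∧
    (∀ x y, adj t x y → f x = f y + 1 ∨ f y = f x + 1) ∧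
    ∀ x, x ≠ v → ∃ y, adj t x y ∧ f x = f y + 1

open Classical in
/-- the number of such vertices -/
noncomputable def NL (t : Mp) (l : ℕ → ℤ) : ℕ := (univ.filter (LabV t l)).card

/-- as `lab_face` in `XLabDet.lean`, with the vertex kept -/
theorem labV_face {t : Mp} {l : ℕ → ℤ} {v : V t} (ht : ok (face t)) (h : LabV (face t) l v)
    (h1 : l 1 = l 0 + 1) (h2 : l 2 = l 0) :
    LabV t (ins l (l 0 + 1) (l 0 + 2)) v ∨ LabV t (ins l (l 0 + 1) (l 0)) v ∨
      LabV t (ins l (l 0 - 1) (l 0)) v := by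
  obtain ⟨hok, hper⟩ : ok t ∧ 2 ≤ per t := ht
  obtain ⟨f, hb, ha, hs⟩ := h
  have hpf : per (face t) = per t - 1 := rfl
  let g : V t → ℤ := f
  have hg : ∀ p, 3 ≤ p → p ≤ 2 * per t → g (bv t p) = l (p - 2) := by
    intro p h3 hp
    have e := hb (p - 2) (by rw [hpf]; omega)
    rw [xlabdet_bv_face t (p - 2) (by omega), show p - 2 + 2 = p by omega] at e
    exact e
  have g0 : g (bv t 0) = l 0 := by
    have e := hb 0 (Nat.zero_le _)
    rw [xlabdet_bv_face0] at e
    exact e
  have g3 : g (bv t 3) = l 0 + 1 := (hg 3 le_rfl (by omega)).trans h1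
  have g4 : g (bv t 4) = l 0 := (hg 4 (by omega) (by omega)).trans h2
  have hadj : ∀ x y, adj t x y → g x = g y + 1 ∨ g y = g x + 1 :=
    fun x y hxy => ha x y (Or.inl hxy)
  have key : LabV t (ins l (g (bv t 1)) (g (bv t 2))) v := by
    refine ⟨g, fun p hp => ?_, hadj, fun x hx => ?_⟩
    · unfold ins
      by_cases p0 : p = 0
      · rw [if_pos p0, p0, g0]
      · rw [if_neg p0]
        by_cases p1 : p = 1
        · rw [if_pos p1, p1]
        · rw [if_neg p1]
          by_cases p2 : p = 2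
          · rw [if_pos p2, p2]
          · rw [if_neg p2]
            exact hg p (by omega) hp
    · obtain ⟨y, hy, e⟩ := hs x hx
      have e' : g x = g y + 1 := e
      rcases hy with hy | ⟨hx0, hy3⟩ | ⟨hx3, hy0⟩
      · exact ⟨y, hy, e'⟩
      · rw [hx0, hy3, g0, g3] at e'
        omega
      · refine ⟨bv t 4, ?_, ?_⟩
        · rw [hx3]
          exact adj_bv t hok 3 (by omega)
        · rw [hx3, g3, g4]
  have a01 := hadj _ _ (adj_bv t hok 0 (by omega))
  have a12 := hadj _ _ (adj_bv t hok 1 (by omega))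
  have a23 := hadj _ _ (adj_bv t hok 2 (by omega))
  simp only [zero_add, Nat.reduceAdd] at a01 a12 a23
  rw [g0] at a01
  rw [g3] at a23
  have hc : (g (bv t 1) = l 0 + 1 ∧ g (bv t 2) = l 0 + 2) ∨
      (g (bv t 1) = l 0 + 1 ∧ g (bv t 2) = l 0) ∨
      (g (bv t 1) = l 0 - 1 ∧ g (bv t 2) = l 0) := by omega
  rcases hc with ⟨e1, e2⟩ | ⟨e1, e2⟩ | ⟨e1, e2⟩
  · rw [e1, e2] at key
    exact Or.inl key
  · rw [e1, e2] at key
    exact Or.inr (Or.inl key)
  · rw [e1, e2] at key
    exact Or.inr (Or.inr key)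

/-- as `lab_bridge` -/
theorem labV_bridge {a b : Mp} {l : ℕ → ℤ} {v : V a ⊕ V b} (ht : ok (bridge a b))
    (h : LabV (bridge a b) l v) (h1 : l 1 = l 0 + 1) (h2 : l 2 = l 0) :
    b = pt ∧ ∃ x, v = Sum.inl x ∧ LabV a (fun p => l (p + 2)) x := by
  obtain ⟨hoa, hob⟩ : ok a ∧ ok b := ht
  obtain ⟨f, hb, ha, hs⟩ := h
  have hpf : per (bridge a b) = per a + per b + 1 := rfl
  let g : V a ⊕ V b → ℤ := f
  have g0 : g (Sum.inl (bv a 0)) = l 0 := by
    have e := hb 0 (Nat.zero_le _)
    rw [xlabdet_bv0] at e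
    exact e
  have g1 : g (Sum.inr (bv b 0)) = l 0 + 1 := by
    have e := hb (0 + 1) (by rw [hpf]; omega)
    rw [xlabdet_bvb a b 0 (Nat.zero_le _)] at e
    exact e.trans h1
  have hsa : ∀ x : V a, (Sum.inl x : V a ⊕ V b) ≠ v →
      ∃ y, adj a x y ∧ g (Sum.inl x) = g (Sum.inl y) + 1 := by
    intro x hx
    obtain ⟨y, hy, e⟩ := hs (Sum.inl x) hx
    rcases y with y | y
    · exact ⟨y, hy, e⟩
    · obtain ⟨hx0, hy0⟩ : x = bv a 0 ∧ y = bv b 0 := hy
      have e' : g (Sum.inl x) = g (Sum.inr y) + 1 := e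
      rw [hx0, hy0, g0, g1] at e'
      omega
  haveI : Nonempty (V a) := ⟨bv a 0⟩
  haveI : Nonempty (V b) := ⟨bv b 0⟩
  obtain ⟨x, hx⟩ := Finite.exists_min (fun x : V a => g (Sum.inl x))
  have hv : (Sum.inl x : V a ⊕ V b) = v := by
    by_contra hne
    obtain ⟨y, -, e⟩ := hsa x hne
    have := hx y
    omega
  have hpb : per b = 0 := by
    by_contra hne
    have g2 : g (Sum.inr (bv b 1)) = l 0 := by
      have e := hb (1 + 1) (by rw [hpf]; omega)
      rw [xlabdet_bvb a b 1 (by omega)] at e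
      exact e.trans h2
    obtain ⟨z, hz⟩ := Finite.exists_min (fun z : V b => g (Sum.inr z))
    have hzv : (Sum.inr z : V a ⊕ V b) ≠ v := by
      rw [← hv]
      exact Sum.inr_ne_inl
    obtain ⟨y, hy, e⟩ := hs (Sum.inr z) hzv
    rcases y with y | y
    · obtain ⟨hz0, -⟩ : z = bv b 0 ∧ y = bv a 0 := hy
      have := hz (bv b 1)
      rw [hz0, g1, g2] at this
      omega
    · have e' : g (Sum.inr z) = g (Sum.inr y) + 1 := e
      have := hz y
      omega
  refine ⟨eq_pt_of_per_zero b hob hpb, x, hv.symm, fun y => g (Sum.inl y), fun p hp => ?_,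
    fun y z hyz => ha (Sum.inl y) (Sum.inl z) hyz, fun y hy => ?_⟩
  · have e := hb (p + 2 * per b + 2) (by rw [hpf]; omega)
    rw [xlabdet_bva, hpb] at e
    exact e
  · refine hsa y ?_
    rw [← hv]
    exact fun hh => hy (Sum.inl_injective hh)

/-- as `lab_rot`; the map `v ↦ e.symm v` is injective -/
theorem NL_rot {t : Mp} (ht : ok t) (l : ℕ → ℤ) (k : ℕ) (hL : 1 ≤ per t) :
    NL t l ≤ NL (rotN k t) (fun p => l ((p + k) % (2 * per t))) := by
  classical
  obtain ⟨e, he, hbv⟩ := rotN_shift k t ht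
  have hadj := equiv_adj ht (rotN_ok k t ht) e he
  unfold NL
  refine card_le_card_of_injOn e.symm (fun v hv => ?_) e.symm.injective.injOn
  simp only [coe_filter, mem_univ, true_and, Set.mem_ofPred_eq] at hv ⊢
  obtain ⟨f, hb, ha, hs⟩ := hv
  refine ⟨fun x => f (e x), fun p hp => ?_, fun x y hxy => ha _ _ ((hadj x y).2 hxy),
    fun x hx => ?_⟩
  · rw [rotN_per k t ht] at hp
    show f (e (bv (rotN k t) p)) = _
    rw [hbv p hp]
    exact hb _ (Nat.mod_lt _ (by omega)).le
  · have hx' : e x ≠ v := fun hh => hx (by rw [← hh, Equiv.symm_apply_apply])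
    obtain ⟨y, hy, ey⟩ := hs (e x) hx'
    refine ⟨e.symm y, (hadj x (e.symm y)).1 ?_, ?_⟩
    · rw [Equiv.apply_symm_apply]
      exact hy
    · show f (e x) = f (e (e.symm y)) + 1
      rw [Equiv.apply_symm_apply]
      exact ey

theorem plab_pt (l : ℕ → ℤ) : NL pt l ≤ 1 := by
  classical
  exact card_le_one.2 fun _ _ _ _ => rfl

theorem plab_face {t : Mp} {l : ℕ → ℤ} (ht : ok (face t)) (h1 : l 1 = l 0 + 1) (h2 : l 2 = l 0) :
    NL (face t) l ≤ NL t (ins l (l 0 + 1) (l 0 + 2)) + NL t (ins l (l 0 + 1) (l 0))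
      + NL t (ins l (l 0 - 1) (l 0)) := by
  classical
  unfold NL
  refine le_trans ?_ ((card_union_le _ _).trans (add_le_add (card_union_le _ _) le_rfl))
  refine card_le_card_of_injOn (fun v : V (face t) => (v : V t)) (fun v hv => ?_)
    fun _ _ _ _ h => h
  simp only [coe_union, coe_filter, mem_univ, true_and, Set.mem_union, Set.mem_ofPred_eq] at hv ⊢
  exact or_assoc.2 (labV_face ht hv h1 h2)

theorem plab_bridge_ne {a b : Mp} {l : ℕ → ℤ} (ht : ok (bridge a b)) (h1 : l 1 = l 0 + 1)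
    (h2 : l 2 = l 0) (hb : b ≠ pt) : NL (bridge a b) l = 0 := by
  classical
  unfold NL
  rw [card_eq_zero, filter_eq_empty_iff]
  exact fun v _ hv => hb (labV_bridge ht hv h1 h2).1

theorem plab_bridge {a b : Mp} {l : ℕ → ℤ} (ht : ok (bridge a b)) (h1 : l 1 = l 0 + 1)
    (h2 : l 2 = l 0) : NL (bridge a b) l ≤ NL a (fun p => l (p + 2)) := by
  classical
  unfold NL
  refine card_le_card_of_surjOn (fun x : V a => (Sum.inl x : V (bridge a b))) fun v hv => ?_
  simp only [coe_filter, mem_univ, true_and, Set.mem_ofPred_eq] at hv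
  obtain ⟨-, x, hx, hx'⟩ := labV_bridge ht hv h1 h2
  exact ⟨x, by simpa using hx', hx.symm⟩

theorem plab_sum_rot (L m k : ℕ) (hL : 1 ≤ L) (l : ℕ → ℤ) : ∑ t ∈ countaT L m, (NL t l : ℝ)
    ≤ ∑ t ∈ countaT L m, (NL t (fun p => l ((p + k) % (2 * L))) : ℝ) := by
  classical
  calc _ ≤ ∑ t ∈ countaT L m, (NL (rotN k t) (fun p => l ((p + k) % (2 * L))) : ℝ) :=
        sum_le_sum fun t ht => by
          obtain ⟨a1, a2, -⟩ := (counta_mem _ _ _).1 ht
          have := NL_rot a1 l k (by omega)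
          rw [a2] at this
          exact_mod_cast this
    _ = ∑ s ∈ (countaT L m).image (rotN k), (NL s (fun p => l ((p + k) % (2 * L))) : ℝ) :=
        (sum_image (f := fun s => (NL s (fun p => l ((p + k) % (2 * L))) : ℝ))
          fun s hs t ht h => rotN_inj k s t ((counta_mem _ _ _).1 hs).1
            ((counta_mem _ _ _).1 ht).1 h).symm
    _ ≤ _ := by
        refine sum_le_sum_of_subset_of_nonneg (fun s hs => ?_) fun _ _ _ => Nat.cast_nonneg _
        obtain ⟨t, ht, rfl⟩ := mem_image.1 hs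
        obtain ⟨a1, a2, a3⟩ := (counta_mem _ _ _).1 ht
        exact (counta_mem _ _ _).2 ⟨rotN_ok k t a1, (rotN_per k t a1).trans a2,
          (rotN_size k t a1).trans a3⟩

theorem plab_sum_bridge (L m : ℕ) (l : ℕ → ℤ) (h1 : l 1 = l 0 + 1) (h2 : l 2 = l 0) :
    ∑ j ∈ range (L + 1), ∑ p ∈ antidiagonal m, ∑ a ∈ countaT (L - j) p.1, ∑ b ∈ countaT j p.2,
      (NL (bridge a b) l : ℝ) ≤ ∑ a ∈ countaT L m, (NL a (fun p => l (p + 2)) : ℝ) := by
  rw [sum_eq_single 0, sum_eq_single (m, 0)]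
  · refine sum_le_sum fun a ha => ?_
    rw [zctxa_zero, if_pos rfl, sum_singleton]
    exact_mod_cast plab_bridge (b := pt) ⟨((counta_mem _ _ _).1 ha).1, trivial⟩ h1 h2
  · intro p hp hne
    have h3 := mem_antidiagonal.1 hp
    have h4 : p.2 ≠ 0 := fun e => hne (Prod.ext (by simpa [e] using h3) e)
    refine sum_eq_zero fun a _ => ?_
    rw [zctxa_zero, if_neg h4, sum_empty]
  · intro h
    exact absurd (mem_antidiagonal.2 (add_zero m)) h
  · intro j _ hj
    refine sum_eq_zero fun p _ => sum_eq_zero fun a ha => sum_eq_zero fun b hb => ?_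
    obtain ⟨b1, b2, -⟩ := (counta_mem _ _ _).1 hb
    rw [plab_bridge_ne ⟨((counta_mem _ _ _).1 ha).1, b1⟩ h1 h2 (fun e => hj (by rw [← b2, e]; rfl)),
      Nat.cast_zero]
  · intro h
    exact absurd (mem_range.2 (by omega)) h

/-- Strong induction on `2 m + L` for `IE L (fun t => if size t = m then NL t l else 0)`, with
`IE_root`, `IE_rot`, `xlab_choose`, `xlab_valid_rot`, `xlab_valid_ins`, `xlab_valid_shift`,
`m1_coeff_zero`, `m1_coeff_succ`; `IE_by_size` turns the integral into `12⁻¹ ^ m` times the sum. -/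
theorem NL_bound (L m : ℕ) (l : ℕ → ℤ) (hl : Valid L l) :
    ((∑ t ∈ countaT L m, NL t l : ℕ) : ℝ) ≤ PowerSeries.coeff m (countR ^ L) := by
  have key : ∀ N L m : ℕ, 2 * m + L < N → ∀ l, Valid L l →
      ∑ t ∈ countaT L m, (NL t l : ℝ) ≤ PowerSeries.coeff m (countR ^ L) := by
    intro N
    induction N with
    | zero => intro L m h; omega
    | succ N ih =>
      intro L m hN l hl
      rcases L with _ | L
      · rw [zctxa_zero, pow_zero, PowerSeries.coeff_one]
        split_ifs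
        · rw [sum_singleton]
          exact_mod_cast plab_pt l
        · rw [sum_empty]
      · obtain ⟨k, k1, k2⟩ := xlab_choose hl
        refine (plab_sum_rot (L + 1) m k (by omega) l).trans ?_
        have hv := xlab_valid_rot (by omega) hl k
        generalize hl' : (fun p => l ((p + k) % (2 * (L + 1)))) = l' at hv
        have h1 : l' 1 = l' 0 + 1 := by rw [← hl']; exact k1
        have h2 : l' 2 = l' 0 := by rw [← hl']; exact k2
        have hb := (plab_sum_bridge L m l' h1 h2).trans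
          (ih L m (by omega) _ (xlab_valid_shift hv h2))
        rw [zctxa_succ]
        rcases m with _ | m
        · rw [if_pos rfl, zero_add, m1_coeff_zero]
          rwa [m1_coeff_zero] at hb
        · rw [if_neg (Nat.succ_ne_zero m), Nat.add_sub_cancel, m1_coeff_succ, add_comm]
          refine add_le_add hb ?_
          have i1 := ih (L + 2) m (by omega) _
            (xlab_valid_ins (n1 := l' 0 + 1) (n2 := l' 0 + 2) hv (by omega) (by omega) (by omega))
          have i2 := ih (L + 2) m (by omega) _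
            (xlab_valid_ins (n1 := l' 0 + 1) (n2 := l' 0) hv (by omega) (by omega) (by omega))
          have i3 := ih (L + 2) m (by omega) _
            (xlab_valid_ins (n1 := l' 0 - 1) (n2 := l' 0) hv (by omega) (by omega) (by omega))
          have hf : ∑ t ∈ countaT (L + 2) m, (NL (face t) l' : ℝ) ≤ ∑ t ∈ countaT (L + 2) m,
              ((NL t (ins l' (l' 0 + 1) (l' 0 + 2)) : ℝ) + NL t (ins l' (l' 0 + 1) (l' 0))
                + NL t (ins l' (l' 0 - 1) (l' 0))) := sum_le_sum fun t ht => by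
            obtain ⟨a1, a2, -⟩ := (counta_mem _ _ _).1 ht
            exact_mod_cast plab_face (t := t) ⟨a1, by omega⟩ h1 h2
          rw [sum_add_distrib, sum_add_distrib] at hf
          linarith
  rw [Nat.cast_sum]
  exact key _ L m (Nat.lt_succ_self _) l hl

/-- from `cnt_exact`, `m1_ballot` and `Nat.choose` identities -/
theorem cnt_pointed (L m : ℕ) (hL : 1 ≤ L) :
    (cnt L m (fun _ => True) : ℝ) * (m + L + 1)
      = (Nat.centralBinom L : ℝ) * PowerSeries.coeff m (countR ^ L) := by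
  have h1 := cnt_exact L m
  have h2 := m1_ballot m L
  have h3 : (((2 * m + L).choose m : ℕ) : ℝ) * ((2 * m + L + 1 : ℕ) : ℝ)
      = (((2 * m + L + 1).choose m : ℕ) : ℝ) * ((m : ℝ) + L + 1) := by
    have := Nat.choose_mul_succ_eq (2 * m + L) m
    rw [show 2 * m + L + 1 - m = m + L + 1 by omega] at this
    exact_mod_cast this
  have h4 : ((2 * m + L : ℕ) : ℝ) * ((2 * m + L + 1 : ℕ) : ℝ) ≠ 0 :=
    mul_ne_zero (Nat.cast_ne_zero.2 (by omega)) (Nat.cast_ne_zero.2 (by omega))
  apply mul_left_cancel₀ h4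
  linear_combination ((m : ℝ) + L + 1) * h1
    - (Nat.centralBinom L : ℝ) * ((2 * m + L + 1 : ℕ) : ℝ) * h2
    - (Nat.centralBinom L : ℝ) * 3 ^ m * L * h3

end Pool.Agent.QL.M1
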