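import Pool.Agent.P.MP_7a6434d8_pr.QL.M1.CntB

/-! Averages with respect to simple random walk, by recursion on the number of steps. -/

namespace Pool.Agent.QL.M1

open Pool.Agent.P.MP_7a6434d8_pr Finset Function

/-- a step -/
def sg (b : Bool) : ℤ := if b then 1 else -1

/-- position after `n` steps -/
def pos (σ : ℕ → Bool) (n : ℕ) : ℤ := ∑ i ∈ range n, sg (σ i)

/-- average with respect to the first `n` steps -/
noncomputable def EW : ℕ → ((ℕ → Bool) → ℝ) → ℝ
  | 0, F => F (fun _ => false)
  | n + 1, F => EW n (fun σ => (F (update σ n true) + F (update σ n false)) / 2)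

/-- `F` depends only on the first `k` steps -/
def Dep {β : Type} (k : ℕ) (F : (ℕ → Bool) → β) : Prop :=
  ∀ σ τ, (∀ i, i < k → σ i = τ i) → F σ = F τ

/-- forget the first `p` steps -/
def shift (p : ℕ) (σ : ℕ → Bool) (i : ℕ) : Bool := σ (p + i)

/-- a new first step -/
def cons (b : Bool) (σ : ℕ → Bool) : ℕ → Bool
  | 0 => b
  | i + 1 => σ i

@[simp] theorem sg_true : sg true = 1 := rfl

@[simp] theorem sg_false : sg false = -1 := rfl

@[simp] theorem pos_zero (σ : ℕ → Bool) : pos σ 0 = 0 := by simp [pos]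

theorem pos_succ (σ : ℕ → Bool) (n : ℕ) : pos σ (n + 1) = pos σ n + sg (σ n) := sum_range_succ _ _

theorem pos_congr {σ τ : ℕ → Bool} {n : ℕ} (h : ∀ i, i < n → σ i = τ i) : pos σ n = pos τ n :=
  sum_congr rfl fun i hi => by rw [h i (mem_range.1 hi)]

theorem update_lt (σ : ℕ → Bool) {n i : ℕ} (b : Bool) (h : i < n) : update σ n b i = σ i :=
  update_of_ne h.ne _ _

theorem pos_update (σ : ℕ → Bool) {n k : ℕ} (b : Bool) (h : k ≤ n) :
    pos (update σ n b) k = pos σ k :=
  pos_congr fun _ hi => update_lt σ b (hi.trans_le h)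

theorem pos_update_succ (σ : ℕ → Bool) (n : ℕ) (b : Bool) :
    pos (update σ n b) (n + 1) = pos σ n + sg b := by
  rw [pos_succ, pos_update σ b le_rfl, update_self]

theorem pos_add (σ : ℕ → Bool) (p k : ℕ) : pos σ (p + k) = pos σ p + pos (shift p σ) k :=
  sum_range_add _ _ _

theorem pos_cons (b : Bool) (σ : ℕ → Bool) (n : ℕ) : pos (cons b σ) (n + 1) = sg b + pos σ n := by
  unfold pos
  rw [sum_range_succ', add_comm]
  rfl

theorem Dep.update {β : Type} {k n : ℕ} {F : (ℕ → Bool) → β} (h : Dep k F) (hk : k ≤ n)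
    (σ : ℕ → Bool) (b : Bool) : F (update σ n b) = F σ :=
  h _ _ fun _ hi => update_lt σ b (hi.trans_le hk)

theorem Dep.mono {β : Type} {k n : ℕ} {F : (ℕ → Bool) → β} (h : Dep k F) (hk : k ≤ n) : Dep n F :=
  fun σ τ e => h σ τ fun i hi => e i (hi.trans_le hk)

theorem EW_mono (n : ℕ) : ∀ {F G : (ℕ → Bool) → ℝ}, (∀ σ, F σ ≤ G σ) → EW n F ≤ EW n G := by
  induction n with
  | zero => exact fun h => h _
  | succ n ih =>
    intro F G h
    exact ih fun σ => by linarith [h (update σ n true), h (update σ n false)]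

theorem EW_congr (n : ℕ) {F G : (ℕ → Bool) → ℝ} (h : ∀ σ, F σ = G σ) : EW n F = EW n G := by
  rw [funext h]

theorem EW_const (n : ℕ) (c : ℝ) : EW n (fun _ => c) = c := by
  induction n with
  | zero => rfl
  | succ n ih =>
    refine Eq.trans (EW_congr n fun _ => ?_) ih
    ring

theorem EW_nonneg (n : ℕ) {F : (ℕ → Bool) → ℝ} (h : ∀ σ, 0 ≤ F σ) : 0 ≤ EW n F :=
  (EW_const n 0).symm.le.trans (EW_mono n h)

theorem EW_add (n : ℕ) : ∀ F G : (ℕ → Bool) → ℝ, EW n (fun σ => F σ + G σ) = EW n F + EW n G := by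
  induction n with
  | zero => exact fun _ _ => rfl
  | succ n ih =>
    intro F G
    refine Eq.trans (EW_congr n fun _ => ?_) (ih _ _)
    ring

theorem EW_mul (n : ℕ) (c : ℝ) : ∀ F : (ℕ → Bool) → ℝ, EW n (fun σ => c * F σ) = c * EW n F := by
  induction n with
  | zero => exact fun _ => rfl
  | succ n ih =>
    intro F
    refine Eq.trans (EW_congr n fun _ => ?_) (ih _)
    ring

theorem EW_sum {ι : Type} (n : ℕ) (s : Finset ι) (F : ι → (ℕ → Bool) → ℝ) :
    EW n (fun σ => ∑ i ∈ s, F i σ) = ∑ i ∈ s, EW n (F i) := by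
  classical
  induction s using Finset.induction_on with
  | empty => simpa using EW_const n 0
  | insert a s ha ih =>
    simp only [sum_insert ha]
    rw [EW_add, ih]

/-- supermartingale step -/
theorem EW_step {n : ℕ} {F G : (ℕ → Bool) → ℝ}
    (h : ∀ σ, (F (update σ n true) + F (update σ n false)) / 2 ≤ G σ) : EW (n + 1) F ≤ EW n G :=
  EW_mono n h

/-- martingale step -/
theorem EW_step_eq {n : ℕ} {F G : (ℕ → Bool) → ℝ}
    (h : ∀ σ, (F (update σ n true) + F (update σ n false)) / 2 = G σ) : EW (n + 1) F = EW n G :=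
  EW_congr n h

theorem EW_dep {k : ℕ} {F : (ℕ → Bool) → ℝ} (h : Dep k F) (j : ℕ) : EW (k + j) F = EW k F := by
  induction j with
  | zero => rfl
  | succ j ih =>
    rw [← ih, ← add_assoc]
    refine EW_step_eq fun σ => ?_
    rw [h.update (Nat.le_add_right k j), h.update (Nat.le_add_right k j)]
    ring

theorem cons_update (b c : Bool) (σ : ℕ → Bool) (n : ℕ) :
    cons b (update σ n c) = update (cons b σ) (n + 1) c := by
  funext i
  rcases i with _ | i
  · rw [update_of_ne (by omega)]
    rfl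
  · by_cases h : i = n
    · subst h
      rw [update_self]
      exact update_self _ _ _
    · rw [update_of_ne (by omega)]
      exact update_of_ne h _ _

/-- first step decomposition -/
theorem EW_first (n : ℕ) : ∀ F : (ℕ → Bool) → ℝ, EW (n + 1) F
    = (EW n (fun σ => F (cons true σ)) + EW n (fun σ => F (cons false σ))) / 2 := by
  induction n with
  | zero =>
    intro F
    have e : ∀ b, update (fun _ : ℕ => false) 0 b = cons b (fun _ => false) := by
      intro b
      funext i
      rcases i with _ | i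
      · rfl
      · rfl
    simp only [EW, e]
  | succ n ih =>
    intro F
    refine (ih (fun σ => (F (update σ (n + 1) true) + F (update σ (n + 1) false)) / 2)).trans ?_
    simp only [EW, cons_update]

/-- Markov inequality -/
theorem EW_markov (n : ℕ) {E : (ℕ → Bool) → Prop} [DecidablePred E] {F : (ℕ → Bool) → ℝ} {c : ℝ}
    (hc : 0 < c) (h0 : ∀ σ, 0 ≤ F σ) (h : ∀ σ, E σ → c ≤ F σ) :
    EW n (fun σ => if E σ then 1 else 0) ≤ EW n F / c := by
  rw [le_div_iff₀ hc, mul_comm, ← EW_mul]
  refine EW_mono n fun σ => ?_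
  split_ifs with hE
  · simpa using h σ hE
  · simpa using h0 σ

/-- a subadditive set function is bounded by the sum of its values on cylinders -/
theorem EW_cover (μ : ((ℕ → Bool) → Prop) → ℝ)
    (hμ : ∀ E E1 E2 : (ℕ → Bool) → Prop, (∀ σ, E σ → E1 σ ∨ E2 σ) → μ E ≤ μ E1 + μ E2)
    (hm : ∀ E E1 : (ℕ → Bool) → Prop, (∀ σ, E σ → E1 σ) → μ E ≤ μ E1)
    (E : (ℕ → Bool) → Prop) (n : ℕ) : ∀ G : (ℕ → Bool) → ℝ,
      (∀ τ, μ (fun σ => E σ ∧ ∀ i, i < n → σ i = τ i) ≤ G τ) → μ E ≤ 2 ^ n * EW n G := by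
  induction n with
  | zero =>
    intro G h
    refine (hm _ _ fun σ hσ => ?_).trans ((h (fun _ => false)).trans (by simp [EW]))
    exact ⟨hσ, fun i hi => absurd hi (Nat.not_lt_zero i)⟩
  | succ n ih =>
    intro G h
    have h1 := ih (fun σ => 2 * ((G (update σ n true) + G (update σ n false)) / 2)) fun τ => by
      have key : ∀ (σ : ℕ → Bool) (b : Bool), σ n = b → (∀ i, i < n → σ i = τ i) →
          ∀ i, i < n + 1 → σ i = update τ n b i := by
        intro σ b hb hi i hin
        rcases Nat.lt_succ_iff_lt_or_eq.1 hin with h2 | rfl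
        · rw [update_lt τ b h2, hi i h2]
        · rw [update_self, hb]
      have h2 := hμ (fun σ => E σ ∧ ∀ i, i < n → σ i = τ i)
        (fun σ => E σ ∧ ∀ i, i < n + 1 → σ i = update τ n true i)
        (fun σ => E σ ∧ ∀ i, i < n + 1 → σ i = update τ n false i) fun σ hσ => by
          cases hb : σ n
          · exact .inr ⟨hσ.1, key σ _ hb hσ.2⟩
          · exact .inl ⟨hσ.1, key σ _ hb hσ.2⟩
      linarith [h (update τ n true), h (update τ n false)]
    rw [EW_mul] at h1
    refine h1.trans (le_of_eq ?_)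
    simp only [EW]
    ring

/-! ### the law of the position -/

/-- probability of being at `x` at time `n` -/
noncomputable def pw (n : ℕ) (x : ℤ) : ℝ := EW n (fun σ => if pos σ n = x then 1 else 0)

theorem pw_zero (x : ℤ) : pw 0 x = if x = 0 then 1 else 0 := by
  simp [pw, EW, eq_comm]

theorem pw_succ (n : ℕ) (x : ℤ) : pw (n + 1) x = (pw n (x - 1) + pw n (x + 1)) / 2 := by
  unfold pw
  rw [← EW_add, div_eq_inv_mul, ← EW_mul]
  refine EW_step_eq fun σ => ?_
  simp only [pos_update_succ, sg_true, sg_false]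
  have e1 : (pos σ n + 1 = x) ↔ (pos σ n = x - 1) := by omega
  have e2 : (pos σ n + -1 = x) ↔ (pos σ n = x + 1) := by omega
  simp only [e1, e2]
  ring

theorem pw_eq (n : ℕ) : ∀ x : ℤ, pw n x
    = (∑ a ∈ range (n + 1), if (n : ℤ) - 2 * a = x then (n.choose a : ℝ) else 0) / 2 ^ n := by
  induction n with
  | zero => intro x; simp [pw_zero, eq_comm]
  | succ n ih =>
    intro x
    rw [pw_succ, ih, ih, sum_range_succ' _ (n + 1)]
    have h1 : ∑ a ∈ range (n + 1), (if ((n + 1 : ℕ) : ℤ) - 2 * ((a + 1 : ℕ) : ℤ) = x then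
        (((n + 1).choose (a + 1) : ℕ) : ℝ) else 0)
        = ∑ a ∈ range (n + 1), (if (n : ℤ) - 2 * a = x + 1 then (n.choose a : ℝ) else 0)
          + ∑ a ∈ range (n + 1), (if (n : ℤ) - 2 * ((a + 1 : ℕ) : ℤ) = x - 1 then
            (n.choose (a + 1) : ℝ) else 0) := by
      rw [← sum_add_distrib]
      refine sum_congr rfl fun a _ => ?_
      rw [Nat.choose_succ_succ']
      push_cast
      split_ifs <;> first | omega | simp
    have h2 : ∑ a ∈ range (n + 1), (if (n : ℤ) - 2 * a = x - 1 then (n.choose a : ℝ) else 0)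
        = ∑ a ∈ range (n + 1), (if (n : ℤ) - 2 * ((a + 1 : ℕ) : ℤ) = x - 1 then
            (n.choose (a + 1) : ℝ) else 0) + if (n : ℤ) = x - 1 then 1 else 0 := by
      have := sum_range_succ' (fun a : ℕ => if (n : ℤ) - 2 * a = x - 1 then (n.choose a : ℝ) else 0)
        (n + 1)
      rw [sum_range_succ _ (n + 1)] at this
      simpa using this
    have h3 : (if ((n + 1 : ℕ) : ℤ) - 2 * ((0 : ℕ) : ℤ) = x then (((n + 1).choose 0 : ℕ) : ℝ) else 0)
        = if (n : ℤ) = x - 1 then 1 else 0 := by
      push_cast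
      split_ifs <;> first | omega | simp
    rw [h1, h2, h3, pow_succ]
    field_simp
    ring

theorem pw_center (L : ℕ) : pw (2 * L) 0 = m1a L := by
  rw [pw_eq, sum_eq_single L]
  · rw [if_pos (by push_cast; ring), m1a, Nat.centralBinom_eq_two_mul_choose, pow_mul]
    norm_num
  · intro a _ ha
    rw [if_neg (by push_cast; omega)]
  · intro h
    exact absurd (mem_range.2 (by omega)) h

theorem pw_nonneg (n : ℕ) (x : ℤ) : 0 ≤ pw n x :=
  EW_nonneg n fun _ => by split_ifs <;> norm_num

theorem pw_le (n : ℕ) (x : ℤ) : pw n x ^ 2 * (n + 1) ≤ 1 := by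
  have h1 : pw n x ≤ (n.choose (n / 2) : ℝ) / 2 ^ n := by
    rw [pw_eq]
    refine div_le_div_of_nonneg_right ?_ (by positivity)
    by_cases h : ∃ a ∈ range (n + 1), (n : ℤ) - 2 * a = x
    · obtain ⟨a, ha, hx⟩ := h
      rw [sum_eq_single a, if_pos hx]
      · exact_mod_cast Nat.choose_le_middle a n
      · intro b _ hb
        rw [if_neg (by omega)]
      · exact fun h => absurd ha h
    · rw [sum_eq_zero fun a ha => if_neg fun hx => h ⟨a, ha, hx⟩]
      positivity
  have h2 : ((n.choose (n / 2) : ℝ) / 2 ^ n) ^ 2 * (n + 1) ≤ 1 := by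
    rcases Nat.even_or_odd' n with ⟨m, rfl | rfl⟩
    · have := m1a_upper m
      rw [← m1q_zero, m1q, add_zero] at this
      rw [show 2 * m / 2 = m by omega]
      push_cast
      exact this
    · have := m1a_upper (m + 1)
      rw [← m1q_one, m1q] at this
      rw [show (2 * m + 1) / 2 = m by omega]
      push_cast at this ⊢
      nlinarith [sq_nonneg (((2 * m + 1).choose m : ℝ) / 2 ^ (2 * m + 1))]
  exact (mul_le_mul_of_nonneg_right (pow_le_pow_left₀ (pw_nonneg n x) h1 2) (by positivity)).trans h2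

/-- conditioning on a window of `k` steps -/
theorem EW_window {k : ℕ} {G : (ℕ → Bool) → ℝ} (hG : Dep k G) (r p : ℕ) : ∀ x : ℤ,
    EW (k + r + p) (fun σ => G (shift p σ) * if pos σ (k + r + p) = x then 1 else 0)
      = EW k (fun σ => G σ * pw (r + p) (x - pos σ k)) := by
  induction p with
  | zero =>
    induction r with
    | zero =>
      intro x
      refine EW_congr k fun σ => ?_
      have e : shift 0 σ = σ := funext fun i => by simp [shift]
      rw [e, pw_zero]
      congr 1
      simp only [add_zero]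
      split_ifs <;> first | omega | rfl
    | succ r ih =>
      intro x
      have h1 := ih (x - 1)
      have h2 := ih (x + 1)
      have e : ∀ σ : ℕ → Bool, shift 0 σ = σ := fun σ => funext fun i => by simp [shift]
      simp only [add_zero, e] at h1 h2 ⊢
      have h3 : EW (k + (r + 1)) (fun σ => G σ * if pos σ (k + (r + 1)) = x then 1 else 0)
          = EW (k + r) (fun σ => 2⁻¹ * ((G σ * if pos σ (k + r) = x - 1 then 1 else 0)
            + G σ * if pos σ (k + r) = x + 1 then 1 else 0)) := by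
        refine EW_step_eq (n := k + r) fun σ => ?_
        rw [hG.update (Nat.le_add_right k r), hG.update (Nat.le_add_right k r), ← add_assoc,
          pos_update_succ, pos_update_succ]
        have e1 : (pos σ (k + r) + sg true = x) ↔ (pos σ (k + r) = x - 1) := by simp; omega
        have e2 : (pos σ (k + r) + sg false = x) ↔ (pos σ (k + r) = x + 1) := by simp; omega
        simp only [e1, e2]
        ring
      rw [h3, EW_mul, EW_add, h1, h2, ← EW_add, ← EW_mul]
      refine EW_congr k fun σ => ?_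
      rw [pw_succ, show x - pos σ k - 1 = x - 1 - pos σ k by ring,
        show x - pos σ k + 1 = x + 1 - pos σ k by ring]
      ring
  | succ p ih =>
    intro x
    rw [← add_assoc (k + r), EW_first]
    have e : ∀ (b : Bool) (σ : ℕ → Bool), shift (p + 1) (cons b σ) = shift p σ := fun b σ =>
      funext fun i => by
        unfold shift
        rw [show p + 1 + i = p + i + 1 by ring]
        rfl
    have e1 : ∀ y : ℤ, (sg true + y = x) ↔ (y = x - 1) := fun y => by simp; omega
    have e2 : ∀ y : ℤ, (sg false + y = x) ↔ (y = x + 1) := fun y => by simp; omega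
    simp only [e, pos_cons, e1, e2]
    rw [ih, ih, ← EW_add, div_eq_inv_mul, ← EW_mul]
    refine EW_congr k fun σ => ?_
    rw [← add_assoc r, pw_succ, show x - pos σ k - 1 = x - 1 - pos σ k by ring,
      show x - pos σ k + 1 = x + 1 - pos σ k by ring]
    ring

/-- on a window of at most half the length the bridge has density at most two -/
theorem EW_bridge {k L p : ℕ} {G : (ℕ → Bool) → ℝ} (hG : Dep k G) (h0 : ∀ σ, 0 ≤ G σ) (hk : k ≤ L)
    (hp : p + k ≤ 2 * L) :
    EW (2 * L) (fun σ => G (shift p σ) * if pos σ (2 * L) = 0 then 1 else 0)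
      ≤ 2 * m1a L * EW k G := by
  obtain ⟨r, hr⟩ : ∃ r, 2 * L = k + r + p := ⟨2 * L - k - p, by omega⟩
  rw [hr, EW_window hG, ← EW_mul]
  refine EW_mono k fun σ => ?_
  rw [mul_comm]
  refine mul_le_mul_of_nonneg_right ?_ (h0 σ)
  have h1 := pw_le (r + p) (0 - pos σ k)
  have h2 := m1a_lower L
  have h3 : (L : ℝ) ≤ ((r + p : ℕ) : ℝ) := by exact_mod_cast (by omega : L ≤ r + p)
  have h4 := m1a_pos L
  refine (pow_le_pow_iff_left₀ (pw_nonneg _ _) (by positivity) two_ne_zero).1 ?_
  have h5 : (0 : ℝ) ≤ L := Nat.cast_nonneg L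
  refine le_of_mul_le_mul_right ?_ (by positivity : (0 : ℝ) < L + 1)
  nlinarith [sq_nonneg (pw (r + p) (0 - pos σ k)), sq_nonneg (m1a L)]

end Pool.Agent.QL.M1
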